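import Pool.Agent.H81.EllFoot

open Set Filter Topology Real MeasureTheory

namespace Pool.Agent.H81

variable {F D : E3 → E3 → ℝ}

/-- footpoints, non antipodal case -/
theorem foot_nonanti (hP : HPlane D) (hF : HFinsler F D) (A : Cht) {y v w : ℝ × ℝ}
    (hvw : cr v w ≠ 0) (hpv : pv (FA F A) y v w = 0) {h : ℝ} {g : ℝ → E3}
    (l : LineP D (A (y, 1)) (A (v, 0)) h g) (α γ : ℝ)
    (hlt : D (α • A (y, 1) + A (v, 0)) (A (y, 1)) < h) :
    D (α • A (y, 1) + A (v, 0)) (A (y, 1)) ≤
      D (α • A (y, 1) + A (v, 0)) (γ • A (y, 1) + A (w, 0)) := by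
  have hv : v ≠ 0 := by rintro rfl; simp [cr] at hvw
  have hR := hF.freg A
  have hind := triple_iff.1 (A_triple A y hvw)
  set X := A (y, 1) with hX
  set V := A (v, 0) with hV
  set W := A (w, 0) with hW
  have hX0 : X ≠ 0 := A_ne A y
  have hO : α • X + V ≠ 0 := by
    intro h0
    have := hind α 1 0 (by simpa using h0)
    exact one_ne_zero this.2.1
  have hQ : γ • X + W ≠ 0 := by
    intro h0
    have := hind γ 0 1 (by simpa using h0)
    exact one_ne_zero this.2.2
  obtain ⟨σ, hσ, hgrad⟩ := grad hP hF A hv l (α := α) (β := 1) one_ne_zero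
    (by rw [one_smul]; exact hlt)
  rw [one_smul] at hgrad
  by_contra hcon
  push Not at hcon
  set O := α • X + V with hOd
  set r := D O X with hr
  -- a far point
  have hfar : ∃ Q, Q ≠ 0 ∧ r < D O Q := by
    obtain ⟨s0, c, hc⟩ := l.exists_param (α := α) (β := 1) (by rw [one_smul]; exact hO)
    rw [one_smul] at hc
    refine ⟨g (s0 + h), (l.mem _).1, ?_⟩
    have e1 : D O (g (s0 + h)) = |s0 - (s0 + h)| :=
      l.dist_eq hP hO (l.mem _).1 hc (one_smul ℝ (g (s0 + h))).symm (by
        rw [sub_add_cancel_left, abs_neg, abs_of_pos l.hpos])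
    rw [e1, sub_add_cancel_left, abs_neg, abs_of_pos l.hpos]
    exact hlt
  obtain ⟨m, hm1, hm2⟩ := hP.circles O r hO hfar
  have hmX : m X ≠ 0 := hm1 X hX0 le_rfl
  have hmQ : m (γ • X + W) ≠ 0 := hm1 _ hQ hcon.le
  obtain ⟨ε0, hε0, hmpos⟩ : ∃ ε0 : ℝ, (ε0 = 1 ∨ ε0 = -1) ∧ 0 < m X * m (ε0 • (γ • X + W)) := by
    rcases lt_or_gt_of_ne (mul_ne_zero hmX hmQ) with h1 | h1
    · refine ⟨-1, Or.inr rfl, ?_⟩
      rw [map_smul, smul_eq_mul]; linarith
    · refine ⟨1, Or.inl rfl, ?_⟩
      rw [one_smul]; exact h1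
  have hε00 : ε0 ≠ 0 := by rcases hε0 with h1 | h1 <;> rw [h1] <;> norm_num
  have hσ0 : σ ≠ 0 := by rcases hσ with h1 | h1 <;> rw [h1] <;> norm_num
  have hσ2 : σ * σ = 1 := by rcases hσ with h1 | h1 <;> rw [h1] <;> norm_num
  have hDcont : ∀ Y, Y ≠ 0 → ContinuousAt (fun Z => D O Z) Y := by
    intro Y hY
    have h1 : ContinuousAt (fun q : E3 × E3 => D q.1 q.2) (O, Y) :=
      hP.cont.continuousAt ((isOpen_ne.preimage continuous_fst).inter
        (isOpen_ne.preimage continuous_snd) |>.mem_nhds ⟨hO, hY⟩)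
    have h2 : ContinuousAt (fun Z : E3 => ((O, Z) : E3 × E3)) Y :=
      (continuous_const.prodMk continuous_id).continuousAt
    exact ContinuousAt.comp (f := fun Z : E3 => ((O, Z) : E3 × E3))
      (g := fun q : E3 × E3 => D q.1 q.2) h1 h2
  set Y0 := ε0 • (γ • X + W) with hY0
  have hY0ne : Y0 ≠ 0 := smul_ne_zero hε00 hQ
  have hDY0 : D O Y0 < r := by
    rw [hY0, hP.smul_right _ _ hO hQ _ hε00]; exact hcon
  have htend : Tendsto (fun δ : ℝ => Y0 + (σ * δ) • V) (𝓝[>] 0) (𝓝 Y0) := by
    have h1 : Continuous (fun δ : ℝ => Y0 + (σ * δ) • V) := by fun_prop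
    have h2 := h1.tendsto 0
    rw [mul_zero, zero_smul, add_zero] at h2
    exact h2.mono_left nhdsWithin_le_nhds
  have hev1 : ∀ᶠ δ in 𝓝[>] (0:ℝ), D O (Y0 + (σ * δ) • V) < r :=
    htend.eventually ((hDcont Y0 hY0ne).eventually_lt_const hDY0)
  have hev2 : ∀ᶠ δ in 𝓝[>] (0:ℝ), 0 < m X * m (Y0 + (σ * δ) • V) := by
    have hmc : Continuous m := m.continuous_of_finiteDimensional
    have h1 : ContinuousAt (fun Z => m X * m Z) Y0 := (continuous_const.mul hmc).continuousAt
    exact htend.eventually (h1.eventually_const_lt hmpos)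
  obtain ⟨δ, ⟨hδ1, hδ2⟩, hδ⟩ := ((hev1.and hev2).and self_mem_nhdsWithin).exists
  have hδ : 0 < δ := hδ
  set Y := Y0 + (σ * δ) • V with hY
  have hYexp : Y = (ε0 * γ) • X + ε0 • W + (σ * δ) • V := by
    rw [hY, hY0, smul_add, smul_smul]
  have hYne : Y ≠ 0 := by
    intro h0
    rw [h0, map_zero, mul_zero] at hδ2
    exact lt_irrefl _ hδ2
  have hσδ : σ * δ ≠ 0 := mul_ne_zero hσ0 hδ.ne'
  set u : ℝ × ℝ := ε0 • w + (σ * δ) • v with hu
  set κ := ε0 * γ with hκ
  -- strict convexity
  have hin : ∀ t : ℝ, 0 < t → D O (X + t • Y) < r := by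
    intro t ht
    have hnp : ∀ c : ℝ, t • Y ≠ c • X := by
      intro c hc
      have h1 := hind (t * κ - c) (t * (σ * δ)) (t * ε0) (by
        have h2 : t • Y - c • X = 0 := by rw [hc, sub_self]
        rw [← h2, hYexp, smul_add, smul_add, smul_smul, smul_smul, smul_smul, sub_smul]
        abel)
      exact mul_ne_zero ht.ne' hσδ h1.2.1
    have hsne : X + t • Y ≠ 0 := by
      intro h0
      apply hnp (-1)
      rw [neg_one_smul]
      exact (neg_eq_of_add_eq_zero_right h0).symm
    have htY : t • Y ≠ 0 := smul_ne_zero ht.ne' hYne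
    have hDtY : D O (t • Y) ≤ r := by
      rw [hP.smul_right _ _ hO hYne _ ht.ne']; exact hδ1.le
    rcases lt_or_gt_of_ne hmX with h1 | h1
    · have h2 : m Y < 0 := by
        by_contra h3
        push Not at h3
        nlinarith
      have e1 : D O (-X) = r := by
        have := hP.smul_right O X hO hX0 (-1) (by norm_num)
        rw [neg_one_smul] at this; exact this
      have e2 : D O (-(t • Y)) ≤ r := by
        have := hP.smul_right O (t • Y) hO htY (-1) (by norm_num)
        rw [neg_one_smul] at this; rw [this]; exact hDtY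
      have e3 : D O (-(X + t • Y)) = D O (X + t • Y) := by
        have := hP.smul_right O (X + t • Y) hO hsne (-1) (by norm_num)
        rw [neg_one_smul] at this; exact this
      have := hm2 (-X) (-(t • Y)) (neg_ne_zero.2 hX0) (neg_ne_zero.2 htY)
        (by rw [← neg_add]; exact neg_ne_zero.2 hsne)
        (by rw [map_neg]; linarith)
        (by rw [map_neg, map_smul, smul_eq_mul]; nlinarith)
        (by
          intro c hc
          apply hnp c
          rw [smul_neg, neg_inj] at hc
          exact hc)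
        e1.le e2
      rw [← neg_add, e3] at this
      exact this
    · have h2 : 0 < m Y := by
        by_contra h3
        push Not at h3
        nlinarith
      exact hm2 X (t • Y) hX0 htY hsne h1 (by rw [map_smul, smul_eq_mul]; positivity) hnp le_rfl
        hDtY
  -- the chart curve
  set c : ℝ → ℝ × ℝ := fun t => y + (t / (1 + t * κ)) • u with hc
  have hc0 : c 0 = y := by simp [hc]
  have hcd : HasDerivAt c u 0 := by
    have h1 : HasDerivAt (fun t : ℝ => t / (1 + t * κ)) 1 0 := by
      have h2 : HasDerivAt (fun t : ℝ => 1 + t * κ) κ 0 := by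
        simpa using ((hasDerivAt_id (0:ℝ)).mul_const κ).const_add 1
      have h3 : HasDerivAt (fun t : ℝ => t / (1 + t * κ))
          ((1 * (1 + 0 * κ) - 0 * κ) / (1 + 0 * κ) ^ 2) 0 := (hasDerivAt_id (0:ℝ)).div h2 (by simp)
      simpa using h3
    have h4 := (h1.smul_const u).const_add y
    rw [one_smul] at h4
    exact h4
  have hgrad' : HasFDerivAt (fun y' => D O (A (y', 1))) (σ • pvL (FA F A) y v) (c 0) := by
    rw [hc0]; exact hgrad
  have hder := hgrad'.comp_hasDerivAt (0:ℝ) hcd
  have hval : (σ • pvL (FA F A) y v) u = δ * FA F A y v := by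
    change σ * pv (FA F A) y v u = _
    rw [hu, FReg.pv_add, FReg.pv_smul, FReg.pv_smul, hpv, hR.pv_self (mem_univ y) hv]
    linear_combination δ * FA F A y v * hσ2
  rw [hval] at hder
  have hFv := hR.pos y (mem_univ y) v hv
  have h3 := hder.tendsto_slope_zero_right
  have h4 : δ * FA F A y v ≤ 0 := by
    apply le_of_tendsto h3
    have hev : ∀ᶠ t in 𝓝[>] (0:ℝ), 0 < 1 + t * κ := by
      have h5 : Continuous (fun t : ℝ => 1 + t * κ) := by fun_prop
      exact nhdsWithin_le_nhds (h5.continuousAt.eventually_const_lt (by simp))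
    filter_upwards [hev, self_mem_nhdsWithin] with t ht1 ht0
    have ht0 : 0 < t := ht0
    simp only [zero_add, smul_eq_mul, Function.comp]
    apply mul_nonpos_of_nonneg_of_nonpos (inv_nonneg.2 ht0.le)
    rw [hc0]
    have e1 : X + t • Y = (1 + t * κ) • A (c t, 1) := by
      rw [hYexp, hX, hW, hV, ← map_smul, ← map_smul, ← map_smul, ← map_add, ← map_add, ← map_smul,
        ← map_add, ← map_smul]
      congr 1
      apply Prod.ext
      · simp only [hc, hu, Prod.fst_add, Prod.smul_fst, smul_add, smul_smul]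
        have e3 : (1 + t * κ) * (t / (1 + t * κ)) = t := by field_simp
        have e4 : (1 + t * κ) * (t / (1 + t * κ) * ε0) = t * ε0 := by rw [← mul_assoc, e3]
        have e5 : (1 + t * κ) * (t / (1 + t * κ) * (σ * δ)) = t * (σ * δ) := by
          rw [← mul_assoc, e3]
        rw [e4, e5, add_smul, one_smul]
        abel
      · simp only [Prod.snd_add, Prod.smul_snd, smul_eq_mul]
        ring
    have e2 : D O (X + t • Y) = D O (A (c t, 1)) := by
      rw [e1, hP.smul_right _ _ hO (A_ne A _) _ ht1.ne']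
    have := hin t ht0
    rw [e2] at this
    change D O (A (c t, 1)) - D O (A (y, 1)) ≤ 0
    change D O (A (c t, 1)) < D O (A (y, 1)) at this
    linarith
  have : 0 < δ * FA F A y v := by positivity
  linarith

/-- footpoints -/
theorem foot (hP : HPlane D) (hF : HFinsler F D) (A : Cht) {y v w : ℝ × ℝ}
    (hvw : cr v w ≠ 0) (hpv : pv (FA F A) y v w = 0) (α γ : ℝ) :
    D (α • A (y, 1) + A (v, 0)) (A (y, 1)) ≤
      D (α • A (y, 1) + A (v, 0)) (γ • A (y, 1) + A (w, 0)) := by
  have hv : v ≠ 0 := by rintro rfl; simp [cr] at hvw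
  obtain ⟨h, g, l⟩ := hP.exists_line (A_pair A y hv)
  by_cases hlt : D (α • A (y, 1) + A (v, 0)) (A (y, 1)) < h
  · exact foot_nonanti hP hF A hvw hpv l α γ hlt
  · have hind := triple_iff.1 (A_triple A y hvw)
    have hO : ∀ a : ℝ, a • A (y, 1) + A (v, 0) ≠ 0 := by
      intro a h0
      have := hind a 1 0 (by simpa using h0)
      exact one_ne_zero this.2.1
    have hQ : γ • A (y, 1) + A (w, 0) ≠ 0 := by
      intro h0
      have := hind γ 0 1 (by simpa using h0)
      exact one_ne_zero this.2.2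
    have e0 : ∀ a : ℝ, a • A (y, 1) + A (v, 0) = a • A (y, 1) + (1:ℝ) • A (v, 0) := by
      intro a; rw [one_smul]
    have e1 : A (y, 1) = (1:ℝ) • A (y, 1) + (0:ℝ) • A (v, 0) := by simp
    have hle : ∀ a : ℝ, D (a • A (y, 1) + A (v, 0)) (A (y, 1)) ≤ h := by
      intro a
      have := l.dist_le hP (α := a) (β := 1) (α' := 1) (β' := 0) (by rw [← e0]; exact hO a)
        (by rw [← e1]; exact A_ne A y)
      rwa [← e0, ← e1] at this
    have heq : D (α • A (y, 1) + A (v, 0)) (A (y, 1)) = h :=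
      le_antisymm (hle α) (not_lt.1 hlt)
    have hne : ∀ a : ℝ, a ≠ α → D (a • A (y, 1) + A (v, 0)) (A (y, 1)) < h := by
      intro a ha
      rcases (hle a).lt_or_eq with h1 | h1
      · exact h1
      · exfalso
        obtain ⟨c, hc⟩ := l.antipode hP (α := α) (β := 1) (α' := a) (β' := 1) (γ := 1) (δ := 0)
          (by rw [← e0]; exact hO α) (by rw [← e0]; exact hO a) (by rw [← e1]; exact A_ne A y)
          (by rw [← e0, ← e1]; exact heq) (by rw [← e0, ← e1]; exact h1)
        have h2 := hind (a - c * α) (1 - c) 0 (by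
          have h3 : a • A (y, 1) + (1:ℝ) • A (v, 0) - c • (α • A (y, 1) + (1:ℝ) • A (v, 0)) = 0 := by
            rw [hc, sub_self]
          rw [← h3, sub_smul, sub_smul, smul_add, smul_smul, smul_smul, mul_one]
          simp only [zero_smul]
          abel)
        have h4 : c = 1 := by linarith [h2.2.1]
        rw [h4, one_mul] at h2
        exact ha (by linarith [h2.1])
    have hcont : ∀ Z : E3, Z ≠ 0 → ContinuousAt (fun a : ℝ => D (a • A (y, 1) + A (v, 0)) Z) α := by
      intro Z hZ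
      have h1 : ContinuousAt (fun q : E3 × E3 => D q.1 q.2) (α • A (y, 1) + A (v, 0), Z) :=
        hP.cont.continuousAt ((isOpen_ne.preimage continuous_fst).inter
          (isOpen_ne.preimage continuous_snd) |>.mem_nhds ⟨hO α, hZ⟩)
      have h2 : Continuous (fun a : ℝ => ((a • A (y, 1) + A (v, 0), Z) : E3 × E3)) := by fun_prop
      exact ContinuousAt.comp (f := fun a : ℝ => ((a • A (y, 1) + A (v, 0), Z) : E3 × E3))
        (g := fun q : E3 × E3 => D q.1 q.2) h1 h2.continuousAt
    have t1 := (hcont _ (A_ne A y)).mono_left (nhdsWithin_le_nhds (s := {α}ᶜ))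
    have t2 := (hcont _ hQ).mono_left (nhdsWithin_le_nhds (s := {α}ᶜ))
    apply le_of_tendsto_of_tendsto t1 t2
    filter_upwards [self_mem_nhdsWithin] with a ha
    exact foot_nonanti hP hF A hvw hpv l a γ (hne a ha)

theorem ell_radonAt (hP : HPlane D) (hF : HFinsler F D) (A : Cht) (y : ℝ × ℝ) :
    RadonAt (FA F A) y := by
  intro v w hv hw hpv
  have hR := hF.freg A
  have hFv := hR.pos y (mem_univ y) v hv
  have hvw : cr v w ≠ 0 := by
    intro h0
    obtain ⟨c, rfl⟩ := eq_zero_of_cr hv h0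
    rw [FReg.pv_smul, hR.pv_self (mem_univ y) hv] at hpv
    rcases mul_eq_zero.1 hpv with h1 | h1
    · apply hw; rw [h1, zero_smul]
    · exact hFv.ne' h1
  have hperp := hP.perp _ _ _ (A_triple A y hvw) (foot hP hF A hvw hpv)
  obtain ⟨ρ, hρ, hL⟩ := exists_locGeo hP hF A y
  have hyW : y ∈ Metric.ball y ρ := Metric.mem_ball_self hρ
  obtain ⟨s, hsW, hs⟩ : ∃ s : ℝ, y + s • (-w) ∈ Metric.ball y ρ ∧ 0 < s := by
    have hc : Tendsto (fun s : ℝ => y + s • (-w)) (𝓝[>] 0) (𝓝 y) := by
      have h1 : Continuous (fun s : ℝ => y + s • (-w)) := by fun_prop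
      have h2 := h1.tendsto 0
      rw [zero_smul, add_zero] at h2
      exact h2.mono_left nhdsWithin_le_nhds
    obtain ⟨s, h1, h2⟩ := ((hc.eventually (Metric.ball_mem_nhds y hρ)).and
      self_mem_nhdsWithin).exists
    exact ⟨s, h1, h2⟩
  have hne : y ≠ y + s • (-w) := by
    intro h0
    have h3 : s • (-w) = 0 := by simpa using h0
    rcases smul_eq_zero.1 h3 with h4 | h4
    · exact hs.ne' h4
    · exact hw (neg_eq_zero.1 h4)
  have hgrad := hL.hasFDerivAt_d hsW hyW hne
  have e1 : y - (y + s • (-w)) = s • w := by rw [smul_neg]; abel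
  rw [e1] at hgrad
  have hind := triple_iff.1 (A_triple A y hvw)
  have hO : (-s⁻¹) • A (y, 1) + A (w, 0) ≠ 0 := by
    intro h0
    have := hind (-s⁻¹) 0 1 (by simpa using h0)
    exact one_ne_zero this.2.2
  have hOe : A (y + s • (-w), 1) = (-s) • ((-s⁻¹) • A (y, 1) + A (w, 0)) := by
    rw [smul_add, smul_smul, neg_mul_neg, mul_inv_cancel₀ hs.ne', A_comb]
    simp
  have hs' : -s ≠ 0 := neg_ne_zero.2 hs.ne'
  have hz := deriv_zero_of_min hgrad (v := v) (by
    apply Eventually.of_forall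
    intro t
    by_cases ht : t = 0
    · rw [ht, zero_smul, add_zero]
    · have hQ : t⁻¹ • A (y, 1) + A (v, 0) ≠ 0 := by
        intro h0
        have := hind t⁻¹ 1 0 (by simpa using h0)
        exact one_ne_zero this.2.1
      have hQe : A (y + t • v, 1) = t • (t⁻¹ • A (y, 1) + A (v, 0)) := by
        rw [smul_add, smul_smul, mul_inv_cancel₀ ht, A_comb]
        simp
      have := hperp (-s⁻¹) t⁻¹
      change D (A (y + s • (-w), 1)) (A (y, 1)) ≤ D (A (y + s • (-w), 1)) (A (y + t • v, 1))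
      rw [hOe, hQe, hP.smul_left hO (A_ne A y) hs',
        hP.smul_left hO (smul_ne_zero ht hQ) hs', hP.smul_right _ _ hO hQ t ht]
      exact this)
  rw [pvL_apply, hR.pv_pos_smul (mem_univ y) hw hs] at hz
  exact hz

lemma ell_rreg (hP : HPlane D) (hF : HFinsler F D) (A : Cht) : RReg univ (FA F A) where
  toFReg := hF.freg A
  radon := fun y _ => ell_radonAt hP hF A y
  hamel := by
    intro y _
    obtain ⟨ρ, hρ, hL⟩ := exists_locGeo hP hF A y
    exact hL.hamel (Metric.mem_ball_self hρ)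

theorem ell_euclAt (hP : HPlane D) (hF : HFinsler F D) (A : Cht) (y : ℝ × ℝ) :
    EuclAt (FA F A) y := by
  have hR := ell_rreg hP hF A
  rcases hR.rigidity convex_univ with hE | ⟨b, hb1, hb2⟩
  · exact hE y (mem_univ y)
  · exfalso
    have hb : ∀ v, b v = 0 := by
      intro v
      by_contra hne
      have h1 := hb1 0 (mem_univ _) (-(th (FA F A) 0 / b v) • v) (mem_univ _)
      rw [sub_zero, map_smul, smul_eq_mul] at h1
      have h2 : -(th (FA F A) 0 / b v) * b v = - th (FA F A) 0 := by field_simp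
      rw [h2, add_neg_cancel] at h1
      exact (RReg.th_pos (F := FA F A) _).ne' h1
    have hFc : ∀ x v, v ≠ 0 → FA F A x v = FA F A 0 v := by
      intro x v hv
      have hd : ∀ y ∈ (univ : Set (ℝ × ℝ)),
          HasFDerivAt (fun y => FA F A y v) (0 : ℝ × ℝ →L[ℝ] ℝ) y := by
        intro y hy
        have c1 : HasFDerivAt (fun y : ℝ × ℝ => ((y, v) : (ℝ × ℝ) × (ℝ × ℝ)))
            (ContinuousLinearMap.inl ℝ (ℝ × ℝ) (ℝ × ℝ)) y := hasFDerivAt_prodMk_left y v
        have c2 := (hR.hasF hy hv).comp y c1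
        refine c2.congr_fderiv ?_
        ext
        · have := hb2 y hy v hv (1, 0)
          rw [hb, hb, zero_mul, zero_mul, add_zero, neg_zero] at this
          rcases mul_eq_zero.1 this with h3 | h3
          · exact absurd h3 (RReg.th_pos y).ne'
          · simpa [px] using h3
        · have := hb2 y hy v hv (0, 1)
          rw [hb, hb, zero_mul, zero_mul, add_zero, neg_zero] at this
          rcases mul_eq_zero.1 this with h3 | h3
          · exact absurd h3 (RReg.th_pos y).ne'
          · simpa [px] using h3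
      exact isOpen_univ.is_const_of_fderiv_eq_zero (𝕜 := ℝ) convex_univ.isPreconnected
        (f := fun y => FA F A y v)
        (fun y hy => (hd y hy).differentiableAt.differentiableWithinAt)
        (fun y hy => (hd y hy).fderiv) (mem_univ x) (mem_univ 0)
    -- go to infinity
    set e1 : ℝ × ℝ := (1, 0) with he1
    set e2 : ℝ × ℝ := (0, 1) with he2
    have he2ne : e2 ≠ 0 := e2_ne
    have hpos := hR.pos 0 (mem_univ _) e2 he2ne
    have hXinf : A (e1, 0) ≠ 0 := by
      intro h0
      have h1 := A.map_eq_zero_iff.1 h0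
      have h2 : e1 = 0 := congrArg Prod.fst h1
      exact e1_ne h2
    have hkey : ∀ s : ℝ, 0 < s → F (A (e1, s)) (A (e2, 0)) = s⁻¹ * FA F A 0 e2 := by
      intro s hs
      have h1 : A (e1, s) = s • A (s⁻¹ • e1, 1) := by
        rw [← map_smul]; congr 1
        apply Prod.ext
        · simp only [Prod.smul_fst]; rw [smul_smul, mul_inv_cancel₀ hs.ne', one_smul]
        · simp
      have h2 : A (e2, 0) = s • A (s⁻¹ • e2, 0) + (0:ℝ) • A (s⁻¹ • e1, 1) := by
        rw [zero_smul, add_zero, ← map_smul]; congr 1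
        apply Prod.ext
        · simp only [Prod.smul_fst]; rw [smul_smul, mul_inv_cancel₀ hs.ne', one_smul]
        · simp
      rw [h1, h2, hF.inv _ _ (A_ne A _) s 0 hs.ne']
      change FA F A (s⁻¹ • e1) (s⁻¹ • e2) = _
      rw [hR.hom _ (mem_univ _), abs_of_pos (inv_pos.2 hs), hFc _ _ he2ne]
    have hcF : ContinuousAt (fun s : ℝ => F (A (e1, s)) (A (e2, 0))) 0 := by
      have h1 : ContinuousAt (fun q : E3 × E3 => F q.1 q.2) (A (e1, 0), A (e2, 0)) :=
        hF.cont.continuousAt ((isOpen_ne.preimage continuous_fst).mem_nhds hXinf)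
      have h2 : Continuous (fun s : ℝ => ((A (e1, s), A (e2, 0)) : E3 × E3)) :=
        (A.continuous.comp (continuous_const.prodMk continuous_id)).prodMk continuous_const
      exact ContinuousAt.comp (f := fun s : ℝ => ((A (e1, s), A (e2, 0)) : E3 × E3))
        (g := fun q : E3 × E3 => F q.1 q.2) h1 h2.continuousAt
    have ht1 : Tendsto (fun s : ℝ => F (A (e1, s)) (A (e2, 0))) (𝓝[>] 0)
        (𝓝 (F (A (e1, 0)) (A (e2, 0)))) := hcF.mono_left nhdsWithin_le_nhds
    have ht2 : Tendsto (fun s : ℝ => F (A (e1, s)) (A (e2, 0))) (𝓝[>] 0) atTop := by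
      have h1 : Tendsto (fun s : ℝ => s⁻¹ * FA F A 0 e2) (𝓝[>] 0) atTop :=
        tendsto_inv_nhdsGT_zero.atTop_mul_const hpos
      apply h1.congr'
      filter_upwards [self_mem_nhdsWithin] with s hs
      exact (hkey s hs).symm
    exact not_tendsto_atTop_of_tendsto_nhds ht1 ht2

/-- the elliptic part of the theorem -/
theorem ell_main (hP : HPlane D) (hF : HFinsler F D) {X : E3} (hX : X ≠ 0) :
    EuclideanNorm (F X) := by
  obtain ⟨A, hA⟩ := HFinsler.exists_chart hX
  obtain ⟨a, b, c, habc⟩ := ell_euclAt hP hF A 0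
  have hval : ∀ V, F X V ^ 2 = a * (A.symm V).1.1 ^ 2 + 2 * b * (A.symm V).1.1 * (A.symm V).1.2
      + c * (A.symm V).1.2 ^ 2 := by
    intro V
    rw [← habc]
    have h1 : V = (1:ℝ) • A ((A.symm V).1, 0) + (A.symm V).2 • X := by
      rw [← hA, A_comb]
      apply A.symm.injective
      rw [ContinuousLinearEquiv.symm_apply_apply]
      apply Prod.ext <;> simp
    have h2 : F X V = F ((1:ℝ) • X) ((1:ℝ) • A ((A.symm V).1, 0) + (A.symm V).2 • X) := by
      rw [← h1, one_smul]
    rw [h2, hF.inv _ _ hX 1 _ one_ne_zero, ← hA]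
    rfl
  refine ⟨LinearMap.mk₂ ℝ (fun V W : E3 => a * (A.symm V).1.1 * (A.symm W).1.1
    + b * ((A.symm V).1.1 * (A.symm W).1.2 + (A.symm V).1.2 * (A.symm W).1.1)
    + c * (A.symm V).1.2 * (A.symm W).1.2) ?_ ?_ ?_ ?_, ?_⟩
  · intro u v w; simp only [map_add, Prod.fst_add, Prod.snd_add]; ring
  · intro c v w; simp only [map_smul, Prod.smul_fst, Prod.smul_snd, smul_eq_mul]; ring
  · intro u v w; simp only [map_add, Prod.fst_add, Prod.snd_add]; ring
  · intro c v w; simp only [map_smul, Prod.smul_fst, Prod.smul_snd, smul_eq_mul]; ring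
  · intro V
    rw [LinearMap.mk₂_apply, hval V]; ring

end Pool.Agent.H81
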