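import Pool.Agent.H81.Nodal

open Set Filter Topology Real

namespace Pool.Agent.H81

/-- Uncurried version. -/
def Fu (F : ℝ × ℝ → ℝ × ℝ → ℝ) : (ℝ × ℝ) × (ℝ × ℝ) → ℝ := fun q => F q.1 q.2

/-- first derivative -/
noncomputable def dF (F : ℝ × ℝ → ℝ × ℝ → ℝ) (q : (ℝ × ℝ) × (ℝ × ℝ)) :
    ((ℝ × ℝ) × (ℝ × ℝ)) →L[ℝ] ℝ := fderiv ℝ (Fu F) q

/-- second derivative -/
noncomputable def ddF (F : ℝ × ℝ → ℝ × ℝ → ℝ) (q : (ℝ × ℝ) × (ℝ × ℝ)) :
    ((ℝ × ℝ) × (ℝ × ℝ)) →L[ℝ] ((ℝ × ℝ) × (ℝ × ℝ)) →L[ℝ] ℝ := fderiv ℝ (dF F) q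

/-- derivative in the base point -/
noncomputable def px (F : ℝ × ℝ → ℝ × ℝ → ℝ) (x v y : ℝ × ℝ) : ℝ := dF F (x, v) (y, 0)

/-- derivative in the direction -/
noncomputable def pv (F : ℝ × ℝ → ℝ × ℝ → ℝ) (x v w : ℝ × ℝ) : ℝ := dF F (x, v) (0, w)

/-- basic regularity package for a reversible `C^2` Finsler function -/
structure FReg (M : Set (ℝ × ℝ)) (F : ℝ × ℝ → ℝ × ℝ → ℝ) : Prop where
  isOpen : IsOpen M
  smooth : ContDiffOn ℝ 2 (Fu F) (M ×ˢ {v | v ≠ 0})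
  pos : ∀ x ∈ M, ∀ v, v ≠ 0 → 0 < F x v
  hom : ∀ x ∈ M, ∀ (t : ℝ) v, F x (t • v) = |t| * F x v

namespace FReg

variable {M : Set (ℝ × ℝ)} {F : ℝ × ℝ → ℝ × ℝ → ℝ}

lemma isOpenΩ (h : FReg M F) : IsOpen (M ×ˢ {v : ℝ × ℝ | v ≠ 0}) :=
  h.isOpen.prod isOpen_ne

lemma cda (h : FReg M F) {x v : ℝ × ℝ} (hx : x ∈ M) (hv : v ≠ 0) :
    ContDiffAt ℝ 2 (Fu F) (x, v) :=
  h.smooth.contDiffAt (h.isOpenΩ.mem_nhds ⟨hx, hv⟩)

lemma hasF (h : FReg M F) {x v : ℝ × ℝ} (hx : x ∈ M) (hv : v ≠ 0) :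
    HasFDerivAt (Fu F) (dF F (x, v)) (x, v) :=
  ((h.cda hx hv).differentiableAt (by norm_num)).hasFDerivAt

lemma cda1 (h : FReg M F) {x v : ℝ × ℝ} (hx : x ∈ M) (hv : v ≠ 0) :
    ContDiffAt ℝ 1 (dF F) (x, v) :=
  (h.cda hx hv).fderiv_right (by norm_num)

lemma hasdF (h : FReg M F) {x v : ℝ × ℝ} (hx : x ∈ M) (hv : v ≠ 0) :
    HasFDerivAt (dF F) (ddF F (x, v)) (x, v) :=
  ((h.cda1 hx hv).differentiableAt (by norm_num)).hasFDerivAt

lemma cddF (h : FReg M F) {x v : ℝ × ℝ} (hx : x ∈ M) (hv : v ≠ 0) :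
    ContinuousAt (ddF F) (x, v) := by
  have : ContDiffAt ℝ 0 (ddF F) (x, v) := (h.cda1 hx hv).fderiv_right (by norm_num)
  exact this.continuousAt

lemma cdF (h : FReg M F) {x v : ℝ × ℝ} (hx : x ∈ M) (hv : v ≠ 0) :
    ContinuousAt (dF F) (x, v) := (h.cda1 hx hv).continuousAt

lemma symm (h : FReg M F) {x v : ℝ × ℝ} (hx : x ∈ M) (hv : v ≠ 0)
    (a b : (ℝ × ℝ) × (ℝ × ℝ)) : ddF F (x, v) a b = ddF F (x, v) b a := by
  apply second_derivative_symmetric_of_eventually (𝕜 := ℝ) (f := Fu F) (f' := dF F) (x := (x, v))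
  · filter_upwards [h.isOpenΩ.mem_nhds (⟨hx, hv⟩ : (x, v) ∈ M ×ˢ {v : ℝ × ℝ | v ≠ 0})]
      with q hq using h.hasF hq.1 hq.2
  · exact h.hasdF hx hv

/-- derivative of `F` along a curve in the direction variable -/
lemma hasDerivAt_F_curve (h : FReg M F) {x : ℝ × ℝ} (hx : x ∈ M) {c : ℝ → ℝ × ℝ} {c' : ℝ × ℝ}
    {t : ℝ} (hc : HasDerivAt c c' t) (hne : c t ≠ 0) :
    HasDerivAt (fun s => F x (c s)) (pv F x (c t) c') t := by
  have h1 : HasDerivAt (fun s => ((x, c s) : (ℝ × ℝ) × (ℝ × ℝ))) (0, c') t :=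
    (hasDerivAt_const t x).prodMk hc
  exact (h.hasF hx hne).comp_hasDerivAt t h1

/-- derivative of `F` along a curve in both variables -/
lemma hasDerivAt_F_curve2 (h : FReg M F) {x : ℝ → ℝ × ℝ} {x' : ℝ × ℝ} {c : ℝ → ℝ × ℝ}
    {c' : ℝ × ℝ} {t : ℝ} (hx : x t ∈ M)
    (hxd : HasDerivAt x x' t) (hc : HasDerivAt c c' t) (hne : c t ≠ 0) :
    HasDerivAt (fun s => F (x s) (c s)) (px F (x t) (c t) x' + pv F (x t) (c t) c') t := by
  have h1 : HasDerivAt (fun s => ((x s, c s) : (ℝ × ℝ) × (ℝ × ℝ))) (x', c') t := hxd.prodMk hc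
  have h2 := (h.hasF hx hne).comp_hasDerivAt t h1
  refine h2.congr_deriv ?_
  rw [px, pv, ← map_add]
  simp

lemma pv_add (x v a b : ℝ × ℝ) : pv F x v (a + b) = pv F x v a + pv F x v b := by
  rw [pv, pv, pv, ← map_add]; simp

lemma pv_smul (x v a : ℝ × ℝ) (c : ℝ) : pv F x v (c • a) = c * pv F x v a := by
  rw [pv, pv, ← smul_eq_mul, ← map_smul]; simp

lemma px_add (x v a b : ℝ × ℝ) : px F x v (a + b) = px F x v a + px F x v b := by
  rw [px, px, px, ← map_add]; simp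

lemma px_smul (x v a : ℝ × ℝ) (c : ℝ) : px F x v (c • a) = c * px F x v a := by
  rw [px, px, ← smul_eq_mul, ← map_smul]; simp

lemma pv_neg (x v a : ℝ × ℝ) : pv F x v (-a) = - pv F x v a := by
  rw [pv, pv, ← map_neg]; simp

lemma px_neg (x v a : ℝ × ℝ) : px F x v (-a) = - px F x v a := by
  rw [px, px, ← map_neg]; simp

lemma pv_zero (x v : ℝ × ℝ) : pv F x v 0 = 0 := by
  rw [pv]; exact map_zero _

lemma px_zero (x v : ℝ × ℝ) : px F x v 0 = 0 := by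
  rw [px]; exact map_zero _

lemma pv_e (x v w : ℝ × ℝ) : pv F x v w = w.1 * pv F x v (1, 0) + w.2 * pv F x v (0, 1) := by
  rw [← pv_smul, ← pv_smul, ← pv_add]; simp

lemma px_e (x v w : ℝ × ℝ) : px F x v w = w.1 * px F x v (1, 0) + w.2 * px F x v (0, 1) := by
  rw [← px_smul, ← px_smul, ← px_add]; simp

/-- Euler -/
lemma pv_self (h : FReg M F) {x v : ℝ × ℝ} (hx : x ∈ M) (hv : v ≠ 0) :
    pv F x v v = F x v := by
  have h1 : HasDerivAt (fun s : ℝ => s • v) v 1 := by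
    simpa using (hasDerivAt_id (1:ℝ)).smul_const v
  have h2 := h.hasDerivAt_F_curve hx h1 (by simpa using hv)
  have h3 : HasDerivAt (fun s : ℝ => s * F x v) (F x v) 1 := by
    simpa using (hasDerivAt_id (1:ℝ)).mul_const (F x v)
  have h4 : (fun s : ℝ => F x (s • v)) =ᶠ[𝓝 1] fun s => s * F x v := by
    filter_upwards [lt_mem_nhds (show (0:ℝ) < 1 by norm_num)] with s hs
    rw [h.hom x hx, abs_of_pos hs]
  have h5 := h3.congr_of_eventuallyEq h4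
  have := h2.unique h5
  simpa using this

lemma pv_smul_dir (h : FReg M F) {x v : ℝ × ℝ} (hx : x ∈ M) (hv : v ≠ 0) {t : ℝ} (ht : t ≠ 0)
    (w : ℝ × ℝ) : t * pv F x (t • v) w = |t| * pv F x v w := by
  have htv : t • v ≠ 0 := smul_ne_zero ht hv
  have h1 : HasDerivAt (fun s : ℝ => v + s • w) w 0 := by
    simpa using ((hasDerivAt_id (0:ℝ)).smul_const w).const_add v
  have h2 := h.hasDerivAt_F_curve hx (h1.const_smul t) (by simpa using ⟨ht, hv⟩)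
  have h3 := (h.hasDerivAt_F_curve hx h1 (by simpa using hv)).const_mul |t|
  have h4 : (fun s : ℝ => F x (t • (v + s • w))) = fun s => |t| * F x (v + s • w) := by
    funext s; rw [h.hom x hx]
  have h2' : HasDerivAt (fun s : ℝ => F x (t • (v + s • w))) (pv F x (t • (v + (0:ℝ) • w)) (t • w)) 0 := h2
  rw [h4] at h2'
  have := h2'.unique h3
  simpa [pv_smul] using this

lemma pv_pos_smul (h : FReg M F) {x v : ℝ × ℝ} (hx : x ∈ M) (hv : v ≠ 0) {t : ℝ} (ht : 0 < t)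
    (w : ℝ × ℝ) : pv F x (t • v) w = pv F x v w := by
  have := h.pv_smul_dir hx hv ht.ne' w
  rw [abs_of_pos ht] at this
  exact mul_left_cancel₀ ht.ne' this

lemma pv_neg_dir (h : FReg M F) {x v : ℝ × ℝ} (hx : x ∈ M) (hv : v ≠ 0)
    (w : ℝ × ℝ) : pv F x (-v) w = - pv F x v w := by
  have := h.pv_smul_dir hx hv (t := -1) (by norm_num) w
  simp at this
  linarith

lemma px_smul_dir (h : FReg M F) {x v : ℝ × ℝ} (hx : x ∈ M) (hv : v ≠ 0) {t : ℝ} (ht : t ≠ 0)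
    (y : ℝ × ℝ) : px F x (t • v) y = |t| * px F x v y := by
  have htv : t • v ≠ 0 := smul_ne_zero ht hv
  have h1 : HasDerivAt (fun s : ℝ => x + s • y) y 0 := by
    simpa using ((hasDerivAt_id (0:ℝ)).smul_const y).const_add x
  have h2 := h.hasDerivAt_F_curve2 (t := 0) (x := fun s => x + s • y) (by simpa using hx) h1
    (hasDerivAt_const (0:ℝ) (t • v)) htv
  have h3 := (h.hasDerivAt_F_curve2 (t := 0) (x := fun s => x + s • y) (by simpa using hx) h1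
    (hasDerivAt_const (0:ℝ) v) hv).const_mul |t|
  have hmem : ∀ᶠ s in 𝓝 (0:ℝ), x + s • y ∈ M := by
    have hc : ContinuousAt (fun s : ℝ => x + s • y) 0 := h1.continuousAt
    apply hc.eventually_mem
    simpa using h.isOpen.mem_nhds hx
  have h4 : (fun s : ℝ => F (x + s • y) (t • v)) =ᶠ[𝓝 0] fun s => |t| * F (x + s • y) v := by
    filter_upwards [hmem] with s hs
    rw [h.hom _ hs]
  have h5 := h3.congr_of_eventuallyEq h4
  have := h2.unique h5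
  simpa [pv_zero] using this

lemma px_neg_dir (h : FReg M F) {x v : ℝ × ℝ} (hx : x ∈ M) (hv : v ≠ 0)
    (y : ℝ × ℝ) : px F x (-v) y = px F x v y := by
  have := h.px_smul_dir hx hv (t := -1) (by norm_num) y
  simpa using this

/-- derivative of `dF` along curves -/
lemma hasDerivAt_dF_curve (h : FReg M F) {x : ℝ → ℝ × ℝ} {x' : ℝ × ℝ} {c : ℝ → ℝ × ℝ}
    {c' : ℝ × ℝ} {b : ℝ → (ℝ × ℝ) × (ℝ × ℝ)} {b' : (ℝ × ℝ) × (ℝ × ℝ)} {t : ℝ} (hx : x t ∈ M)
    (hxd : HasDerivAt x x' t) (hc : HasDerivAt c c' t) (hne : c t ≠ 0) (hb : HasDerivAt b b' t) :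
    HasDerivAt (fun s => dF F (x s, c s) (b s))
      (ddF F (x t, c t) (x', c') (b t) + dF F (x t, c t) b') t := by
  have h1 : HasDerivAt (fun s => ((x s, c s) : (ℝ × ℝ) × (ℝ × ℝ))) (x', c') t := hxd.prodMk hc
  have h2 : HasDerivAt (fun s => dF F (x s, c s)) (ddF F (x t, c t) (x', c')) t :=
    (h.hasdF hx hne).comp_hasDerivAt t h1
  exact h2.clm_apply hb

lemma ddF_add_left (q a b c : (ℝ × ℝ) × (ℝ × ℝ)) :
    ddF F q (a + b) c = ddF F q a c + ddF F q b c := by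
  rw [map_add]; rfl

/-- `∇²_v F(v, ·) = 0` -/
lemma ddF_v_self (h : FReg M F) {x v : ℝ × ℝ} (hx : x ∈ M) (hv : v ≠ 0) (w : ℝ × ℝ) :
    ddF F (x, v) (0, w) (0, v) = 0 := by
  -- differentiate s ↦ pv x (v + s w) (v + s w) = F x (v + s w)
  have h1 : HasDerivAt (fun s : ℝ => v + s • w) w 0 := by
    simpa using ((hasDerivAt_id (0:ℝ)).smul_const w).const_add v
  have hb : HasDerivAt (fun s : ℝ => (((0 : ℝ × ℝ), v + s • w) : (ℝ × ℝ) × (ℝ × ℝ))) (0, w) 0 :=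
    (hasDerivAt_const (0:ℝ) (0 : ℝ × ℝ)).prodMk h1
  have h2 := h.hasDerivAt_dF_curve (t := 0) (x := fun _ => x) hx (hasDerivAt_const (0:ℝ) x) h1
    (by simpa using hv) hb
  have h3 := h.hasDerivAt_F_curve hx h1 (by simpa using hv)
  have hne : ∀ᶠ s in 𝓝 (0:ℝ), v + s • w ≠ 0 := by
    apply h1.continuousAt.eventually_ne; simpa using hv
  have h4 : (fun s : ℝ => dF F (x, v + s • w) (0, v + s • w)) =ᶠ[𝓝 0] fun s => F x (v + s • w) := by
    filter_upwards [hne] with s hs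
    exact h.pv_self hx hs
  have h5 := h3.congr_of_eventuallyEq h4
  have h6 := h2.unique h5
  simp only [zero_smul, add_zero, pv] at h6
  linarith

/-- `∂_x (F_v v) = F_x` -/
lemma ddF_x_self (h : FReg M F) {x v : ℝ × ℝ} (hx : x ∈ M) (hv : v ≠ 0) (y : ℝ × ℝ) :
    ddF F (x, v) (y, 0) (0, v) = px F x v y := by
  have h1 : HasDerivAt (fun s : ℝ => x + s • y) y 0 := by
    simpa using ((hasDerivAt_id (0:ℝ)).smul_const y).const_add x
  have h2 := h.hasDerivAt_dF_curve (t := 0) (x := fun s => x + s • y) (by simpa using hx) h1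
    (hasDerivAt_const (0:ℝ) v) hv (hasDerivAt_const (0:ℝ) (((0 : ℝ × ℝ), v) : (ℝ × ℝ) × (ℝ × ℝ)))
  have h3 := h.hasDerivAt_F_curve2 (t := 0) (x := fun s => x + s • y) (by simpa using hx) h1
    (hasDerivAt_const (0:ℝ) v) hv
  have hmem : ∀ᶠ s in 𝓝 (0:ℝ), x + s • y ∈ M := by
    apply h1.continuousAt.eventually_mem
    simpa using h.isOpen.mem_nhds hx
  have h4 : (fun s : ℝ => dF F (x + s • y, v) (0, v)) =ᶠ[𝓝 0] fun s => F (x + s • y) v := by
    filter_upwards [hmem] with s hs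
    exact h.pv_self hs hv
  have h5 := h3.congr_of_eventuallyEq h4
  have h6 := h2.unique h5
  simp only [zero_smul, add_zero, pv_zero, map_zero] at h6
  exact h6

end FReg

end Pool.Agent.H81
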