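import Pool.Agent.H40.Box

set_option autoImplicit false

/-!
Splitting lemmas for families of pairwise disjoint boxes in which every line meets at least two
members.
-/

namespace Pool.Agent.H81.BoxSplit

open Finset Pool.Agent.H40.Box

variable {ι α : Type*} [DecidableEq ι] [DecidableEq α]

/-- On every line there are two members with disjoint sides in the direction of the line. -/
lemma two_on_line {d : ℕ} {F : Finset ι} {S : ι → Fin d → Finset α}
    (h : Good 2 d F S) (i : Fin d) (x : Fin d → α) :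
    ∃ P ∈ F, ∃ Q ∈ F, P ≠ Q ∧ Disjoint (S P i) (S Q i) ∧
      (∀ l, l ≠ i → x l ∈ S P l) ∧ (∀ l, l ≠ i → x l ∈ S Q l) := by
  obtain ⟨G, hGF, hG, hGl⟩ := h.2.2 i x
  obtain ⟨P, hP, Q, hQ, hne⟩ := Finset.one_lt_card.1 (by omega : 1 < G.card)
  obtain ⟨s, hs⟩ := hGl P hP
  obtain ⟨t, ht⟩ := hGl Q hQ
  have h1 : ∀ l, l ≠ i → x l ∈ S P l := fun l hl => by
    have := hs l
    rwa [Function.update_of_ne hl] at this
  have h2 : ∀ l, l ≠ i → x l ∈ S Q l := fun l hl => by
    have := ht l
    rwa [Function.update_of_ne hl] at this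
  refine ⟨P, hGF hP, Q, hGF hQ, hne, ?_, h1, h2⟩
  rw [Finset.disjoint_left]
  intro u hu hu'
  refine h.2.1 P (hGF hP) Q (hGF hQ) hne (Function.update x i u) ⟨fun l => ?_, fun l => ?_⟩
  · by_cases hl : l = i
    · subst hl; simpa using hu
    · rw [Function.update_of_ne hl]; exact h1 l hl
  · by_cases hl : l = i
    · subst hl; simpa using hu'
    · rw [Function.update_of_ne hl]; exact h2 l hl

/-- The sides are automatically proper. -/
lemma proper {d : ℕ} {F : Finset ι} {S : ι → Fin d → Finset α}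
    (h : Good 2 d F S) {j : ι} (hj : j ∈ F) (i : Fin d) : ∃ a, a ∉ S j i := by
  by_contra hcon
  push Not at hcon
  have hne := h.1 j hj
  choose x hx using hne
  obtain ⟨P, hP, Q, hQ, hPQ, hd, h1, h2⟩ := two_on_line h i x
  have key : ∀ R ∈ F, (∀ l, l ≠ i → x l ∈ S R l) → R = j := by
    intro R hR h3
    by_contra hRj
    obtain ⟨u, hu⟩ := h.1 R hR i
    refine h.2.1 R hR j hj hRj (Function.update x i u) ⟨fun l => ?_, fun l => ?_⟩
    · by_cases hl : l = i
      · subst hl; simpa using hu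
      · rw [Function.update_of_ne hl]; exact h3 l hl
    · by_cases hl : l = i
      · subst hl; simpa using hcon u
      · rw [Function.update_of_ne hl]; exact hx l
  exact hPQ ((key P hP h1).trans (key Q hQ h2).symm)

/-- The members avoiding `a` in direction `i` still cover every point of the projection. -/
lemma cover {d : ℕ} {F : Finset ι} {S : ι → Fin d → Finset α}
    (h : Good 2 d F S) (i : Fin d) (a : α) (x : Fin d → α) :
    ∃ R ∈ F, a ∉ S R i ∧ ∀ l, l ≠ i → x l ∈ S R l := by
  obtain ⟨P, hP, Q, hQ, hPQ, hd, h1, h2⟩ := two_on_line h i x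
  by_cases ha : a ∈ S P i
  · exact ⟨Q, hQ, fun h' => (Finset.disjoint_left.1 hd) ha h', h2⟩
  · exact ⟨P, hP, ha, h1⟩

/-- Key lemma: in every direction some value is avoided by two members whose sides in this
direction meet. -/
lemma two_avoiders [Nonempty α] {d : ℕ} {F : Finset ι} {S : ι → Fin d → Finset α}
    (h : Good 2 d F S) (hd : 2 ≤ d) (i : Fin d) :
    ∃ a, ∃ P ∈ F, ∃ Q ∈ F, P ≠ Q ∧ a ∉ S P i ∧ a ∉ S Q i ∧ ¬ Disjoint (S P i) (S Q i) := by
  by_contra hcon
  push Not at hcon
  obtain ⟨c⟩ := ‹Nonempty α›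
  obtain ⟨P, hP, Q, hQ, hPQ, hdis, h1, h2⟩ := two_on_line h i (fun _ => c)
  obtain ⟨b, hb⟩ := h.1 P hP i
  obtain ⟨l, hl⟩ : ∃ l : Fin d, l ≠ i := by
    by_contra hc
    push Not at hc
    have h01 : (⟨0, by omega⟩ : Fin d) = ⟨1, by omega⟩ := (hc _).trans (hc _).symm
    simp [Fin.ext_iff] at h01
  -- a member different from `P` containing `b`
  obtain ⟨R, hR, hRP, hRb⟩ : ∃ R ∈ F, R ≠ P ∧ b ∈ S R i := by
    obtain ⟨A, hA, B, hB, hAB, -, h3, h4⟩ := two_on_line h l (fun _ => b)
    by_cases hAP : A = P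
    · exact ⟨B, hB, fun hBP => hAB (hAP.trans hBP.symm), h4 i hl.symm⟩
    · exact ⟨A, hA, hAP, h3 i hl.symm⟩
  have hRQ : R ≠ Q := by
    rintro rfl
    exact (Finset.disjoint_left.1 hdis) hb hRb
  -- `R` contains the complement of `P`
  have e1 : ∀ a, a ∉ S P i → a ∈ S R i := by
    intro a ha
    by_contra ha'
    exact (Finset.disjoint_left.1 (hcon a P hP R hR hRP.symm ha ha')) hb hRb
  obtain ⟨q, hq⟩ := h.1 Q hQ i
  have hqR : q ∈ S R i := e1 q (fun h' => (Finset.disjoint_left.1 hdis) h' hq)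
  have e2 : ∀ a, a ∉ S Q i → a ∈ S R i := by
    intro a ha
    by_contra ha'
    exact (Finset.disjoint_left.1 (hcon a Q hQ R hR hRQ.symm ha ha')) hq hqR
  obtain ⟨a, ha⟩ := proper h hR i
  by_cases hPa : a ∈ S P i
  · exact ha (e2 a (fun h' => (Finset.disjoint_left.1 hdis) hPa h'))
  · exact ha (e1 a hPa)

/-- Every value is avoided by at least `d` members in every direction. -/
lemma avoid_card [Nonempty α] : ∀ {d : ℕ} {F : Finset ι} {S : ι → Fin d → Finset α},
    Good 2 d F S → ∀ (i : Fin d) (a : α), d ≤ (F.filter (fun j => a ∉ S j i)).card := by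
  intro d
  induction d with
  | zero => intro F S h i; exact i.elim0
  | succ d ih =>
    intro F S h i a
    obtain ⟨c⟩ := ‹Nonempty α›
    obtain ⟨R, hR, hRa, -⟩ := cover h i a (fun _ => c)
    rcases Nat.eq_zero_or_pos d with rfl | hd
    · have : 0 < (F.filter (fun j => a ∉ S j i)).card :=
        Finset.card_pos.2 ⟨R, Finset.mem_filter.2 ⟨hR, hRa⟩⟩
      omega
    · obtain ⟨l, hl⟩ : ∃ l : Fin (d + 1), l ≠ i := by
        by_contra hc
        push Not at hc
        have h01 : (⟨0, by omega⟩ : Fin (d + 1)) = ⟨1, by omega⟩ := (hc _).trans (hc _).symm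
        simp [Fin.ext_iff] at h01
      obtain ⟨x, hx⟩ := proper h hR l
      obtain ⟨i', rfl⟩ := Fin.exists_succAbove_eq hl.symm
      have h1 := ih (h.slice l x) i' a
      refine lt_of_le_of_lt h1 (Finset.card_lt_card ?_)
      rw [Finset.ssubset_iff_of_subset]
      · exact ⟨R, Finset.mem_filter.2 ⟨hR, hRa⟩, fun h' =>
          hx (Finset.mem_filter.1 (Finset.mem_filter.1 h').1).2⟩
      · intro j hj
        rw [Finset.mem_filter, Finset.mem_filter] at hj
        exact Finset.mem_filter.2 ⟨hj.1.1, hj.2⟩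

/-- In every direction some value is avoided by at least `d + 1` members (`d ≥ 3`). -/
lemma avoid_card_good [Nonempty α] {d : ℕ} {F : Finset ι} {S : ι → Fin (d + 1) → Finset α}
    (h : Good 2 (d + 1) F S) (hd : 2 ≤ d) (i : Fin (d + 1)) :
    ∃ a, d + 2 ≤ (F.filter (fun j => a ∉ S j i)).card := by
  obtain ⟨a, P, hP, Q, hQ, hPQ, hPa, hQa, hnd⟩ := two_avoiders h (by omega) i
  refine ⟨a, ?_⟩
  obtain ⟨l, hl⟩ := h.sep hP hQ hPQ
  have hli : l ≠ i := by
    rintro rfl
    exact hnd hl
  obtain ⟨i', rfl⟩ := Fin.exists_succAbove_eq hli.symm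
  set A := F.filter (fun j => a ∉ S j (l.succAbove i')) with hA
  have hPA : P ∈ A := Finset.mem_filter.2 ⟨hP, hPa⟩
  have hQA : Q ∈ A := Finset.mem_filter.2 ⟨hQ, hQa⟩
  -- a third member
  have hcard : 2 < A.card := by
    have := avoid_card h (l.succAbove i') a
    rw [← hA] at this
    omega
  obtain ⟨R, hRA, hRP, hRQ⟩ : ∃ R ∈ A, R ≠ P ∧ R ≠ Q := by
    by_contra hc
    push Not at hc
    have hsub : A ⊆ {P, Q} := by
      intro j hj
      rw [Finset.mem_insert, Finset.mem_singleton]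
      by_cases hjP : j = P
      · exact Or.inl hjP
      · exact Or.inr (hc j hj hjP)
    have := Finset.card_le_card hsub
    rw [Finset.card_pair hPQ] at this
    omega
  obtain ⟨x, hx⟩ := proper h (Finset.mem_filter.1 hRA).1 l
  have h1 := avoid_card (h.slice l x) i' a
  set B := (F.filter (fun j => x ∈ S j l)).filter (fun j => a ∉ S j (l.succAbove i')) with hB
  have hBA : B ⊆ A := by
    intro j hj
    rw [hB, Finset.mem_filter, Finset.mem_filter] at hj
    exact Finset.mem_filter.2 ⟨hj.1.1, hj.2⟩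
  have hRB : R ∉ B := fun h' => hx (Finset.mem_filter.1 (Finset.mem_filter.1 h').1).2
  obtain ⟨W, hWA, hWB, hWR⟩ : ∃ W ∈ A, W ∉ B ∧ W ≠ R := by
    by_cases hxP : x ∈ S P l
    · refine ⟨Q, hQA, fun h' => ?_, hRQ.symm⟩
      exact (Finset.disjoint_left.1 hl) hxP (Finset.mem_filter.1 (Finset.mem_filter.1 h').1).2
    · exact ⟨P, hPA, fun h' => hxP (Finset.mem_filter.1 (Finset.mem_filter.1 h').1).2, hRP.symm⟩
  have hins : insert R (insert W B) ⊆ A := by
    intro j hj
    rw [Finset.mem_insert, Finset.mem_insert] at hj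
    rcases hj with rfl | rfl | hj
    · exact hRA
    · exact hWA
    · exact hBA hj
  have hc2 := Finset.card_le_card hins
  rw [Finset.card_insert_of_notMem, Finset.card_insert_of_notMem hWB] at hc2
  · omega
  · rw [Finset.mem_insert]
    rintro (h' | h')
    · exact hWR h'.symm
    · exact hRB h'

lemma split_card {d : ℕ} {F : Finset ι} {S : ι → Fin d → Finset α} (i : Fin d) (a : α) :
    F.card = (F.filter (fun j => a ∈ S j i)).card + (F.filter (fun j => a ∉ S j i)).card :=
  (Finset.card_filter_add_card_filter_not _).symm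

/-- Quadratic lower bound in every dimension. -/
lemma quadratic [Nonempty α] : ∀ {d : ℕ} {F : Finset ι} {S : ι → Fin (d + 2) → Finset α},
    Good 2 (d + 2) F S → (d + 2) ^ 2 + 3 * (d + 2) ≤ 2 * F.card + 2 := by
  intro d
  induction d with
  | zero =>
    intro F S h
    obtain ⟨c⟩ := ‹Nonempty α›
    have h1 := avoid_card h 0 c
    have h2 : 2 ≤ (F.filter (fun j => c ∈ S j 0)).card := by
      have h3 := (h.slice 0 c).2.2 0 (fun _ => c)
      obtain ⟨G, hG, hk, -⟩ := h3
      exact hk.trans (Finset.card_le_card hG)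
    have := split_card (F := F) (S := S) 0 c
    norm_num
    omega
  | succ d ih =>
    intro F S h
    obtain ⟨a, ha⟩ := avoid_card_good h (by omega) 0
    have h1 := ih (h.slice 0 a)
    have := split_card (F := F) (S := S) 0 a
    nlinarith

/-- Dimension two: every value splits the family two against two. -/
lemma split2 [Nonempty α] {F : Finset ι} {S : ι → Fin 2 → Finset α}
    (h : Good 2 2 F S) (i : Fin 2) (a : α) :
    2 ≤ (F.filter (fun j => a ∈ S j i)).card ∧ 2 ≤ (F.filter (fun j => a ∉ S j i)).card := by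
  refine ⟨?_, avoid_card h i a⟩
  obtain ⟨c⟩ := ‹Nonempty α›
  obtain ⟨G, hG, hk, -⟩ := (h.slice i a).2.2 0 (fun _ => c)
  exact hk.trans (Finset.card_le_card hG)

/-- Dimension three: in every direction some value splits the family four against four. -/
lemma split3 [Nonempty α] {F : Finset ι} {S : ι → Fin 3 → Finset α}
    (h : Good 2 3 F S) (i : Fin 3) :
    ∃ a, 4 ≤ (F.filter (fun j => a ∈ S j i)).card ∧ 4 ≤ (F.filter (fun j => a ∉ S j i)).card := by
  obtain ⟨a, ha⟩ := avoid_card_good h le_rfl i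
  refine ⟨a, ?_, ha⟩
  have h1 := h.slice i a
  have h2 := split2 h1 0 a
  have := split_card (F := F.filter (fun j => a ∈ S j i))
    (S := fun j l => S j (i.succAbove l)) 0 a
  omega

/-- Dimension one. -/
lemma split1 [Nonempty α] {F : Finset ι} {S : ι → Fin 1 → Finset α}
    (h : Good 2 1 F S) (i : Fin 1) :
    ∃ a, 1 ≤ (F.filter (fun j => a ∈ S j i)).card ∧ 1 ≤ (F.filter (fun j => a ∉ S j i)).card := by
  obtain ⟨c⟩ := ‹Nonempty α›
  obtain ⟨P, hP, Q, hQ, hPQ, hd, -, -⟩ := two_on_line h i (fun _ => c)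
  obtain ⟨a, ha⟩ := h.1 P hP i
  exact ⟨a, Finset.card_pos.2 ⟨P, Finset.mem_filter.2 ⟨hP, ha⟩⟩,
    avoid_card h i a⟩

/-- The splitting theorem in dimension at most three. -/
lemma split_le_three [Nonempty α] {d : ℕ} {F : Finset ι} {S : ι → Fin d → Finset α}
    (h : Good 2 d F S) (hd : d ≤ 3) (i : Fin d) :
    ∃ a, 2 ^ (d - 1) ≤ (F.filter (fun j => a ∈ S j i)).card ∧
      2 ^ (d - 1) ≤ (F.filter (fun j => a ∉ S j i)).card := by
  interval_cases d
  · exact i.elim0
  · exact split1 h i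
  · obtain ⟨c⟩ := ‹Nonempty α›
    exact ⟨c, split2 h i c⟩
  · exact split3 h i

end Pool.Agent.H81.BoxSplit
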