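import Pool.Agent.H81.Proj
import Pool.Agent.H81.Affine

open Set Filter Topology Real MeasureTheory

namespace Pool.Agent.H81

/-- the Finsler hypotheses in homogeneous coordinates -/
structure HFinsler (F D : E3 → E3 → ℝ) : Prop where
  inv : ∀ X V, X ≠ 0 → ∀ c m : ℝ, c ≠ 0 → F (c • X) (c • V + m • X) = F X V
  pos : ∀ X V, LinearIndependent ℝ ![X, V] → 0 < F X V
  hom : ∀ X V, X ≠ 0 → ∀ t : ℝ, F X (t • V) = |t| * F X V
  strict : ∀ X V W, LinearIndependent ℝ ![X, V, W] → F X (V + W) < F X V + F X W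
  smooth : ContDiffOn ℝ 2 (fun q : E3 × E3 => F q.1 q.2) {q | LinearIndependent ℝ ![q.1, q.2]}
  generates : ∀ x y : E3, x ≠ 0 → y ≠ 0 → IsGLB {l : ℝ | ∃ γ : ℝ → E3,
    ContDiff ℝ 1 γ ∧ (∀ t ∈ Icc (0 : ℝ) 1, γ t ≠ 0) ∧
    (∃ a : ℝ, γ 0 = a • x) ∧ (∃ b : ℝ, γ 1 = b • y) ∧
    l = ∫ t in (0 : ℝ)..1, F (γ t) (deriv γ t)} (D x y)

theorem hFinsler {F : E3 → E3 → ℝ} {d : P2 → P2 → ℝ} (h : EllipticFinsler F d) :
    HFinsler F (dv d) where
  inv := h.inv
  pos := h.pos
  hom := h.hom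
  strict := h.strict
  smooth := h.smooth
  generates := by
    intro x y hx hy
    rw [dv_eq d hx hy]
    exact h.generates x y hx hy

/-- affine charts -/
abbrev Cht : Type := ((ℝ × ℝ) × ℝ) ≃L[ℝ] E3

/-- the Finsler function in a chart -/
def FA (F : E3 → E3 → ℝ) (A : Cht) (x v : ℝ × ℝ) : ℝ := F (A (x, 1)) (A (v, 0))

/-- the distance in a chart -/
def DA (D : E3 → E3 → ℝ) (A : Cht) (x y : ℝ × ℝ) : ℝ := D (A (x, 1)) (A (y, 1))

lemma A_ne (A : Cht) (x : ℝ × ℝ) : A (x, 1) ≠ 0 := by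
  intro h
  have h1 := A.map_eq_zero_iff.1 h
  have h2 := congrArg Prod.snd h1
  simp at h2

lemma A_comb (A : Cht) (x v : ℝ × ℝ) (s t a b : ℝ) :
    s • A (x, a) + t • A (v, b) = A (s • x + t • v, s * a + t * b) := by
  rw [← map_smul, ← map_smul, ← map_add]; simp

lemma A_pair (A : Cht) (x : ℝ × ℝ) {v : ℝ × ℝ} (hv : v ≠ 0) :
    LinearIndependent ℝ ![A (x, 1), A (v, 0)] := by
  rw [pair_iff]
  intro s t h
  rw [A_comb, A.map_eq_zero_iff, Prod.mk_eq_zero] at h
  have hs : s = 0 := by simpa using h.2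
  refine ⟨hs, ?_⟩
  have h1 := h.1
  rw [hs, zero_smul, zero_add] at h1
  rcases smul_eq_zero.1 h1 with h2 | h2
  · exact h2
  · exact absurd h2 hv

lemma A_triple (A : Cht) (x : ℝ × ℝ) {v w : ℝ × ℝ} (hvw : cr v w ≠ 0) :
    LinearIndependent ℝ ![A (x, 1), A (v, 0), A (w, 0)] := by
  rw [triple_iff]
  intro s t u h
  rw [A_comb, ← one_smul ℝ (A (s • x + t • v, s * 1 + t * 0)), A_comb, A.map_eq_zero_iff,
    Prod.mk_eq_zero] at h
  have hs : s = 0 := by simpa using h.2
  have h1 := h.1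
  rw [hs, zero_smul, zero_add, one_smul] at h1
  have e1 : t * v.1 + u * w.1 = 0 := by have := congrArg Prod.fst h1; simpa using this
  have e2 : t * v.2 + u * w.2 = 0 := by have := congrArg Prod.snd h1; simpa using this
  refine ⟨hs, ?_, ?_⟩
  · have : t * cr v w = 0 := by
      simp only [cr]; linear_combination w.2 * e1 - w.1 * e2
    exact (mul_eq_zero.1 this).resolve_right hvw
  · have : u * cr v w = 0 := by
      simp only [cr]; linear_combination v.1 * e2 - v.2 * e1
    exact (mul_eq_zero.1 this).resolve_right hvw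

/-- the height coordinate -/
def ch (A : Cht) (X : E3) : ℝ := (A.symm X).2

/-- chart coordinates of a point -/
noncomputable def cx (A : Cht) (X : E3) : ℝ × ℝ := (A.symm X).2⁻¹ • (A.symm X).1

/-- chart coordinates of a tangent vector -/
noncomputable def cvv (A : Cht) (X V : E3) : ℝ × ℝ :=
  (A.symm X).2⁻¹ • ((A.symm V).1 - (A.symm V).2 • cx A X)

lemma ch_cont (A : Cht) : Continuous (ch A) := continuous_snd.comp A.symm.continuous

lemma eq_cx (A : Cht) {X : E3} (hX : ch A X ≠ 0) : X = ch A X • A (cx A X, 1) := by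
  apply A.symm.injective
  rw [map_smul, ContinuousLinearEquiv.symm_apply_apply]
  simp only [ch, cx]
  apply Prod.ext
  · simp only [Prod.smul_fst]
    rw [smul_smul, mul_inv_cancel₀ (by exact hX), one_smul]
  · simp

lemma eq_cvv (A : Cht) {X V : E3} (hX : ch A X ≠ 0) :
    V = ch A X • A (cvv A X V, 0) + (A.symm V).2 • A (cx A X, 1) := by
  apply A.symm.injective
  rw [map_add, map_smul, map_smul, ContinuousLinearEquiv.symm_apply_apply,
    ContinuousLinearEquiv.symm_apply_apply]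
  have hX' : (A.symm X).2 ≠ 0 := hX
  apply Prod.ext
  · simp only [ch, cvv, Prod.fst_add, Prod.smul_fst]
    rw [smul_smul, mul_inv_cancel₀ hX', one_smul]
    abel
  · simp

namespace HFinsler

variable {F D : E3 → E3 → ℝ}

lemma freg (h : HFinsler F D) (A : Cht) : FReg univ (FA F A) where
  isOpen := isOpen_univ
  smooth := by
    have h1 : ContDiff ℝ 2 (fun q : (ℝ × ℝ) × (ℝ × ℝ) => ((A (q.1, 1), A (q.2, 0)) : E3 × E3)) := by
      apply ContDiff.prodMk
      · exact A.contDiff.comp (contDiff_fst.prodMk contDiff_const)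
      · exact A.contDiff.comp (contDiff_snd.prodMk contDiff_const)
    exact h.smooth.comp h1.contDiffOn (fun q hq => A_pair A q.1 hq.2)
  pos := fun x _ v hv => h.pos _ _ (A_pair A x hv)
  hom := by
    intro x _ t v
    have := h.hom (A (x, 1)) (A (v, 0)) (A_ne A x) t
    rw [← map_smul] at this
    simpa [FA] using this

lemma scnorm (h : HFinsler F D) (A : Cht) (x : ℝ × ℝ) : SCNorm (FA F A x) where
  pos := (h.freg A).pos x (mem_univ x)
  hom := (h.freg A).hom x (mem_univ x)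
  strict := by
    intro v w hvw
    have := h.strict _ _ _ (A_triple A x hvw)
    rw [← map_add] at this
    simpa [FA] using this

lemma F_eq (h : HFinsler F D) (A : Cht) {X V : E3} (hX : ch A X ≠ 0) :
    F X V = FA F A (cx A X) (cvv A X V) := by
  conv_lhs => rw [eq_cx A hX, eq_cvv A (V := V) hX]
  rw [h.inv _ _ (A_ne A _) _ _ hX]
  rfl

lemma exists_chart {X : E3} (hX : X ≠ 0) : ∃ A : Cht, A (0, 1) = X := by
  obtain ⟨C, hC⟩ := Submodule.exists_isCompl (Submodule.span ℝ {X})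
  have hfr : Module.finrank ℝ C = 2 := by
    have h1 := Submodule.finrank_add_eq_of_isCompl hC
    rw [finrank_span_singleton hX] at h1
    simp at h1
    omega
  have e1 : (ℝ × ℝ) ≃ₗ[ℝ] C := LinearEquiv.ofFinrankEq _ _ (by rw [hfr]; simp)
  let e2 : ℝ ≃ₗ[ℝ] Submodule.span ℝ {X} := LinearEquiv.toSpanNonzeroSingleton ℝ E3 X hX
  let B : ((ℝ × ℝ) × ℝ) ≃ₗ[ℝ] E3 := (LinearEquiv.prodCongr e1 e2).trans
    (Submodule.prodEquivOfIsCompl C (Submodule.span ℝ {X}) hC.symm)
  refine ⟨B.toContinuousLinearEquiv, ?_⟩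
  have : B (0, 1) = X := by
    simp [B, e2]
  simpa using this

lemma ch_eq_one {A : Cht} {X : E3} (h : A (0, 1) = X) : ch A X = 1 := by
  rw [ch, ← h, ContinuousLinearEquiv.symm_apply_apply]

lemma nonneg (h : HFinsler F D) {X : E3} (hX : X ≠ 0) (V : E3) : 0 ≤ F X V := by
  obtain ⟨A, hA⟩ := exists_chart hX
  rw [h.F_eq A (by rw [ch_eq_one hA]; exact one_ne_zero)]
  exact (h.scnorm A _).nonneg _

lemma cx_continuousAt (A : Cht) {X : E3} (hX : ch A X ≠ 0) : ContinuousAt (cx A) X := by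
  have h1 : Continuous A.symm := A.symm.continuous
  have h2 : ContinuousAt (fun X => (A.symm X).2⁻¹) X :=
    (continuous_snd.comp h1).continuousAt.inv₀ hX
  exact h2.smul (continuous_fst.comp h1).continuousAt

lemma cont (h : HFinsler F D) : ContinuousOn (fun q : E3 × E3 => F q.1 q.2) {q | q.1 ≠ 0} := by
  rintro ⟨X, V⟩ hX
  have hX : X ≠ 0 := hX
  obtain ⟨A, hA⟩ := exists_chart hX
  have hch : ch A X ≠ 0 := by rw [ch_eq_one hA]; exact one_ne_zero
  apply ContinuousAt.continuousWithinAt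
  have hev : ∀ᶠ q : E3 × E3 in 𝓝 (X, V), ch A q.1 ≠ 0 :=
    ((ch_cont A).comp continuous_fst).continuousAt.eventually_ne hch
  have h1 : ContinuousAt (fun q : E3 × E3 => cx A q.1) (X, V) :=
    ContinuousAt.comp (f := Prod.fst) (g := cx A) (cx_continuousAt A hch) continuous_fst.continuousAt
  have hs : Continuous A.symm := A.symm.continuous
  have h2 : ContinuousAt (fun q : E3 × E3 => cvv A q.1 q.2) (X, V) := by
    have k1 : ContinuousAt (fun q : E3 × E3 => (A.symm q.1).2⁻¹) (X, V) :=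
      ((continuous_snd.comp hs).comp continuous_fst).continuousAt.inv₀ hch
    have k2 : ContinuousAt (fun q : E3 × E3 => (A.symm q.2).1) (X, V) :=
      ((continuous_fst.comp hs).comp continuous_snd).continuousAt
    have k3 : ContinuousAt (fun q : E3 × E3 => (A.symm q.2).2) (X, V) :=
      ((continuous_snd.comp hs).comp continuous_snd).continuousAt
    exact k1.smul (k2.sub (k3.smul h1))
  have h3 : ContinuousAt (fun q : E3 × E3 => FA F A (cx A q.1) (cvv A q.1 q.2)) (X, V) := by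
    have h4 := (h.freg A).cont
    rw [univ_prod_univ, continuousOn_univ] at h4
    exact ContinuousAt.comp (f := fun q : E3 × E3 => ((cx A q.1, cvv A q.1 q.2) :
      (ℝ × ℝ) × (ℝ × ℝ))) (g := Fu (FA F A)) h4.continuousAt (h1.prodMk h2)
  apply h3.congr
  filter_upwards [hev] with q hq
  exact (h.F_eq A hq).symm

end HFinsler

end Pool.Agent.H81
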