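import Mathlib

/-!
Definitions used in the statement about Finslerian projective-metric planes
with symmetric perpendicularity.
-/

open Set Filter Topology

namespace Pool.Agent.H81

/-- The planar determinant of two vectors. -/
def cr (a b : ℝ × ℝ) : ℝ := a.1 * b.2 - a.2 * b.1

/-- `N` is a norm on the plane with strictly convex unit ball: positive off `0`, absolutely
homogeneous, and the triangle inequality is strict for linearly independent vectors. -/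
structure SCNorm (N : ℝ × ℝ → ℝ) : Prop where
  pos : ∀ v, v ≠ 0 → 0 < N v
  hom : ∀ (t : ℝ) v, N (t • v) = |t| * N v
  strict : ∀ v w, cr v w ≠ 0 → N (v + w) < N v + N w

/-- `N` is a Euclidean norm: its square is the diagonal of a bilinear form. -/
def EuclideanNorm {E : Type} [AddCommGroup E] [Module ℝ E] (N : E → ℝ) : Prop :=
  ∃ B : E →ₗ[ℝ] E →ₗ[ℝ] ℝ, ∀ v, N v ^ 2 = B v v

/-- `d` is a complete metric on the set `M`. -/
structure CompleteMetric {α : Type} (M : Set α) (d : α → α → ℝ) : Prop where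
  eq_zero : ∀ x ∈ M, ∀ y ∈ M, (d x y = 0 ↔ x = y)
  symm : ∀ x ∈ M, ∀ y ∈ M, d x y = d y x
  triangle : ∀ x ∈ M, ∀ y ∈ M, ∀ z ∈ M, d x z ≤ d x y + d y z
  complete : ∀ u : ℕ → α, (∀ n, u n ∈ M) →
    (∀ ε > 0, ∃ n₀, ∀ m ≥ n₀, ∀ n ≥ n₀, d (u m) (u n) < ε) →
    ∃ x ∈ M, Tendsto (fun n => d (u n) x) atTop (𝓝 0)

/-- `P` is a `d`-foot of `O` on `ℓ`. -/
def Foot {α : Type} (d : α → α → ℝ) (ℓ : Set α) (O P : α) : Prop :=
  P ∈ ℓ ∧ ∀ Q ∈ ℓ, d O P ≤ d O Q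

/-- `ℓ'` is `d`-perpendicular to `ℓ`: they are different, they meet at a point `P`, and `P` is
a `d`-foot on `ℓ` of every other point of `ℓ'`. -/
def Perp {α : Type} (d : α → α → ℝ) (ℓ' ℓ : Set α) : Prop :=
  ℓ' ≠ ℓ ∧ ∃ P ∈ ℓ' ∩ ℓ, ∀ O ∈ ℓ', O ≠ P → Foot d ℓ O P

/-- Perpendicularity is symmetric on the family `𝓛` of lines. -/
def SymPerp {α : Type} (𝓛 : Set (Set α)) (d : α → α → ℝ) : Prop :=
  ∀ ℓ' ∈ 𝓛, ∀ ℓ ∈ 𝓛, Perp d ℓ' ℓ → Perp d ℓ ℓ'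

/-- The `M`-lines: nonempty intersections of straight lines with `M`. -/
def MLines (M : Set (ℝ × ℝ)) : Set (Set (ℝ × ℝ)) :=
  {L | L.Nonempty ∧ ∃ p v : ℝ × ℝ, v ≠ 0 ∧ L = {x | x ∈ M ∧ ∃ t : ℝ, x = p + t • v}}

/-- `(M, d)` is a projective-metric plane with `M ⊆ ℝ²` (either `ℝ²` or a proper open convex
subset) all whose metric circles are strictly convex. -/
structure AffinePlane (M : Set (ℝ × ℝ)) (d : ℝ × ℝ → ℝ × ℝ → ℝ) : Prop where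
  nonempty : M.Nonempty
  isOpen : IsOpen M
  convex : Convex ℝ M
  metric : CompleteMetric M d
  continuous : ContinuousOn (fun q : (ℝ × ℝ) × (ℝ × ℝ) => d q.1 q.2) (M ×ˢ M)
  /-- the geodesic lines (isometric images of `ℝ`) are exactly the `M`-lines -/
  geodesic : ∀ L : Set (ℝ × ℝ), (L ⊆ M ∧ ∃ γ : ℝ → ℝ × ℝ, range γ = L ∧
    ∀ s t, d (γ s) (γ t) = |s - t|) ↔ L ∈ MLines M
  /-- metric discs are strictly convex -/
  circles : ∀ O ∈ M, ∀ r : ℝ, ∀ x ∈ M, ∀ y ∈ M, x ≠ y → d O x ≤ r → d O y ≤ r →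
    ∀ z ∈ openSegment ℝ x y, d O z < r

/-- `F` is a (`C²`) Finsler function on `M ⊆ ℝ²` generating the metric `d`: each `F x` is a
strictly convex norm, `F` is `C²` off the zero section, and `d` is the infimum of the
`F`-lengths of `C¹` curves in `M`. -/
structure AffineFinsler (M : Set (ℝ × ℝ)) (F : ℝ × ℝ → ℝ × ℝ → ℝ)
    (d : ℝ × ℝ → ℝ × ℝ → ℝ) : Prop where
  norm : ∀ x ∈ M, SCNorm (F x)
  smooth : ContDiffOn ℝ 2 (fun q : (ℝ × ℝ) × (ℝ × ℝ) => F q.1 q.2) (M ×ˢ {v | v ≠ 0})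
  generates : ∀ x ∈ M, ∀ y ∈ M, IsGLB {l : ℝ | ∃ γ : ℝ → ℝ × ℝ, ContDiff ℝ 1 γ ∧
    (∀ t ∈ Icc (0 : ℝ) 1, γ t ∈ M) ∧ γ 0 = x ∧ γ 1 = y ∧
    l = ∫ t in (0 : ℝ)..1, F (γ t) (deriv γ t)} (d x y)

/-- `(M, d)` is a Radon plane: `M = ℝ²`, `d` is the metric of a strictly convex norm, and
Birkhoff orthogonality of that norm is symmetric. -/
def RadonPlane (M : Set (ℝ × ℝ)) (d : ℝ × ℝ → ℝ × ℝ → ℝ) : Prop :=
  M = univ ∧ ∃ N : ℝ × ℝ → ℝ, SCNorm N ∧ (∀ x y, d x y = N (x - y)) ∧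
    ∀ v w, (∀ t : ℝ, N v ≤ N (v + t • w)) → ∀ t : ℝ, N w ≤ N (w + t • v)

end Pool.Agent.H81
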