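import Pool.Agent.H81.PLim

open Set Filter Topology Real MeasureTheory

namespace Pool.Agent.H81

/-- arc length parametrisation of the line through `X` and `V`, of length `2 h` -/
structure LineP (D : E3 → E3 → ℝ) (X V : E3) (h : ℝ) (g : ℝ → E3) : Prop where
  hpos : 0 < h
  mem : ∀ s, g s ≠ 0 ∧ ∃ α β : ℝ, g s = α • X + β • V
  surj : ∀ s0 α β : ℝ, α • X + β • V ≠ 0 → ∃ s, |s - s0| ≤ h ∧ ∃ c : ℝ, α • X + β • V = c • g s
  iso : ∀ s t, |s - t| ≤ h → D (g s) (g t) = |s - t|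
  per : ∀ s, g (s + 2 * h) = g s

namespace HPlane

variable {D : E3 → E3 → ℝ}

lemma exists_line (h : HPlane D) {X V : E3} (hXV : LinearIndependent ℝ ![X, V]) :
    ∃ r g, LineP D X V r g := by
  obtain ⟨r, hr, g, h1, h2, h3, h4⟩ := h.line X V hXV
  exact ⟨r, g, hr, h1, h2, h3, h4⟩

lemma smul_left (h : HPlane D) {X Y : E3} (hX : X ≠ 0) (hY : Y ≠ 0) {b : ℝ} (hb : b ≠ 0) :
    D (b • X) Y = D X Y := by
  rw [h.symm _ _ (smul_ne_zero hb hX) hY, h.smul_right Y X hY hX b hb, h.symm _ _ hY hX]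

lemma nonneg (h : HPlane D) {X Y : E3} (hX : X ≠ 0) (hY : Y ≠ 0) : 0 ≤ D X Y := by
  have h1 := h.tri X Y X hX hY hX
  rw [h.self X hX, h.symm Y X hY hX] at h1
  linarith

lemma DA_cont (h : HPlane D) (A : Cht) :
    Continuous (fun q : (ℝ × ℝ) × (ℝ × ℝ) => DA D A q.1 q.2) := by
  have h1 : Continuous (fun q : (ℝ × ℝ) × (ℝ × ℝ) => ((A (q.1, 1), A (q.2, 1)) : E3 × E3)) := by
    apply Continuous.prodMk
    · exact A.continuous.comp (continuous_fst.prodMk continuous_const)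
    · exact A.continuous.comp (continuous_snd.prodMk continuous_const)
  exact h.cont.comp_continuous h1 (fun q => ⟨A_ne A _, A_ne A _⟩)

lemma DA_eq_zero (h : HPlane D) (A : Cht) {x y : ℝ × ℝ} (h0 : DA D A x y = 0) : x = y := by
  obtain ⟨c, hc⟩ := h.zero _ _ (A_ne A x) (A_ne A y) h0
  rw [← map_smul] at hc
  have h1 := A.injective hc
  have h2 : (1:ℝ) = c * 1 := congrArg Prod.snd h1
  have h3 : y = c • x := congrArg Prod.fst h1
  have h4 : c = 1 := by linarith
  rw [h3, h4, one_smul]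

lemma DA_self (h : HPlane D) (A : Cht) (x : ℝ × ℝ) : DA D A x x = 0 := h.self _ (A_ne A x)

lemma DA_symm (h : HPlane D) (A : Cht) (x y : ℝ × ℝ) : DA D A x y = DA D A y x :=
  h.symm _ _ (A_ne A x) (A_ne A y)

lemma DA_tri (h : HPlane D) (A : Cht) (x y z : ℝ × ℝ) :
    DA D A x z ≤ DA D A x y + DA D A y z := h.tri _ _ _ (A_ne A x) (A_ne A y) (A_ne A z)

end HPlane

namespace LineP

variable {D : E3 → E3 → ℝ} {X V : E3} {h : ℝ} {g : ℝ → E3}

lemma rev (l : LineP D X V h g) : LineP D X V h (fun s => g (-s)) where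
  hpos := l.hpos
  mem := fun s => l.mem (-s)
  surj := by
    intro s0 α β hne
    obtain ⟨s, hs, c, hc⟩ := l.surj (-s0) α β hne
    refine ⟨-s, ?_, c, ?_⟩
    · rw [show -s - s0 = -(s - -s0) by ring, abs_neg]; exact hs
    · rw [neg_neg]; exact hc
  iso := by
    intro s t hst
    have e : |(-s) - (-t)| = |s - t| := by rw [show (-s) - (-t) = -(s - t) by ring, abs_neg]
    rw [l.iso (-s) (-t) (by rw [e]; exact hst), e]
  per := by
    intro s
    have := l.per (-(s + 2 * h))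
    rw [show -(s + 2 * h) + 2 * h = -s by ring] at this
    exact this.symm

lemma dist_eq (l : LineP D X V h g) (hP : HPlane D) {P Q : E3} (hP0 : P ≠ 0) (hQ0 : Q ≠ 0)
    {a b s t : ℝ} (hPs : P = a • g s) (hQt : Q = b • g t) (hst : |s - t| ≤ h) :
    D P Q = |s - t| := by
  have ha : a ≠ 0 := by
    intro h0; apply hP0; rw [hPs, h0, zero_smul]
  have hb : b ≠ 0 := by
    intro h0; apply hQ0; rw [hQt, h0, zero_smul]
  rw [hPs, hQt, hP.smul_left (l.mem s).1 (smul_ne_zero hb (l.mem t).1) ha,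
    hP.smul_right _ _ (l.mem s).1 (l.mem t).1 b hb, l.iso s t hst]

lemma exists_param (l : LineP D X V h g) {α β : ℝ} (hne : α • X + β • V ≠ 0) :
    ∃ s c : ℝ, α • X + β • V = c • g s := by
  obtain ⟨s, -, c, hc⟩ := l.surj 0 α β hne
  exact ⟨s, c, hc⟩

/-- distances on the line are at most `h` -/
lemma dist_le (l : LineP D X V h g) (hP : HPlane D) {α β α' β' : ℝ}
    (h1 : α • X + β • V ≠ 0) (h2 : α' • X + β' • V ≠ 0) :
    D (α • X + β • V) (α' • X + β' • V) ≤ h := by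
  obtain ⟨s, c, hc⟩ := l.exists_param h1
  obtain ⟨t, ht, c', hc'⟩ := l.surj s α' β' h2
  have e : |s - t| = |t - s| := abs_sub_comm _ _
  rw [l.dist_eq hP h1 h2 hc hc' (by rw [e]; exact ht), e]
  exact ht

/-- the antipode is unique -/
lemma antipode (l : LineP D X V h g) (hP : HPlane D) {α β α' β' γ δ : ℝ}
    (h1 : α • X + β • V ≠ 0) (h2 : α' • X + β' • V ≠ 0) (h3 : γ • X + δ • V ≠ 0)
    (e1 : D (α • X + β • V) (γ • X + δ • V) = h) (e2 : D (α' • X + β' • V) (γ • X + δ • V) = h) :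
    ∃ c : ℝ, α' • X + β' • V = c • (α • X + β • V) := by
  obtain ⟨s0, c0, hc0⟩ := l.exists_param h3
  have key : ∀ a b : ℝ, a • X + b • V ≠ 0 → D (a • X + b • V) (γ • X + δ • V) = h →
      ∃ c : ℝ, a • X + b • V = c • g (s0 + h) := by
    intro a b hab he
    obtain ⟨s, hs, c, hc⟩ := l.surj s0 a b hab
    have := l.dist_eq hP hab h3 hc hc0 hs
    rw [he] at this
    rcases le_total 0 (s - s0) with h4 | h4
    · rw [abs_of_nonneg h4] at this
      refine ⟨c, ?_⟩
      rw [hc, show s = s0 + h by linarith]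
    · rw [abs_of_nonpos h4] at this
      refine ⟨c, ?_⟩
      rw [hc, show s = s0 - h by linarith, ← l.per (s0 - h)]
      congr 2; ring
  obtain ⟨c, hc⟩ := key α β h1 e1
  obtain ⟨c', hc'⟩ := key α' β' h2 e2
  have hcne : c ≠ 0 := by
    intro h0; apply h1; rw [hc, h0, zero_smul]
  refine ⟨c' * c⁻¹, ?_⟩
  rw [hc, hc', smul_smul, mul_assoc, inv_mul_cancel₀ hcne, mul_one]

end LineP

/-- a local coordinate along a line -/
lemma coord {D : E3 → E3 → ℝ} (hP : HPlane D) (A : Cht) {x v : ℝ × ℝ} (hv : v ≠ 0) {h : ℝ}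
    {g : ℝ → E3} (l : LineP D (A (x, 1)) (A (v, 0)) h g) {a b s0 ts c0 : ℝ} (hab : a ≤ b)
    (hs0 : A (x + ts • v, 1) = c0 • g s0)
    (hsm : ∀ t ∈ Icc a b, DA D A (x + ts • v) (x + t • v) < h / 2) :
    ∃ φ : ℝ → ℝ, (∀ t ∈ Icc a b, ∃ c : ℝ, A (x + t • v, 1) = c • g (φ t)) ∧
      (∀ t ∈ Icc a b, |φ t - s0| = DA D A (x + ts • v) (x + t • v)) ∧
      (∀ t ∈ Icc a b, ∀ t' ∈ Icc a b, DA D A (x + t • v) (x + t' • v) = |φ t - φ t'|) ∧
      ContinuousOn φ (Icc a b) ∧ (StrictMonoOn φ (Icc a b) ∨ StrictAntiOn φ (Icc a b)) := by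
  have hA : ∀ t : ℝ, A (x + t • v, 1) = (1:ℝ) • A (x, 1) + t • A (v, 0) := by
    intro t; rw [A_comb]; simp
  have hex : ∀ t : ℝ, ∃ s, |s - s0| ≤ h ∧ ∃ c : ℝ, A (x + t • v, 1) = c • g s := by
    intro t
    have := l.surj s0 1 t (by rw [← hA]; exact A_ne A _)
    rwa [← hA] at this
  choose φ hφ1 hφ2 using hex
  have hd0 : ∀ t, |φ t - s0| = DA D A (x + ts • v) (x + t • v) := by
    intro t
    obtain ⟨c, hc⟩ := hφ2 t
    rw [hP.DA_symm]
    exact (l.dist_eq hP (A_ne A _) (A_ne A _) hc hs0 (hφ1 t)).symm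
  have hd : ∀ t ∈ Icc a b, ∀ t' ∈ Icc a b, DA D A (x + t • v) (x + t' • v) = |φ t - φ t'| := by
    intro t ht t' ht'
    obtain ⟨c, hc⟩ := hφ2 t
    obtain ⟨c', hc'⟩ := hφ2 t'
    apply l.dist_eq hP (A_ne A _) (A_ne A _) hc hc'
    have h1 := hsm t ht
    have h2 := hsm t' ht'
    rw [← hd0] at h1 h2
    have : |φ t - φ t'| ≤ |φ t - s0| + |φ t' - s0| := by
      rw [abs_sub_comm (φ t') s0]; exact abs_sub_le _ _ _
    linarith
  have hc : ContinuousOn φ (Icc a b) := by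
    intro t ht
    rw [ContinuousWithinAt, tendsto_iff_dist_tendsto_zero]
    have c1 : Continuous (fun b : ℝ => DA D A (x + b • v) (x + t • v)) := by
      have c2 : Continuous fun b : ℝ => ((x + b • v, x + t • v) : (ℝ × ℝ) × (ℝ × ℝ)) := by
        fun_prop
      exact (hP.DA_cont A).comp c2
    have c3 : Tendsto (fun b : ℝ => DA D A (x + b • v) (x + t • v)) (𝓝[Icc a b] t)
        (𝓝 0) := by
      have := c1.continuousAt (x := t)
      rw [ContinuousAt, hP.DA_self] at this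
      exact this.mono_left nhdsWithin_le_nhds
    apply c3.congr'
    filter_upwards [self_mem_nhdsWithin] with b hb
    rw [hd b hb t ht, Real.dist_eq]
  have hinj : InjOn φ (Icc a b) := by
    intro t ht t' ht' htt
    have h1 := hd t ht t' ht'
    rw [htt, sub_self, abs_zero] at h1
    have h2 := hP.DA_eq_zero A h1
    have h3 : (t - t') • v = 0 := by
      rw [sub_smul, sub_eq_zero]; exact add_left_cancel h2
    rcases smul_eq_zero.1 h3 with h4 | h4
    · linarith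
    · exact absurd h4 hv
  exact ⟨φ, fun t _ => hφ2 t, fun t _ => hd0 t, hd, hc, hc.strictMonoOn_of_injOn_Icc' hab hinj⟩

lemma FReg.mono_set {M W : Set (ℝ × ℝ)} {F : ℝ × ℝ → ℝ × ℝ → ℝ} (h : FReg M F) (hW : IsOpen W)
    (hWM : W ⊆ M) : FReg W F where
  isOpen := hW
  smooth := h.smooth.mono (prod_mono hWM Subset.rfl)
  pos := fun x hx => h.pos x (hWM hx)
  hom := fun x hx => h.hom x (hWM hx)

section

variable {F D : E3 → E3 → ℝ}

/-- local geodesic convexity -/
theorem exists_locGeo (hP : HPlane D) (hF : HFinsler F D) (A : Cht) (x0 : ℝ × ℝ) :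
    ∃ ρ > 0, LocGeo (Metric.ball x0 ρ) (FA F A) (DA D A) := by
  -- lower bound for the length of lines
  set K : Set ((ℝ × ℝ) × (ℝ × ℝ)) := Metric.closedBall x0 1 ×ˢ Metric.sphere (0 : ℝ × ℝ) 1 with hK
  have hKc : IsCompact K := (isCompact_closedBall x0 1).prod (isCompact_sphere 0 1)
  have hKne : K.Nonempty := by
    refine ⟨(x0, (1, 0)), Metric.mem_closedBall_self zero_le_one, ?_⟩
    simp [Prod.norm_def]
  have hfc : ContinuousOn (fun q : (ℝ × ℝ) × (ℝ × ℝ) => DA D A q.1 (q.1 + q.2)) K := by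
    have c2 : Continuous fun q : (ℝ × ℝ) × (ℝ × ℝ) => ((q.1, q.1 + q.2) :
      (ℝ × ℝ) × (ℝ × ℝ)) := by fun_prop
    exact ((hP.DA_cont A).comp c2).continuousOn
  obtain ⟨q0, hq0, hmin⟩ := hKc.exists_isMinOn hKne hfc
  set δ := DA D A q0.1 (q0.1 + q0.2) with hδ
  have hδpos : 0 < δ := by
    rcases (hP.nonneg (A_ne A q0.1) (A_ne A (q0.1 + q0.2))).lt_or_eq with h1 | h1
    · exact h1
    · exfalso
      have h2 := hP.DA_eq_zero A h1.symm
      have h3 : q0.2 = 0 := by simpa using h2.symm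
      have h4 : q0.2 ∈ Metric.sphere (0 : ℝ × ℝ) 1 := hq0.2
      rw [h3] at h4
      simp at h4
  have hcont0 : ContinuousAt (fun q : (ℝ × ℝ) × (ℝ × ℝ) => DA D A q.1 q.2) (x0, x0) :=
    (hP.DA_cont A).continuousAt
  have hev : ∀ᶠ q : (ℝ × ℝ) × (ℝ × ℝ) in 𝓝 (x0, x0), DA D A q.1 q.2 < δ / 2 :=
    hcont0.eventually_lt_const (by change DA D A x0 x0 < δ / 2; rw [hP.DA_self]; linarith)
  rw [Metric.eventually_nhds_iff_ball] at hev
  obtain ⟨ρ, hρ, hball⟩ := hev
  refine ⟨min ρ 1, lt_min hρ one_pos, ?_⟩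
  set W := Metric.ball x0 (min ρ 1) with hW
  have hclose : ∀ x ∈ W, ∀ y ∈ W, DA D A x y < δ / 2 := by
    intro x hx y hy
    apply hball (x, y)
    rw [← ball_prod_same]
    exact ⟨Metric.ball_subset_ball (min_le_left _ _) hx, Metric.ball_subset_ball (min_le_left _ _) hy⟩
  refine ⟨(hF.freg A).mono_set Metric.isOpen_ball (subset_univ _), fun x _ => hF.scnorm A x,
    convex_ball _ _, fun x _ => hP.DA_self A x, fun x _ y _ => hP.DA_symm A x y,
    fun x _ y _ z _ => hP.DA_tri A x y z, ?_, (hP.DA_cont A).continuousOn,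
    fun x _ v hv => hF.lim A x hv⟩
  intro x hx y hy t ht
  by_cases hxy : y - x = 0
  · have hyx : y = x := sub_eq_zero.1 hxy
    subst hyx
    rw [sub_self, smul_zero, add_zero, hP.DA_self, add_zero]
  · obtain ⟨h, g, l⟩ := hP.exists_line (A_pair A x hxy)
    have hhδ : δ ≤ h := by
      set u := ‖y - x‖⁻¹ • (y - x) with hu
      have hn : 0 < ‖y - x‖ := norm_pos_iff.2 hxy
      have hmem : (x, u) ∈ K := by
        refine ⟨?_, ?_⟩
        · have : x ∈ Metric.ball x0 1 := Metric.ball_subset_ball (min_le_right _ _) hx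
          exact Metric.ball_subset_closedBall this
        · simp [hu, norm_smul, hn.ne']
      have h1 : δ ≤ DA D A x (x + u) := hmin hmem
      have e1 : A (x, 1) = (1:ℝ) • A (x, 1) + (0:ℝ) • A (y - x, 0) := by simp
      have e2 : A (x + u, 1) = (1:ℝ) • A (x, 1) + ‖y - x‖⁻¹ • A (y - x, 0) := by
        rw [A_comb, hu]; simp
      have h2 := l.dist_le hP (α := 1) (β := 0) (α' := 1) (β' := ‖y - x‖⁻¹)
        (by rw [← e1]; exact A_ne A _) (by rw [← e2]; exact A_ne A _)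
      rw [← e1, ← e2] at h2
      exact h1.trans h2
    have hseg : ∀ t ∈ Icc (0:ℝ) 1, x + t • (y - x) ∈ W := fun t ht =>
      (convex_ball x0 _).add_smul_sub_mem hx hy ht
    obtain ⟨s0, c0, hc0⟩ := l.exists_param (α := 1) (β := 0) (by
      rw [one_smul, zero_smul, add_zero]; exact A_ne A x)
    have hc0' : A (x + (0:ℝ) • (y - x), 1) = c0 • g s0 := by
      rw [← hc0]; simp
    obtain ⟨φ, -, -, hd, -, hm⟩ := coord hP A hxy l zero_le_one hc0' (by
      intro t ht
      have h1 := hclose x hx _ (hseg t ht)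
      rw [zero_smul, add_zero]
      linarith)
    have h0 : (0:ℝ) ∈ Icc (0:ℝ) 1 := by simp
    have h1 : (1:ℝ) ∈ Icc (0:ℝ) 1 := by simp
    have e0 := hd 0 h0 t ht
    have e1 := hd t ht 1 h1
    have e2 := hd 0 h0 1 h1
    rw [zero_smul, add_zero] at e0 e2
    rw [one_smul, add_sub_cancel] at e1 e2
    rw [e0, e1, e2]
    rcases hm with hm | hm
    · have m1 := hm.monotoneOn h0 ht ht.1
      have m2 := hm.monotoneOn ht h1 ht.2
      rw [abs_of_nonpos (by linarith), abs_of_nonpos (by linarith), abs_of_nonpos (by linarith)]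
      ring
    · have m1 := hm.antitoneOn h0 ht ht.1
      have m2 := hm.antitoneOn ht h1 ht.2
      rw [abs_of_nonneg (by linarith), abs_of_nonneg (by linarith), abs_of_nonneg (by linarith)]
      ring

end

end Pool.Agent.H81
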