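import Pool.Agent.H81.Ell

open Set Filter Topology Real MeasureTheory

namespace Pool.Agent.H81

variable {F D : E3 → E3 → ℝ}

lemma comb_ne {X V : E3} (hXV : LinearIndependent ℝ ![X, V]) (α : ℝ) {β : ℝ} (hβ : β ≠ 0) :
    α • X + β • V ≠ 0 := by
  intro h0
  exact hβ (pair_iff.1 hXV α β h0).2

/-- gradient of the distance from a far point -/
theorem grad (hP : HPlane D) (hF : HFinsler F D) (A : Cht) {y v : ℝ × ℝ} (hv : v ≠ 0) {h : ℝ}
    {g : ℝ → E3} (l : LineP D (A (y, 1)) (A (v, 0)) h g) {α β : ℝ} (hβ : β ≠ 0)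
    (hlt : D (α • A (y, 1) + β • A (v, 0)) (A (y, 1)) < h) :
    ∃ σ : ℝ, (σ = 1 ∨ σ = -1) ∧
      HasFDerivAt (fun y' => D (α • A (y, 1) + β • A (v, 0)) (A (y', 1)))
        (σ • pvL (FA F A) y v) y := by
  have hO : α • A (y, 1) + β • A (v, 0) ≠ 0 := comb_ne (A_pair A y hv) α hβ
  obtain ⟨ρ, hρ, hL⟩ := exists_locGeo hP hF A y
  have hyW : y ∈ Metric.ball y ρ := Metric.mem_ball_self hρ
  obtain ⟨s1, c1, hc1⟩ := l.exists_param (α := 1) (β := 0) (by
    rw [one_smul, zero_smul, add_zero]; exact A_ne A y)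
  rw [one_smul, zero_smul, add_zero] at hc1
  obtain ⟨s0, hs0, c0, hc0⟩ := l.surj s1 α β hO
  have hDO : D (α • A (y, 1) + β • A (v, 0)) (A (y, 1)) = |s0 - s1| :=
    l.dist_eq hP hO (A_ne A y) hc0 hc1 hs0
  have hpos : 0 < |s0 - s1| := by
    rcases (abs_nonneg (s0 - s1)).lt_or_eq with h1 | h1
    · exact h1
    · exfalso
      rw [← h1] at hDO
      obtain ⟨c, hc⟩ := hP.zero _ _ hO (A_ne A y) hDO
      have : (c * α - 1) • A (y, 1) + (c * β) • A (v, 0) = 0 := by
        have h2 : c • (α • A (y, 1) + β • A (v, 0)) - A (y, 1) = 0 := by rw [← hc, sub_self]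
        rw [← h2, smul_add, smul_smul, smul_smul, sub_smul, one_smul]; abel
      have h3 := pair_iff.1 (A_pair A y hv) _ _ this
      have hc0 : c = 0 := (mul_eq_zero.1 h3.2).resolve_right hβ
      rw [hc0] at h3
      have := h3.1
      norm_num at this
  rw [hDO] at hlt
  set O := α • A (y, 1) + β • A (v, 0) with hOdef
  -- small interval
  set η := min (h / 2) (min (h - |s0 - s1|) |s0 - s1|) with hη
  have hηpos : 0 < η := lt_min (by linarith [l.hpos]) (lt_min (by linarith) hpos)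
  have hct : Continuous (fun t : ℝ => DA D A y (y + t • v)) := by
    have c2 : Continuous fun t : ℝ => ((y, y + t • v) : (ℝ × ℝ) × (ℝ × ℝ)) := by fun_prop
    exact (hP.DA_cont A).comp c2
  have hev : ∀ᶠ t in 𝓝 (0:ℝ), DA D A y (y + t • v) < η := by
    apply hct.continuousAt.eventually_lt_const
    change DA D A y (y + (0:ℝ) • v) < η
    rw [zero_smul, add_zero, hP.DA_self]; exact hηpos
  rw [Metric.eventually_nhds_iff] at hev
  obtain ⟨r, hr, hrb⟩ := hev
  set t1 := r / 2 with ht1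
  have ht1pos : 0 < t1 := by positivity
  have hsm : ∀ t ∈ Icc (-t1) t1, DA D A y (y + t • v) < η := by
    intro t ht
    apply hrb
    rw [Real.dist_eq, sub_zero, abs_lt]
    constructor <;> linarith [ht.1, ht.2]
  obtain ⟨φ, hφ1, hφ2, hφ3, -, hφm⟩ := coord hP A hv l (a := -t1) (b := t1) (ts := 0)
    (by linarith) (by rw [zero_smul, add_zero]; exact hc1) (by
      intro t ht
      rw [zero_smul, add_zero]
      exact (hsm t ht).trans_le (min_le_left _ _))
  simp only [zero_smul, add_zero] at hφ2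
  have h0mem : (0:ℝ) ∈ Icc (-t1) t1 := ⟨by linarith, ht1pos.le⟩
  have hφ0 : φ 0 = s1 := by
    have := hφ2 0 h0mem
    rw [zero_smul, add_zero, hP.DA_self, abs_eq_zero] at this
    linarith
  have hφs : ∀ t ∈ Icc (-t1) t1, |φ t - s1| < h - |s0 - s1| ∧ |φ t - s1| < |s0 - s1| := by
    intro t ht
    have h1 := hsm t ht
    rw [← hφ2 t ht] at h1
    exact ⟨h1.trans_le ((min_le_right _ _).trans (min_le_left _ _)),
      h1.trans_le ((min_le_right _ _).trans (min_le_right _ _))⟩
  have hψ : ∀ t ∈ Icc (-t1) t1, D O (A (y + t • v, 1)) = |s0 - φ t| := by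
    intro t ht
    obtain ⟨c, hc⟩ := hφ1 t ht
    apply l.dist_eq hP hO (A_ne A _) hc0 hc
    have h1 := (hφs t ht).1
    have h2 : |s0 - φ t| ≤ |s0 - s1| + |s1 - φ t| := abs_sub_le _ _ _
    rw [abs_sub_comm s1 (φ t)] at h2
    linarith
  -- the sign
  have hsign : ∃ σ : ℝ, (σ = 1 ∨ σ = -1) ∧ ∀ t ∈ Icc (0:ℝ) t1,
      D O (A (y + (σ * t) • v, 1)) = D O (A (y, 1)) + DA D A y (y + (σ * t) • v) ∧
      D O (A (y + (-(σ * t)) • v, 1)) = D O (A (y, 1)) - DA D A y (y + (-(σ * t)) • v) := by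
    rw [hDO]
    rcases lt_or_gt_of_ne (abs_pos.1 hpos) with hs | hs
    · -- s0 < s1
      rw [abs_of_neg hs]
      have hval : ∀ t ∈ Icc (-t1) t1, D O (A (y + t • v, 1)) = φ t - s0 := by
        intro t ht
        rw [hψ t ht]
        have := (hφs t ht).2
        rw [abs_of_neg hs] at this
        have h1 := (abs_lt.1 this).1
        rw [abs_of_nonpos (by linarith)]; ring
      rcases hφm with hm | hm
      · refine ⟨1, Or.inl rfl, ?_⟩
        intro t ht
        have m1 : t ∈ Icc (-t1) t1 := ⟨by linarith [ht.1], ht.2⟩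
        have m2 : -t ∈ Icc (-t1) t1 := ⟨by linarith [ht.2], by linarith [ht.1]⟩
        rw [one_mul, hval t m1, hval (-t) m2, ← hφ2 t m1, ← hφ2 (-t) m2]
        have k1 := hm.monotoneOn h0mem m1 ht.1
        have k2 := hm.monotoneOn m2 h0mem (by linarith [ht.1] : -t ≤ 0)
        rw [hφ0] at k1 k2
        rw [abs_of_nonneg (by linarith), abs_of_nonpos (by linarith)]
        constructor <;> ring
      · refine ⟨-1, Or.inr rfl, ?_⟩
        intro t ht
        have m1 : t ∈ Icc (-t1) t1 := ⟨by linarith [ht.1], ht.2⟩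
        have m2 : -t ∈ Icc (-t1) t1 := ⟨by linarith [ht.2], by linarith [ht.1]⟩
        rw [neg_one_mul, neg_neg, hval t m1, hval (-t) m2, ← hφ2 t m1, ← hφ2 (-t) m2]
        have k1 := hm.antitoneOn h0mem m1 ht.1
        have k2 := hm.antitoneOn m2 h0mem (by linarith [ht.1] : -t ≤ 0)
        rw [hφ0] at k1 k2
        rw [abs_of_nonneg (by linarith), abs_of_nonpos (by linarith)]
        constructor <;> ring
    · -- s1 < s0
      rw [abs_of_pos hs]
      have hval : ∀ t ∈ Icc (-t1) t1, D O (A (y + t • v, 1)) = s0 - φ t := by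
        intro t ht
        rw [hψ t ht]
        have := (hφs t ht).2
        rw [abs_of_pos hs] at this
        have h1 := (abs_lt.1 this).2
        rw [abs_of_nonneg (by linarith)]
      rcases hφm with hm | hm
      · refine ⟨-1, Or.inr rfl, ?_⟩
        intro t ht
        have m1 : t ∈ Icc (-t1) t1 := ⟨by linarith [ht.1], ht.2⟩
        have m2 : -t ∈ Icc (-t1) t1 := ⟨by linarith [ht.2], by linarith [ht.1]⟩
        rw [neg_one_mul, neg_neg, hval t m1, hval (-t) m2, ← hφ2 t m1, ← hφ2 (-t) m2]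
        have k1 := hm.monotoneOn h0mem m1 ht.1
        have k2 := hm.monotoneOn m2 h0mem (by linarith [ht.1] : -t ≤ 0)
        rw [hφ0] at k1 k2
        rw [abs_of_nonpos (by linarith), abs_of_nonneg (by linarith)]
        constructor <;> ring
      · refine ⟨1, Or.inl rfl, ?_⟩
        intro t ht
        have m1 : t ∈ Icc (-t1) t1 := ⟨by linarith [ht.1], ht.2⟩
        have m2 : -t ∈ Icc (-t1) t1 := ⟨by linarith [ht.2], by linarith [ht.1]⟩
        rw [one_mul, hval t m1, hval (-t) m2, ← hφ2 t m1, ← hφ2 (-t) m2]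
        have k1 := hm.antitoneOn h0mem m1 ht.1
        have k2 := hm.antitoneOn m2 h0mem (by linarith [ht.1] : -t ≤ 0)
        rw [hφ0] at k1 k2
        rw [abs_of_nonpos (by linarith), abs_of_nonneg (by linarith)]
        constructor <;> ring
  obtain ⟨σ, hσ, hσt⟩ := hsign
  refine ⟨σ, hσ, ?_⟩
  have hσ0 : σ ≠ 0 := by rcases hσ with h1 | h1 <;> rw [h1] <;> norm_num
  have hσv : σ • v ≠ 0 := smul_ne_zero hσ0 hv
  have hfin : HasFDerivAt (fun y' => D O (A (y', 1))) (pvL (FA F A) y (σ • v)) y := by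
    have hev1 : ∀ᶠ s in 𝓝[>] (0:ℝ), s ∈ Icc (0:ℝ) t1 := by
      filter_upwards [nhdsWithin_le_nhds (gt_mem_nhds ht1pos), self_mem_nhdsWithin] with s h1 h2
      exact ⟨le_of_lt h2, h1.le⟩
    apply hL.hasFDerivAt_of_sandwich hyW hσv
    · filter_upwards [hev1] with s hs
      apply Eventually.of_forall
      intro y'
      have e1 : y - s • (σ • v) = y + (-(σ * s)) • v := by
        rw [smul_smul, neg_smul, mul_comm s σ]; abel
      rw [e1]
      have k1 := (hσt s hs).2
      have k2 := hP.tri O (A (y + (-(σ * s)) • v, 1)) (A (y', 1)) hO (A_ne A _) (A_ne A _)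
      have k3 := hP.DA_symm A (y + (-(σ * s)) • v) y
      change D O (A (y', 1)) ≤ D O (A (y, 1)) - DA D A (y + (-(σ * s)) • v) y
        + D (A (y + (-(σ * s)) • v, 1)) (A (y', 1))
      linarith
    · filter_upwards [hev1] with s hs
      apply Eventually.of_forall
      intro y'
      have e1 : y + s • (σ • v) = y + (σ * s) • v := by
        rw [smul_smul, mul_comm s σ]
      rw [e1]
      have k1 := (hσt s hs).1
      have k2 := hP.tri O (A (y', 1)) (A (y + (σ * s) • v, 1)) hO (A_ne A _) (A_ne A _)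
      change D O (A (y, 1)) + DA D A y (y + (σ * s) • v) ≤ D O (A (y', 1))
        + D (A (y', 1)) (A (y + (σ * s) • v, 1))
      linarith
  have heq : pvL (FA F A) y (σ • v) = σ • pvL (FA F A) y v := by
    apply ContinuousLinearMap.ext
    intro w
    change pv (FA F A) y (σ • v) w = σ * pv (FA F A) y v w
    rcases hσ with h1 | h1
    · rw [h1, one_smul, one_mul]
    · rw [h1, neg_one_smul, neg_one_mul]
      exact (hF.freg A).pv_neg_dir (mem_univ y) hv w
  rw [← heq]
  exact hfin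

end Pool.Agent.H81
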