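import Pool.Agent.H81.Transport

open Set Filter Topology Real MeasureTheory

namespace Pool.Agent.H81

namespace SCNorm

variable {N : ℝ × ℝ → ℝ}

lemma zero (h : SCNorm N) : N 0 = 0 := by
  have := h.hom 0 0; simpa using this

lemma nonneg (h : SCNorm N) (v : ℝ × ℝ) : 0 ≤ N v := by
  by_cases hv : v = 0
  · rw [hv, h.zero]
  · exact (h.pos v hv).le

lemma tri (h : SCNorm N) (v w : ℝ × ℝ) : N (v + w) ≤ N v + N w := by
  by_cases hc : cr v w = 0
  · by_cases hv : v = 0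
    · rw [hv, h.zero, zero_add, zero_add]
    · obtain ⟨c, rfl⟩ := eq_zero_of_cr hv hc
      have e1 : v + c • v = (1 + c) • v := by rw [add_smul, one_smul]
      rw [e1, h.hom, h.hom]
      have := abs_add_le 1 c
      rw [abs_one] at this
      nlinarith [h.nonneg v]
  · exact (h.strict v w hc).le

lemma neg (h : SCNorm N) (v : ℝ × ℝ) : N (-v) = N v := by
  have := h.hom (-1) v; simpa using this

end SCNorm

namespace FReg

variable {M : Set (ℝ × ℝ)} {F : ℝ × ℝ → ℝ × ℝ → ℝ}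

/-- two sided bound on a small ball -/
lemma local_bounds (h : FReg M F) {x : ℝ × ℝ} (hx : x ∈ M) :
    ∃ R > 0, Metric.closedBall x R ⊆ M ∧ ∃ m > 0, ∃ C > 0, ∀ y ∈ Metric.closedBall x R, ∀ w,
      m * ‖w‖ ≤ F y w ∧ F y w ≤ C * ‖w‖ := by
  obtain ⟨R, hR, hRM⟩ := Metric.nhds_basis_closedBall.mem_iff.1 (h.isOpen.mem_nhds hx)
  refine ⟨R, hR, hRM, ?_⟩
  have hK : IsCompact (Metric.closedBall x R ×ˢ Metric.sphere (0 : ℝ × ℝ) 1) :=
    (isCompact_closedBall x R).prod (isCompact_sphere 0 1)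
  have hne : (Metric.closedBall x R ×ˢ Metric.sphere (0 : ℝ × ℝ) 1).Nonempty := by
    refine ⟨(x, (1, 0)), Metric.mem_closedBall_self hR.le, ?_⟩
    simp [Prod.norm_def]
  have hsub : Metric.closedBall x R ×ˢ Metric.sphere (0 : ℝ × ℝ) 1 ⊆ M ×ˢ {v | v ≠ 0} := by
    rintro ⟨y, w⟩ ⟨hy, hw⟩
    refine ⟨hRM hy, ?_⟩
    intro h0
    have h0 : w = 0 := h0
    simp [h0] at hw
  have hc : ContinuousOn (Fu F) (Metric.closedBall x R ×ˢ Metric.sphere (0 : ℝ × ℝ) 1) :=
    h.smooth.continuousOn.mono hsub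
  obtain ⟨q1, hq1, hmin⟩ := hK.exists_isMinOn hne hc
  obtain ⟨q2, hq2, hmax⟩ := hK.exists_isMaxOn hne hc
  refine ⟨Fu F q1, h.pos _ (hsub hq1).1 _ (hsub hq1).2, Fu F q2,
    h.pos _ (hsub hq2).1 _ (hsub hq2).2, ?_⟩
  intro y hy w
  by_cases hw : w = 0
  · have : F y 0 = 0 := by
      have := h.hom y (hRM hy) 0 0; simpa using this
    rw [hw, this]; simp
  · have hwn : 0 < ‖w‖ := norm_pos_iff.2 hw
    have hmem : (y, ‖w‖⁻¹ • w) ∈ Metric.closedBall x R ×ˢ Metric.sphere (0 : ℝ × ℝ) 1 := by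
      refine ⟨hy, ?_⟩
      simp [norm_smul, hwn.ne']
    have e1 : F y w = ‖w‖ * F y (‖w‖⁻¹ • w) := by
      rw [h.hom y (hRM hy), abs_of_pos (inv_pos.2 hwn)]
      field_simp
    have e2 : Fu F q1 ≤ F y (‖w‖⁻¹ • w) := hmin hmem
    have e3 : F y (‖w‖⁻¹ • w) ≤ Fu F q2 := hmax hmem
    rw [e1]
    constructor
    · rw [mul_comm]; gcongr
    · rw [mul_comm]; gcongr

lemma cont (h : FReg M F) : ContinuousOn (Fu F) (M ×ˢ univ) := by
  rintro ⟨x, v⟩ ⟨hx, -⟩
  by_cases hv : v = 0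
  · subst hv
    obtain ⟨R, hR, hRM, m, hm, C, hC, hb⟩ := h.local_bounds hx
    apply ContinuousAt.continuousWithinAt
    have h0 : Fu F (x, 0) = 0 := by
      have := h.hom x hx 0 0; simpa [Fu] using this
    rw [Metric.continuousAt_iff]
    intro ε hε
    refine ⟨min R (ε / C), lt_min hR (div_pos hε hC), ?_⟩
    rintro ⟨y, w⟩ hyw
    rw [h0, Real.dist_eq, sub_zero]
    rw [Prod.dist_eq] at hyw
    have h1 : dist y x < min R (ε / C) := lt_of_le_of_lt (le_max_left _ _) hyw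
    have h2 : dist w 0 < min R (ε / C) := lt_of_le_of_lt (le_max_right _ _) hyw
    rw [dist_zero_right] at h2
    have hy : y ∈ Metric.closedBall x R := (h1.trans_le (min_le_left _ _)).le
    obtain ⟨b1, b2⟩ := hb y hy w
    have h3 : ‖w‖ < ε / C := h2.trans_le (min_le_right _ _)
    have h4 : C * ‖w‖ < ε := by
      rw [lt_div_iff₀ hC] at h3; linarith
    have h5 : 0 ≤ m * ‖w‖ := by positivity
    change |F y w| < ε
    rw [abs_of_nonneg (h5.trans b1)]
    linarith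
  · exact ((h.cda hx hv).continuousAt).continuousWithinAt

/-- subgradient inequality -/
lemma pv_le (h : FReg M F) {x v w : ℝ × ℝ} (hx : x ∈ M) (hN : SCNorm (F x)) (hv : v ≠ 0) :
    pv F x v w ≤ F x w := by
  have h1 : HasDerivAt (fun s : ℝ => v + s • w) w 0 := by
    simpa using ((hasDerivAt_id (0:ℝ)).smul_const w).const_add v
  have h2 := h.hasDerivAt_F_curve hx h1 (by simpa using hv)
  have h2' : HasDerivAt (fun s : ℝ => F x (v + s • w)) (pv F x v w) 0 := by simpa using h2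
  have h3 := h2'.tendsto_slope_zero_right
  apply le_of_tendsto h3
  filter_upwards [self_mem_nhdsWithin] with s hs
  have hs : (0:ℝ) < s := hs
  have e1 := hN.tri v (s • w)
  rw [hN.hom, abs_of_pos hs] at e1
  simp only [zero_add, zero_smul, add_zero, smul_eq_mul]
  rw [inv_mul_le_iff₀ hs]
  linarith

/-- length of a `C^1` curve -/
noncomputable def len (F : ℝ × ℝ → ℝ × ℝ → ℝ) (γ : ℝ → ℝ × ℝ) : ℝ :=
  ∫ t in (0:ℝ)..1, F (γ t) (deriv γ t)

lemma cont_integrand (h : FReg M F) {γ : ℝ → ℝ × ℝ} (hγ : ContDiff ℝ 1 γ)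
    (hM : ∀ t ∈ Icc (0:ℝ) 1, γ t ∈ M) :
    ContinuousOn (fun t => F (γ t) (deriv γ t)) (Icc 0 1) := by
  have c1 : Continuous fun t => ((γ t, deriv γ t) : (ℝ × ℝ) × (ℝ × ℝ)) :=
    hγ.continuous.prodMk (hγ.continuous_deriv (by norm_num))
  exact h.cont.comp c1.continuousOn (fun t ht => ⟨hM t ht, mem_univ _⟩)

lemma len_lower (h : FReg M F) {x : ℝ × ℝ} (hx : x ∈ M) (hN : ∀ x ∈ M, SCNorm (F x)) {v : ℝ × ℝ}
    (hv : v ≠ 0) {ε : ℝ} (hε : 0 < ε) :
    ∃ t0 > 0, ∀ t, 0 < t → t < t0 → ∀ γ : ℝ → ℝ × ℝ, ContDiff ℝ 1 γ →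
      (∀ t ∈ Icc (0:ℝ) 1, γ t ∈ M) → γ 0 = x → γ 1 = x + t • v →
      t * F x v ≤ (1 + ε) * len F γ := by
  obtain ⟨R, hR, hRM, m, hm, C, hC, hb⟩ := h.local_bounds hx
  -- uniform continuity
  have hK : IsCompact (Metric.closedBall x R ×ˢ Metric.sphere (0 : ℝ × ℝ) 1) :=
    (isCompact_closedBall x R).prod (isCompact_sphere 0 1)
  have hc : ContinuousOn (Fu F) (Metric.closedBall x R ×ˢ Metric.sphere (0 : ℝ × ℝ) 1) :=
    h.cont.mono (fun q hq => ⟨hRM hq.1, mem_univ _⟩)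
  have huc := hK.uniformContinuousOn_of_continuous hc
  rw [Metric.uniformContinuousOn_iff] at huc
  obtain ⟨δ, hδ, hδ2⟩ := huc (ε * m) (mul_pos hε hm)
  set R' := min R (δ / 2) with hR'
  have hR'pos : 0 < R' := lt_min hR (by linarith)
  have hclose : ∀ y ∈ Metric.closedBall x R', ∀ w, F x w ≤ F y w + ε * m * ‖w‖ := by
    intro y hy w
    have hyR : y ∈ Metric.closedBall x R := Metric.closedBall_subset_closedBall (min_le_left _ _) hy
    by_cases hw : w = 0
    · have e1 : F y 0 = 0 := (hN y (hRM hyR)).zero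
      have e2 : F x 0 = 0 := (hN x hx).zero
      rw [hw, e1, e2]; simp
    · have hwn : 0 < ‖w‖ := norm_pos_iff.2 hw
      have hws : ‖w‖⁻¹ • w ∈ Metric.sphere (0 : ℝ × ℝ) 1 := by simp [norm_smul, hwn.ne']
      have hd : dist ((x, ‖w‖⁻¹ • w) : (ℝ × ℝ) × (ℝ × ℝ)) (y, ‖w‖⁻¹ • w) < δ := by
        rw [Prod.dist_eq, dist_self]
        have : dist x y ≤ R' := by rw [dist_comm]; exact hy
        have h2 : R' ≤ δ / 2 := min_le_right _ _
        apply max_lt <;> linarith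
      have h3 := hδ2 _ (⟨Metric.mem_closedBall_self hR.le, hws⟩ :
        (x, ‖w‖⁻¹ • w) ∈ Metric.closedBall x R ×ˢ Metric.sphere (0 : ℝ × ℝ) 1) _
        (⟨hyR, hws⟩ : (y, ‖w‖⁻¹ • w) ∈ Metric.closedBall x R ×ˢ Metric.sphere (0 : ℝ × ℝ) 1) hd
      rw [Real.dist_eq] at h3
      have h4 := (abs_lt.1 h3).2
      have h4' : F x (‖w‖⁻¹ • w) - F y (‖w‖⁻¹ • w) < ε * m := h4
      rw [h.hom x hx, h.hom y (hRM hyR), abs_of_pos (inv_pos.2 hwn)] at h4'
      have h5 : ‖w‖ * (‖w‖⁻¹ * F x w - ‖w‖⁻¹ * F y w) < ‖w‖ * (ε * m) := by gcongr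
      have h6 : ‖w‖ * (‖w‖⁻¹ * F x w - ‖w‖⁻¹ * F y w) = F x w - F y w := by
        field_simp
      rw [h6] at h5
      linarith
  have hFv := h.pos x hx v hv
  refine ⟨m * R' / F x v, by positivity, ?_⟩
  intro t ht htt γ hγ hγM hγ0 hγ1
  have hint := (h.cont_integrand hγ hγM)
  have hii : ∀ a b, a ∈ Icc (0:ℝ) 1 → b ∈ Icc (0:ℝ) 1 →
      IntervalIntegrable (fun t => F (γ t) (deriv γ t)) volume a b := by
    intro a b ha hb
    apply ContinuousOn.intervalIntegrable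
    apply hint.mono
    exact (convex_Icc (0:ℝ) 1).ordConnected.uIcc_subset ha hb
  have hγd : ∀ t, HasDerivAt γ (deriv γ t) t := fun t =>
    ((hγ.differentiable (by norm_num)) t).hasDerivAt
  have hdc : Continuous (deriv γ) := hγ.continuous_deriv (by norm_num)
  have hnn : ∀ t ∈ Icc (0:ℝ) 1, 0 ≤ F (γ t) (deriv γ t) := fun t ht =>
    (hN _ (hγM t ht)).nonneg _
  have hlen0 : 0 ≤ len F γ := intervalIntegral.integral_nonneg zero_le_one hnn
  by_cases hstay : ∀ τ ∈ Icc (0:ℝ) 1, γ τ ∈ Metric.closedBall x R'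
  · -- the curve stays in the small ball
    have e1 : t * F x v = ∫ τ in (0:ℝ)..1, pv F x v (deriv γ τ) := by
      have e2 : ∫ τ in (0:ℝ)..1, pv F x v (deriv γ τ) = pv F x v (γ 1) - pv F x v (γ 0) := by
        apply intervalIntegral.integral_eq_sub_of_hasDerivAt (f := fun τ => pv F x v (γ τ))
        · intro τ _
          have : HasDerivAt (fun τ => dF F (x, v) (0, γ τ)) (dF F (x, v) (0, deriv γ τ)) τ := by
            have h1 : HasDerivAt (fun s => (((0 : ℝ × ℝ), γ s) : (ℝ × ℝ) × (ℝ × ℝ)))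
              (0, deriv γ τ) τ := (hasDerivAt_const τ (0 : ℝ × ℝ)).prodMk (hγd τ)
            exact (dF F (x, v)).hasFDerivAt.comp_hasDerivAt τ h1
          exact this
        · apply Continuous.intervalIntegrable
          exact (dF F (x, v)).continuous.comp (continuous_const.prodMk hdc)
      rw [e2, hγ1, hγ0, pv_add, pv_smul, h.pv_self hx hv]; ring
    rw [e1, len, ← intervalIntegral.integral_const_mul]
    apply intervalIntegral.integral_mono_on zero_le_one
    · apply Continuous.intervalIntegrable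
      exact (dF F (x, v)).continuous.comp (continuous_const.prodMk hdc)
    · exact (hii 0 1 (by simp) (by simp)).const_mul _
    · intro τ hτ
      have b0 := h.pv_le (w := deriv γ τ) hx (hN x hx) hv
      have b1 := hclose _ (hstay τ hτ) (deriv γ τ)
      have b2 := (hb _ (Metric.closedBall_subset_closedBall (min_le_left _ _) (hstay τ hτ))
        (deriv γ τ)).1
      have b3 : ε * m * ‖deriv γ τ‖ ≤ ε * F (γ τ) (deriv γ τ) := by
        rw [mul_assoc]; gcongr
      linarith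
  · -- the curve leaves the ball
    push Not at hstay
    obtain ⟨τ1, hτ1, hout⟩ := hstay
    have hcn : Continuous fun τ => ‖γ τ - x‖ := (hγ.continuous.sub continuous_const).norm
    set S : Set ℝ := Icc (0:ℝ) 1 ∩ {τ | R' ≤ ‖γ τ - x‖} with hS
    have hScomp : IsCompact S := isCompact_Icc.inter_right (isClosed_le continuous_const hcn)
    have hSne : S.Nonempty := by
      refine ⟨τ1, hτ1, ?_⟩
      simp only [Metric.mem_closedBall, not_le, dist_eq_norm] at hout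
      exact hout.le
    obtain ⟨τ0, hτ0, hmin⟩ := hScomp.exists_isLeast hSne
    have hin : ∀ τ ∈ Icc (0:ℝ) τ0, γ τ ∈ Metric.closedBall x R' := by
      intro τ hτ
      rw [Metric.mem_closedBall, dist_eq_norm]
      rcases hτ.2.lt_or_eq with hlt | heq
      · by_contra hcon
        have : τ ∈ S := ⟨⟨hτ.1, hτ.2.trans hτ0.1.2⟩, (not_le.1 hcon).le⟩
        exact absurd (hmin this) (not_le.2 hlt)
      · -- by continuity from the left
        rw [heq]
        by_contra hcon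
        have hcon : R' < ‖γ τ0 - x‖ := not_le.1 hcon
        have h0lt : 0 < τ0 := by
          rcases hτ0.1.1.lt_or_eq with h1 | h1
          · exact h1
          · rw [← h1, hγ0] at hcon; simp at hcon; linarith
        have hev : ∀ᶠ τ in 𝓝 τ0, R' < ‖γ τ - x‖ := hcn.continuousAt.eventually_const_lt hcon
        have hev2 : ∀ᶠ τ in 𝓝[<] τ0, R' < ‖γ τ - x‖ ∧ 0 < τ ∧ τ < τ0 := by
          filter_upwards [nhdsWithin_le_nhds hev, nhdsWithin_le_nhds (lt_mem_nhds h0lt),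
            self_mem_nhdsWithin] with s h1 h2 h3 using ⟨h1, h2, h3⟩
        obtain ⟨s, h1, h2, h3⟩ := hev2.exists
        have : s ∈ S := ⟨⟨h2.le, h3.le.trans hτ0.1.2⟩, h1.le⟩
        exact absurd (hmin this) (not_le.2 h3)
    have hR'le : R' ≤ ‖γ τ0 - x‖ := hτ0.2
    have hlen1 : ∫ τ in (0:ℝ)..τ0, F (γ τ) (deriv γ τ) ≤ len F γ := by
      have h0mem : (0:ℝ) ∈ Icc (0:ℝ) 1 := by simp
      have h1mem : (1:ℝ) ∈ Icc (0:ℝ) 1 := by simp
      have := intervalIntegral.integral_add_adjacent_intervals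
        (hii 0 τ0 h0mem hτ0.1) (hii τ0 1 hτ0.1 h1mem)
      rw [len, ← this]
      have h3 : 0 ≤ ∫ τ in τ0..1, F (γ τ) (deriv γ τ) :=
        intervalIntegral.integral_nonneg hτ0.1.2 (fun τ hτ => hnn τ ⟨hτ0.1.1.trans hτ.1, hτ.2⟩)
      linarith
    have hlen2 : m * ‖γ τ0 - x‖ ≤ ∫ τ in (0:ℝ)..τ0, F (γ τ) (deriv γ τ) := by
      have e2 : ∫ τ in (0:ℝ)..τ0, deriv γ τ = γ τ0 - γ 0 := by
        apply intervalIntegral.integral_eq_sub_of_hasDerivAt
        · intro τ _; exact hγd τ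
        · exact hdc.intervalIntegrable _ _
      rw [hγ0] at e2
      rw [← e2]
      have h3 : ‖∫ τ in (0:ℝ)..τ0, deriv γ τ‖ ≤ ∫ τ in (0:ℝ)..τ0, ‖deriv γ τ‖ :=
        intervalIntegral.norm_integral_le_integral_norm hτ0.1.1
      calc m * ‖∫ τ in (0:ℝ)..τ0, deriv γ τ‖ ≤ m * ∫ τ in (0:ℝ)..τ0, ‖deriv γ τ‖ := by gcongr
        _ = ∫ τ in (0:ℝ)..τ0, m * ‖deriv γ τ‖ := by
            rw [intervalIntegral.integral_const_mul]
        _ ≤ ∫ τ in (0:ℝ)..τ0, F (γ τ) (deriv γ τ) := by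
            apply intervalIntegral.integral_mono_on hτ0.1.1
            · exact (continuous_const.mul hdc.norm).intervalIntegrable _ _
            · exact hii 0 τ0 (by simp) hτ0.1
            · intro τ hτ
              exact (hb _ (Metric.closedBall_subset_closedBall (min_le_left _ _) (hin τ hτ)) _).1
    have h5 : t * F x v < m * R' := by
      rw [lt_div_iff₀ hFv] at htt; exact htt
    have h6 : m * R' ≤ m * ‖γ τ0 - x‖ := by gcongr
    have h7 : 0 ≤ ε * len F γ := by positivity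
    linarith

/-- The curve length structure determines `F`. -/
lemma lim_of_gen (h : FReg M F) (hN : ∀ x ∈ M, SCNorm (F x)) {d : ℝ × ℝ → ℝ × ℝ → ℝ}
    (hd : ∀ x ∈ M, ∀ y ∈ M, IsGLB {l | ∃ γ : ℝ → ℝ × ℝ, ContDiff ℝ 1 γ ∧
      (∀ t ∈ Icc (0:ℝ) 1, γ t ∈ M) ∧ γ 0 = x ∧ γ 1 = y ∧ l = len F γ} (d x y))
    {x : ℝ × ℝ} (hx : x ∈ M) {v : ℝ × ℝ} (hv : v ≠ 0) :
    Tendsto (fun t : ℝ => d x (x + t • v) / t) (𝓝[>] 0) (𝓝 (F x v)) := by
  have hFv := h.pos x hx v hv
  rw [Metric.tendsto_nhds]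
  intro ε hε
  -- lower bound with ε' such that F/(1+ε') > F - ε
  set ε' := ε / (2 * F x v) with hε'
  have hε'pos : 0 < ε' := by positivity
  obtain ⟨t0, ht0, hlow⟩ := h.len_lower hx hN hv hε'pos
  -- upper bound
  have hcF : ContinuousAt (fun y => F y v) x := by
    have c1 : ContinuousAt (fun y : ℝ × ℝ => ((y, v) : (ℝ × ℝ) × (ℝ × ℝ))) x :=
      (continuous_id.prodMk continuous_const).continuousAt
    exact ContinuousAt.comp (f := fun y : ℝ × ℝ => ((y, v) : (ℝ × ℝ) × (ℝ × ℝ))) (g := Fu F)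
      (h.cda hx hv).continuousAt c1
  have hev : ∀ᶠ y in 𝓝 x, F y v < F x v + ε / 2 ∧ y ∈ M := by
    filter_upwards [hcF.eventually_lt_const (show F x v < F x v + ε / 2 by linarith),
      h.isOpen.mem_nhds hx] with y h1 h2 using ⟨h1, h2⟩
  rw [Metric.eventually_nhds_iff_ball] at hev
  obtain ⟨ρ, hρ, hball⟩ := hev
  have hvn : 0 < ‖v‖ := norm_pos_iff.2 hv
  have hev2 : ∀ᶠ t in 𝓝[>] (0:ℝ), 0 < t ∧ t < t0 ∧ t * ‖v‖ < ρ := by
    have h1 : ∀ᶠ t in 𝓝[>] (0:ℝ), t < min t0 (ρ / ‖v‖) :=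
      nhdsWithin_le_nhds (gt_mem_nhds (lt_min ht0 (by positivity)))
    filter_upwards [h1, self_mem_nhdsWithin] with t h1 h2
    refine ⟨h2, h1.trans_le (min_le_left _ _), ?_⟩
    have := h1.trans_le (min_le_right _ _)
    rwa [lt_div_iff₀ hvn] at this
  filter_upwards [hev2] with t ⟨ht, htt0, htρ⟩
  have hseg : ∀ τ ∈ Icc (0:ℝ) 1, x + τ • (t • v) ∈ Metric.ball x ρ := by
    intro τ hτ
    rw [Metric.mem_ball, dist_eq_norm, add_sub_cancel_left, norm_smul, norm_smul, Real.norm_eq_abs,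
      Real.norm_eq_abs, abs_of_nonneg hτ.1, abs_of_pos ht]
    calc τ * (t * ‖v‖) ≤ 1 * (t * ‖v‖) := by
          apply mul_le_mul_of_nonneg_right hτ.2; positivity
      _ < ρ := by linarith
  have hy : x + t • v ∈ M := by
    have := (hball _ (hseg 1 (by simp))).2
    simpa using this
  -- the segment
  set γ : ℝ → ℝ × ℝ := fun τ => x + τ • (t • v) with hγ
  have hγC : ContDiff ℝ 1 γ := by
    simp only [hγ]; fun_prop
  have hγd : ∀ τ, deriv γ τ = t • v := by
    intro τ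
    have : HasDerivAt γ ((1:ℝ) • (t • v)) τ := ((hasDerivAt_id τ).smul_const (t • v)).const_add x
    rw [one_smul] at this
    exact this.deriv
  have hγM : ∀ τ ∈ Icc (0:ℝ) 1, γ τ ∈ M := fun τ hτ => (hball _ (hseg τ hτ)).2
  have hlenγ : len F γ ≤ t * (F x v + ε / 2) := by
    have h1 : len F γ ≤ ∫ τ in (0:ℝ)..1, t * (F x v + ε / 2) := by
      rw [len]
      apply intervalIntegral.integral_mono_on zero_le_one
      · apply ContinuousOn.intervalIntegrable
        rw [uIcc_of_le zero_le_one]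
        exact h.cont_integrand hγC hγM
      · exact intervalIntegrable_const
      · intro τ hτ
        rw [hγd, h.hom _ (hγM τ hτ), abs_of_pos ht]
        have := (hball _ (hseg τ hτ)).1
        have h3 : F (γ τ) v ≤ F x v + ε / 2 := this.le
        gcongr
    simpa using h1
  have hglb := hd x hx (x + t • v) hy
  have hup : d x (x + t • v) ≤ t * (F x v + ε / 2) :=
    (hglb.1 ⟨γ, hγC, hγM, by simp [hγ], by simp [hγ], rfl⟩).trans hlenγ
  have hlo : t * F x v / (1 + ε') ≤ d x (x + t • v) := by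
    apply hglb.2
    rintro l ⟨c, hc, hcM, hc0, hc1, rfl⟩
    rw [div_le_iff₀ (by positivity)]
    have := hlow t ht htt0 c hc hcM hc0 hc1
    linarith
  rw [Real.dist_eq, abs_lt]
  constructor
  · have h1 : F x v / (1 + ε') ≤ d x (x + t • v) / t := by
      rw [le_div_iff₀ ht]
      calc F x v / (1 + ε') * t = t * F x v / (1 + ε') := by ring
        _ ≤ _ := hlo
    have h2 : F x v - ε < F x v / (1 + ε') := by
      rw [lt_div_iff₀ (by positivity)]
      have h3 : F x v * ε' = ε / 2 := by rw [hε']; field_simp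
      nlinarith
    linarith
  · have h1 : d x (x + t • v) / t ≤ F x v + ε / 2 := by
      rw [div_le_iff₀ ht]; linarith
    linarith

end FReg

end Pool.Agent.H81
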