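import Pool.Agent.H81.Length

open Set Filter Topology Real MeasureTheory

namespace Pool.Agent.H81

/-- derivative in the direction as a continuous linear map -/
noncomputable def pvL (F : ℝ × ℝ → ℝ × ℝ → ℝ) (x v : ℝ × ℝ) : ℝ × ℝ →L[ℝ] ℝ :=
  (dF F (x, v)).comp (ContinuousLinearMap.inr ℝ (ℝ × ℝ) (ℝ × ℝ))

lemma pvL_apply (F : ℝ × ℝ → ℝ × ℝ → ℝ) (x v w : ℝ × ℝ) : pvL F x v w = pv F x v w := rfl

/-- A region in which straight segments are shortest for `d`, with infinitesimal metric `F`. -/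
structure LocGeo (W : Set (ℝ × ℝ)) (F : ℝ × ℝ → ℝ × ℝ → ℝ) (d : ℝ × ℝ → ℝ × ℝ → ℝ) : Prop
    extends FReg W F where
  norm : ∀ x ∈ W, SCNorm (F x)
  conv : Convex ℝ W
  dself : ∀ x ∈ W, d x x = 0
  dsymm : ∀ x ∈ W, ∀ y ∈ W, d x y = d y x
  tri : ∀ x ∈ W, ∀ y ∈ W, ∀ z ∈ W, d x z ≤ d x y + d y z
  add : ∀ x ∈ W, ∀ y ∈ W, ∀ t ∈ Icc (0:ℝ) 1,
    d x y = d x (x + t • (y - x)) + d (x + t • (y - x)) y
  dcont : ContinuousOn (fun q : (ℝ × ℝ) × (ℝ × ℝ) => d q.1 q.2) (W ×ˢ W)
  lim : ∀ x ∈ W, ∀ v, v ≠ 0 → Tendsto (fun t : ℝ => d x (x + t • v) / t) (𝓝[>] 0) (𝓝 (F x v))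

namespace LocGeo

variable {W : Set (ℝ × ℝ)} {F : ℝ × ℝ → ℝ × ℝ → ℝ} {d : ℝ × ℝ → ℝ × ℝ → ℝ}

lemma seg (h : LocGeo W F d) {x y : ℝ × ℝ} (hx : x ∈ W) (hy : y ∈ W) {t : ℝ}
    (ht : t ∈ Icc (0:ℝ) 1) : x + t • (y - x) ∈ W := h.conv.add_smul_sub_mem hx hy ht

lemma d_eq (h : LocGeo W F d) {x y : ℝ × ℝ} (hx : x ∈ W) (hy : y ∈ W) :
    d x y = ∫ t in (0:ℝ)..1, F (x + t • (y - x)) (y - x) := by
  by_cases hxy : y - x = 0
  · have : y = x := sub_eq_zero.1 hxy
    subst this
    rw [h.dself y hx, sub_self]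
    have : ∀ t : ℝ, F (y + t • (0 : ℝ × ℝ)) 0 = 0 := by
      intro t; rw [smul_zero, add_zero]; exact (h.norm y hx).zero
    simp only [this]; simp
  · set v := y - x with hv
    set D : ℝ → ℝ := fun s => d x (x + s • v) with hD
    have hmem : ∀ s ∈ Icc (0:ℝ) 1, x + s • v ∈ W := fun s hs => h.seg hx hy hs
    have hDc : ContinuousOn D (Icc 0 1) := by
      have c1 : Continuous fun s : ℝ => ((x, x + s • v) : (ℝ × ℝ) × (ℝ × ℝ)) := by fun_prop
      exact h.dcont.comp c1.continuousOn (fun s hs => ⟨hx, hmem s hs⟩)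
    have hDd : ∀ s ∈ Ioo (0:ℝ) 1, HasDerivWithinAt D (F (x + s • v) v) (Ioi s) s := by
      intro s hs
      rw [hasDerivWithinAt_iff_tendsto_slope' (by simp)]
      have hl := h.lim _ (hmem s ⟨hs.1.le, hs.2.le⟩) v hxy
      have hl2 : Tendsto (fun u : ℝ => d (x + s • v) (x + s • v + (u - s) • v) / (u - s))
          (𝓝[>] s) (𝓝 (F (x + s • v) v)) := by
        have hm : Tendsto (fun u : ℝ => u - s) (𝓝[>] s) (𝓝[>] 0) := by
          rw [tendsto_nhdsWithin_iff]
          constructor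
          · have : Tendsto (fun u : ℝ => u - s) (𝓝 s) (𝓝 (s - s)) :=
              (continuous_id.sub continuous_const).tendsto s
            rw [sub_self] at this
            exact this.mono_left nhdsWithin_le_nhds
          · filter_upwards [self_mem_nhdsWithin] with u hu
            have : s < u := hu
            simp; exact this
        exact hl.comp hm
      apply hl2.congr'
      have hev : ∀ᶠ u in 𝓝[>] s, s < u ∧ u < 1 := by
        filter_upwards [self_mem_nhdsWithin, nhdsWithin_le_nhds (gt_mem_nhds hs.2)] with u h1 h2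
          using ⟨h1, h2⟩
      filter_upwards [hev] with u ⟨hsu, hu1⟩
      have hu0 : 0 < u := hs.1.trans hsu
      have hadd := h.add x hx (x + u • v) (hmem u ⟨hu0.le, hu1.le⟩) (s / u)
        ⟨div_nonneg hs.1.le hu0.le, by rw [div_le_one hu0]; exact hsu.le⟩
      have e1 : x + (s / u) • (x + u • v - x) = x + s • v := by
        rw [add_sub_cancel_left, smul_smul]
        congr 2; field_simp
      rw [e1] at hadd
      have e2 : x + s • v + (u - s) • v = x + u • v := by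
        rw [add_assoc, ← add_smul]; congr 2; ring
      rw [slope_def_field, e2]
      simp only [hD]
      rw [hadd]; ring
    have hii : IntervalIntegrable (fun s => F (x + s • v) v) volume 0 1 := by
      apply ContinuousOn.intervalIntegrable
      rw [uIcc_of_le zero_le_one]
      have c1 : Continuous fun s : ℝ => ((x + s • v, v) : (ℝ × ℝ) × (ℝ × ℝ)) := by fun_prop
      exact h.cont.comp c1.continuousOn (fun s hs => ⟨hmem s hs, mem_univ _⟩)
    have := intervalIntegral.integral_eq_sub_of_hasDeriv_right (f := D)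
      (f' := fun s => F (x + s • v) v) (a := 0) (b := 1) (by rwa [uIcc_of_le zero_le_one])
      (by simpa using hDd) hii
    rw [this]
    simp only [hD]
    have e1 : x + (1:ℝ) • v = y := by rw [one_smul, hv]; abel
    have e0 : x + (0:ℝ) • v = x := by rw [zero_smul, add_zero]
    rw [e1, e0, h.dself x hx, sub_zero]

lemma local_est (h : LocGeo W F d) {y v : ℝ × ℝ} (hy : y ∈ W) (hv : v ≠ 0) {ε : ℝ} (hε : 0 < ε) :
    ∃ s0 : ℝ, 0 < s0 ∧ ∀ s : ℝ, 0 < s → s < s0 → y - s • v ∈ W ∧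
      ∃ δ : ℝ, 0 < δ ∧ ∀ η : ℝ × ℝ, ‖η‖ < δ → y + η ∈ W ∧ d (y - s • v) (y + η) ≤ d (y - s • v) y + pv F y v η + ε * ‖η‖ := by
  have hstrict : HasStrictFDerivAt (Fu F) (dF F (y, v)) (y, v) :=
    (h.cda hy hv).hasStrictFDerivAt (by norm_num)
  have hlo := hstrict.isLittleO
  rw [Asymptotics.isLittleO_iff] at hlo
  have hlo := hlo (show 0 < ε / 2 by linarith)
  rw [Metric.eventually_nhds_iff_ball] at hlo
  obtain ⟨ρ, hρ, hball⟩ := hlo
  obtain ⟨R, hR, hRW⟩ := Metric.isOpen_iff.1 h.isOpen y hy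
  set B := ‖dF F (y, v)‖ with hB
  have hB0 : 0 ≤ B := norm_nonneg _
  have hvn : 0 < ‖v‖ := norm_pos_iff.2 hv
  refine ⟨min (min 1 (ε / (2 * (B + 1)))) (min (ρ / (2 * ‖v‖)) (R / (2 * ‖v‖))), by positivity, ?_⟩
  intro s hs hss
  have s1 : s < 1 := hss.trans_le ((min_le_left _ _).trans (min_le_left _ _))
  have s2 : s * B ≤ ε / 2 := by
    have : s < ε / (2 * (B + 1)) := hss.trans_le ((min_le_left _ _).trans (min_le_right _ _))
    rw [lt_div_iff₀ (by positivity)] at this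
    nlinarith
  have s3 : s * ‖v‖ < ρ / 2 := by
    have : s < ρ / (2 * ‖v‖) := hss.trans_le ((min_le_right _ _).trans (min_le_left _ _))
    rw [lt_div_iff₀ (by positivity)] at this
    linarith
  have s4 : s * ‖v‖ < R / 2 := by
    have : s < R / (2 * ‖v‖) := hss.trans_le ((min_le_right _ _).trans (min_le_right _ _))
    rw [lt_div_iff₀ (by positivity)] at this
    linarith
  have hq : y - s • v ∈ W := by
    apply hRW
    rw [Metric.mem_ball, dist_eq_norm, sub_sub_cancel_left, norm_neg, norm_smul, Real.norm_eq_abs,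
      abs_of_pos hs]
    linarith
  refine ⟨hq, min (s * (ρ / 2)) (R / 2), by positivity, ?_⟩
  intro η hη
  have n1 : ‖η‖ < s * (ρ / 2) := hη.trans_le (min_le_left _ _)
  have n2 : ‖η‖ < R / 2 := hη.trans_le (min_le_right _ _)
  have hyη : y + η ∈ W := by
    apply hRW
    rw [Metric.mem_ball, dist_eq_norm, add_sub_cancel_left]
    linarith
  refine ⟨hyη, ?_⟩
  set q := y - s • v with hqd
  have e1 : y - q = s • v := by rw [hqd]; abel
  have e2 : y + η - q = s • (v + s⁻¹ • η) := by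
    rw [hqd, smul_add, smul_smul, mul_inv_cancel₀ hs.ne', one_smul]; abel
  have n3 : ‖s⁻¹ • η‖ < ρ / 2 := by
    rw [norm_smul, norm_inv, Real.norm_eq_abs, abs_of_pos hs, inv_mul_lt_iff₀ hs]
    exact n1
  rw [h.d_eq hq hyη, h.d_eq hq hy]
  have hi1 : IntervalIntegrable (fun t => F (q + t • (y + η - q)) (y + η - q)) volume 0 1 := by
    apply ContinuousOn.intervalIntegrable
    rw [uIcc_of_le zero_le_one]
    have c1 : Continuous fun t : ℝ => ((q + t • (y + η - q), y + η - q) : (ℝ × ℝ) × (ℝ × ℝ)) := by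
      fun_prop
    exact h.cont.comp c1.continuousOn (fun s hs => ⟨h.seg hq hyη hs, mem_univ _⟩)
  have hi2 : IntervalIntegrable (fun t => F (q + t • (y - q)) (y - q)) volume 0 1 := by
    apply ContinuousOn.intervalIntegrable
    rw [uIcc_of_le zero_le_one]
    have c1 : Continuous fun t : ℝ => ((q + t • (y - q), y - q) : (ℝ × ℝ) × (ℝ × ℝ)) := by
      fun_prop
    exact h.cont.comp c1.continuousOn (fun s hs => ⟨h.seg hq hy hs, mem_univ _⟩)
  have key : ∀ t ∈ Icc (0:ℝ) 1, F (q + t • (y + η - q)) (y + η - q) ≤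
      F (q + t • (y - q)) (y - q) + (pv F y v η + ε * ‖η‖) := by
    intro t ht
    have m1 := h.seg hq hyη ht
    have m2 := h.seg hq hy ht
    have f1 : F (q + t • (y + η - q)) (y + η - q) = s * Fu F (q + t • (y + η - q), v + s⁻¹ • η) := by
      conv_lhs => rw [show F (q + t • (y + η - q)) (y + η - q)
        = F (q + t • (y + η - q)) (s • (v + s⁻¹ • η)) from by rw [← e2]]
      rw [h.hom _ m1, abs_of_pos hs]; rfl
    have f2 : F (q + t • (y - q)) (y - q) = s * Fu F (q + t • (y - q), v) := by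
      conv_lhs => rw [show F (q + t • (y - q)) (y - q) = F (q + t • (y - q)) (s • v) from by rw [← e1]]
      rw [h.hom _ m2, abs_of_pos hs]; rfl
    -- the two points are close to (y, v)
    have g1 : q + t • (y + η - q) = y - (s * (1 - t)) • v + t • η := by
      rw [show y + η - q = s • v + η by rw [hqd]; abel, hqd, smul_add, smul_smul]
      have : (s * (1 - t)) • v = s • v - (t * s) • v := by
        rw [← sub_smul]; congr 1; ring
      rw [this]; abel
    have g2 : q + t • (y - q) = y - (s * (1 - t)) • v := by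
      rw [e1, hqd, smul_smul]
      have : (s * (1 - t)) • v = s • v - (t * s) • v := by
        rw [← sub_smul]; congr 1; ring
      rw [this]; abel
    have a1 : ‖(s * (1 - t)) • v‖ ≤ s * ‖v‖ := by
      rw [norm_smul, Real.norm_eq_abs, abs_of_nonneg (mul_nonneg hs.le (by linarith [ht.2]))]
      have : s * (1 - t) ≤ s := by nlinarith [ht.1]
      gcongr
    have a2 : ‖t • η‖ ≤ ‖η‖ := by
      rw [norm_smul, Real.norm_eq_abs, abs_of_nonneg ht.1]
      nlinarith [norm_nonneg η, ht.2]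
    have a3 : ‖η‖ < ρ / 2 := by nlinarith
    have p1 : ((q + t • (y + η - q), v + s⁻¹ • η) : (ℝ × ℝ) × (ℝ × ℝ)) ∈ Metric.ball (y, v) ρ := by
      rw [Metric.mem_ball, Prod.dist_eq]
      apply max_lt
      · rw [g1, dist_eq_norm]
        have : y - (s * (1 - t)) • v + t • η - y = -((s * (1 - t)) • v) + t • η := by abel
        simp only
        rw [this]
        calc _ ≤ ‖-((s * (1 - t)) • v)‖ + ‖t • η‖ := norm_add_le _ _
          _ < ρ := by rw [norm_neg]; linarith
      · rw [dist_eq_norm]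
        simp only [add_sub_cancel_left]
        linarith
    have p2 : ((q + t • (y - q), v) : (ℝ × ℝ) × (ℝ × ℝ)) ∈ Metric.ball (y, v) ρ := by
      rw [Metric.mem_ball, Prod.dist_eq]
      apply max_lt
      · rw [g2, dist_eq_norm]
        have : y - (s * (1 - t)) • v - y = -((s * (1 - t)) • v) := by abel
        simp only
        rw [this, norm_neg]
        linarith
      · simpa using hρ
    have hb := hball (((q + t • (y + η - q), v + s⁻¹ • η)), ((q + t • (y - q), v))) (by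
      rw [← ball_prod_same]; exact ⟨p1, p2⟩)
    simp only at hb
    have hsub : ((q + t • (y + η - q), v + s⁻¹ • η) : (ℝ × ℝ) × (ℝ × ℝ)) - (q + t • (y - q), v)
        = (t • η, s⁻¹ • η) := by
      rw [Prod.mk_sub_mk, g1, g2]
      congr 1 <;> abel
    rw [hsub] at hb
    have hn : ‖((t • η, s⁻¹ • η) : (ℝ × ℝ) × (ℝ × ℝ))‖ ≤ s⁻¹ * ‖η‖ := by
      rw [Prod.norm_def]
      apply max_le
      · refine a2.trans ?_
        have : 1 ≤ s⁻¹ := (one_le_inv₀ hs).2 s1.le
        nlinarith [norm_nonneg η]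
      · rw [norm_smul, norm_inv, Real.norm_eq_abs, abs_of_pos hs]
    have hdf : dF F (y, v) (t • η, s⁻¹ • η) = t * px F y v η + s⁻¹ * pv F y v η := by
      rw [px, pv, ← smul_eq_mul, ← smul_eq_mul, ← map_smul, ← map_smul, ← map_add]
      simp
    have hpx : |px F y v η| ≤ B * ‖η‖ := by
      have := (dF F (y, v)).le_opNorm (η, 0)
      rw [Real.norm_eq_abs] at this
      have e5 : ‖((η, 0) : (ℝ × ℝ) × (ℝ × ℝ))‖ = ‖η‖ := by
        rw [Prod.norm_def]; simp
      rw [e5] at this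
      exact this
    have hb2 := (le_abs_self _).trans hb
    rw [hdf] at hb2
    have hb3 : Fu F (q + t • (y + η - q), v + s⁻¹ • η) - Fu F (q + t • (y - q), v)
        ≤ t * px F y v η + s⁻¹ * pv F y v η + ε / 2 * (s⁻¹ * ‖η‖) := by
      have : ε / 2 * ‖((t • η, s⁻¹ • η) : (ℝ × ℝ) × (ℝ × ℝ))‖ ≤ ε / 2 * (s⁻¹ * ‖η‖) := by gcongr
      linarith
    have hb4 : s * (Fu F (q + t • (y + η - q), v + s⁻¹ • η) - Fu F (q + t • (y - q), v))
        ≤ s * (t * px F y v η + s⁻¹ * pv F y v η + ε / 2 * (s⁻¹ * ‖η‖)) := by gcongr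
    have hb5 : s * (t * px F y v η + s⁻¹ * pv F y v η + ε / 2 * (s⁻¹ * ‖η‖))
        = s * t * px F y v η + pv F y v η + ε / 2 * ‖η‖ := by
      field_simp
    have hb6 : s * t * px F y v η ≤ ε / 2 * ‖η‖ := by
      calc s * t * px F y v η ≤ s * t * |px F y v η| := by
            apply mul_le_mul_of_nonneg_left (le_abs_self _) (mul_nonneg hs.le ht.1)
        _ ≤ s * 1 * (B * ‖η‖) := by
            apply mul_le_mul _ hpx (abs_nonneg _) (by linarith)
            apply mul_le_mul_of_nonneg_left ht.2 hs.le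
        _ = (s * B) * ‖η‖ := by ring
        _ ≤ ε / 2 * ‖η‖ := by gcongr
    rw [f1, f2]
    linarith
  calc ∫ t in (0:ℝ)..1, F (q + t • (y + η - q)) (y + η - q)
      ≤ ∫ t in (0:ℝ)..1, (F (q + t • (y - q)) (y - q) + (pv F y v η + ε * ‖η‖)) :=
        intervalIntegral.integral_mono_on zero_le_one hi1 (hi2.add intervalIntegrable_const) key
    _ = _ := by
        rw [intervalIntegral.integral_add hi2 intervalIntegrable_const]
        simp; ring

/-- A sandwich criterion for differentiability. -/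
lemma hasFDerivAt_of_sandwich (h : LocGeo W F d) {D : ℝ × ℝ → ℝ} {y v : ℝ × ℝ} (hy : y ∈ W)
    (hv : v ≠ 0)
    (h1 : ∀ᶠ s in 𝓝[>] (0:ℝ), ∀ᶠ y' in 𝓝 y, D y' ≤ D y - d (y - s • v) y + d (y - s • v) y')
    (h2 : ∀ᶠ s in 𝓝[>] (0:ℝ), ∀ᶠ y' in 𝓝 y, D y + d y (y + s • v) ≤ D y' + d y' (y + s • v)) :
    HasFDerivAt D (pvL F y v) y := by
  rw [hasFDerivAt_iff_isLittleO_nhds_zero, Asymptotics.isLittleO_iff]
  intro ε hε
  obtain ⟨s1, hs1, H1⟩ := h.local_est hy hv hε
  obtain ⟨s2, hs2, H2⟩ := h.local_est hy (neg_ne_zero.2 hv) hε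
  have hev : ∀ᶠ s in 𝓝[>] (0:ℝ), s < min s1 s2 := nhdsWithin_le_nhds (gt_mem_nhds (lt_min hs1 hs2))
  obtain ⟨s, ⟨⟨⟨ha, hb⟩, hc⟩, hspos⟩⟩ := (((h1.and h2).and hev).and self_mem_nhdsWithin).exists
  have hspos : 0 < s := hspos
  obtain ⟨hq1, δ1, hδ1, E1⟩ := H1 s hspos (hc.trans_le (min_le_left _ _))
  obtain ⟨hq2, δ2, hδ2, E2⟩ := H2 s hspos (hc.trans_le (min_le_right _ _))
  have hq2' : y + s • v ∈ W := by
    have : y - s • (-v) = y + s • v := by rw [smul_neg, sub_neg_eq_add]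
    rwa [this] at hq2
  have hsh : Tendsto (fun η : ℝ × ℝ => y + η) (𝓝 0) (𝓝 y) := by
    have : Tendsto (fun η : ℝ × ℝ => y + η) (𝓝 0) (𝓝 (y + 0)) :=
      (continuous_const.add continuous_id).tendsto 0
    rwa [add_zero] at this
  have ha' := hsh.eventually ha
  have hb' := hsh.eventually hb
  have hball : ∀ᶠ η in 𝓝 (0 : ℝ × ℝ), ‖η‖ < min δ1 δ2 := by
    have := Metric.ball_mem_nhds (0 : ℝ × ℝ) (lt_min hδ1 hδ2)
    filter_upwards [this] with η hη
    simpa using hη
  filter_upwards [ha', hb', hball] with η k1 k2 k3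
  obtain ⟨w1, w2⟩ := E1 η (k3.trans_le (min_le_left _ _))
  obtain ⟨w3, w4⟩ := E2 η (k3.trans_le (min_le_right _ _))
  have e3 : y - s • (-v) = y + s • v := by rw [smul_neg, sub_neg_eq_add]
  rw [e3, h.pv_neg_dir hy hv] at w4
  rw [h.dsymm (y + s • v) hq2' (y + η) w1, h.dsymm (y + s • v) hq2' y hy] at w4
  rw [pvL_apply, Real.norm_eq_abs, abs_le]
  constructor <;> linarith

/-- Gradient formula. -/
lemma hasFDerivAt_d (h : LocGeo W F d) {x y : ℝ × ℝ} (hx : x ∈ W) (hy : y ∈ W) (hxy : y ≠ x) :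
    HasFDerivAt (d x) (pvL F y (y - x)) y := by
  have hv : y - x ≠ 0 := sub_ne_zero.2 hxy
  set v := y - x with hvd
  apply h.hasFDerivAt_of_sandwich hy hv
  · have hev : ∀ᶠ s in 𝓝[>] (0:ℝ), s < 1 := nhdsWithin_le_nhds (gt_mem_nhds zero_lt_one)
    filter_upwards [hev, self_mem_nhdsWithin] with s hs1 hs0
    have hs0 : 0 < s := hs0
    filter_upwards [h.isOpen.mem_nhds hy] with y' hy'
    have e1 : y - s • v = x + (1 - s) • (y - x) := by
      rw [sub_smul, one_smul, ← hvd]; simp only [hvd]; abel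
    have hq : y - s • v ∈ W := by
      rw [e1]; exact h.seg hx hy ⟨by linarith, by linarith⟩
    have e2 := h.add x hx y hy (1 - s) ⟨by linarith, by linarith⟩
    rw [← e1] at e2
    have e3 := h.tri x hx _ hq y' hy'
    linarith
  · have hc : Tendsto (fun s : ℝ => y + s • v) (𝓝[>] 0) (𝓝 y) := by
      have : Tendsto (fun s : ℝ => y + s • v) (𝓝 0) (𝓝 (y + (0:ℝ) • v)) :=
        (continuous_const.add (continuous_id.smul continuous_const)).tendsto 0
      rw [zero_smul, add_zero] at this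
      exact this.mono_left nhdsWithin_le_nhds
    filter_upwards [hc.eventually (h.isOpen.mem_nhds hy), self_mem_nhdsWithin] with s hs1 hs0
    have hs0 : 0 < s := hs0
    filter_upwards [h.isOpen.mem_nhds hy] with y' hy'
    have e2 := h.add x hx (y + s • v) hs1 (1 / (1 + s)) ⟨by positivity, by
      rw [div_le_one (by positivity)]; linarith⟩
    have e1 : x + (1 / (1 + s)) • (y + s • v - x) = y := by
      have : y + s • v - x = (1 + s) • v := by
        rw [add_smul, one_smul]; simp only [hvd]; abel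
      rw [this, smul_smul]
      have h3 : 1 / (1 + s) * (1 + s) = 1 := by field_simp
      rw [h3, one_smul, hvd]; abel
    rw [e1] at e2
    have e3 := h.tri x hx y' hy' _ hs1
    linarith

/-- Hamel's condition. -/
theorem hamel (h : LocGeo W F d) {y : ℝ × ℝ} (hy : y ∈ W) : HamelAt F y := by
  intro v a b hv
  -- choose x = y - s v
  have hc : Tendsto (fun s : ℝ => y - s • v) (𝓝[>] 0) (𝓝 y) := by
    have : Tendsto (fun s : ℝ => y - s • v) (𝓝 0) (𝓝 (y - (0:ℝ) • v)) :=
      (continuous_const.sub (continuous_id.smul continuous_const)).tendsto 0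
    rw [zero_smul, sub_zero] at this
    exact this.mono_left nhdsWithin_le_nhds
  obtain ⟨s, hxW, hs⟩ := ((hc.eventually (h.isOpen.mem_nhds hy)).and self_mem_nhdsWithin).exists
  have hs : 0 < s := hs
  set x := y - s • v with hx
  have hyx : y - x = s • v := by rw [hx]; abel
  have hsv : s • v ≠ 0 := smul_ne_zero hs.ne' hv
  have hne : y ≠ x := by
    intro h0
    rw [← h0, sub_self] at hyx
    exact hsv hyx.symm
  have h1 : ∀ᶠ y' in 𝓝 y, HasFDerivAt (d x) (pvL F y' (y' - x)) y' := by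
    filter_upwards [h.isOpen.mem_nhds hy, isOpen_ne.mem_nhds hne] with y' k1 k2
    exact h.hasFDerivAt_d hxW k1 k2
  -- derivative of the gradient
  have hd : HasFDerivAt (fun y' : ℝ × ℝ => ((y', y' - x) : (ℝ × ℝ) × (ℝ × ℝ)))
      ((ContinuousLinearMap.id ℝ (ℝ × ℝ)).prod (ContinuousLinearMap.id ℝ (ℝ × ℝ))) y :=
    (hasFDerivAt_id y).prodMk ((hasFDerivAt_id y).sub_const x)
  have h2 : HasFDerivAt (fun y' => dF F (y', y' - x))
      ((ddF F (y, y - x)).comp
        ((ContinuousLinearMap.id ℝ (ℝ × ℝ)).prod (ContinuousLinearMap.id ℝ (ℝ × ℝ)))) y :=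
    (h.hasdF (v := y - x) hy (by rw [hyx]; exact hsv)).comp y hd
  set C := (ContinuousLinearMap.compL ℝ (ℝ × ℝ) ((ℝ × ℝ) × (ℝ × ℝ)) ℝ).flip
    (ContinuousLinearMap.inr ℝ (ℝ × ℝ) (ℝ × ℝ)) with hC
  have h3 : HasFDerivAt (fun y' => pvL F y' (y' - x)) (C.comp ((ddF F (y, y - x)).comp
        ((ContinuousLinearMap.id ℝ (ℝ × ℝ)).prod (ContinuousLinearMap.id ℝ (ℝ × ℝ))))) y :=
    C.hasFDerivAt.comp y h2
  have hsym := second_derivative_symmetric_of_eventually (𝕜 := ℝ) h1 h3
  have key : ∀ a b : ℝ × ℝ, ddF F (y, y - x) (a, a) (0, b) = ddF F (y, y - x) (b, b) (0, a) := by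
    intro a b
    have := hsym a b
    simpa [hC] using this
  have key2 : ∀ a b : ℝ × ℝ, ddF F (y, s • v) (a, 0) (0, b) = ddF F (y, s • v) (b, 0) (0, a) := by
    intro a b
    have k1 := key a b
    rw [hyx] at k1
    have e1 : ((a, a) : (ℝ × ℝ) × (ℝ × ℝ)) = (a, 0) + (0, a) := by simp
    have e2 : ((b, b) : (ℝ × ℝ) × (ℝ × ℝ)) = (b, 0) + (0, b) := by simp
    rw [e1, e2, FReg.ddF_add_left, FReg.ddF_add_left] at k1
    have k2 := h.symm hy hsv (0, a) (0, b)
    linarith
  -- rescale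
  have key3 : ∀ a b : ℝ × ℝ, ddF F (y, s • v) (a, 0) (0, b) = ddF F (y, v) (a, 0) (0, b) := by
    intro a b
    have hl : HasDerivAt (fun t : ℝ => y + t • a) a 0 := by
      simpa using ((hasDerivAt_id (0:ℝ)).smul_const a).const_add y
    have hy0 : y + (0:ℝ) • a ∈ W := by simpa using hy
    have d1 := h.hasDerivAt_dF_curve (t := 0) (x := fun t => y + t • a) hy0 hl
      (hasDerivAt_const (0:ℝ) (s • v)) hsv (hasDerivAt_const (0:ℝ) (((0 : ℝ × ℝ), b) : (ℝ × ℝ) × (ℝ × ℝ)))
    have d2 := h.hasDerivAt_dF_curve (t := 0) (x := fun t => y + t • a) hy0 hl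
      (hasDerivAt_const (0:ℝ) v) hv (hasDerivAt_const (0:ℝ) (((0 : ℝ × ℝ), b) : (ℝ × ℝ) × (ℝ × ℝ)))
    have hmem : ∀ᶠ t in 𝓝 (0:ℝ), y + t • a ∈ W := by
      apply hl.continuousAt.eventually_mem
      simpa using h.isOpen.mem_nhds hy
    have heq : (fun t : ℝ => dF F (y + t • a, s • v) (0, b)) =ᶠ[𝓝 0]
        fun t => dF F (y + t • a, v) (0, b) := by
      filter_upwards [hmem] with t ht
      exact h.pv_pos_smul ht hv hs b
    have := d1.unique (d2.congr_of_eventuallyEq heq)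
    simpa using this
  rw [← key3 a b, ← key3 b a]
  exact key2 a b

end LocGeo

end Pool.Agent.H81
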