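import Pool.Agent.H81.Defs

open Set Filter Topology Real

namespace Pool.Agent.H81

lemma hasDerivAt_fst' {f : ℝ → ℝ × ℝ} {f' : ℝ × ℝ} {t : ℝ} (h : HasDerivAt f f' t) :
    HasDerivAt (fun s => (f s).1) f'.1 t := by
  exact (ContinuousLinearMap.fst ℝ ℝ ℝ).hasFDerivAt.comp_hasDerivAt t h

lemma hasDerivAt_snd' {f : ℝ → ℝ × ℝ} {f' : ℝ × ℝ} {t : ℝ} (h : HasDerivAt f f' t) :
    HasDerivAt (fun s => (f s).2) f'.2 t := by
  exact (ContinuousLinearMap.snd ℝ ℝ ℝ).hasFDerivAt.comp_hasDerivAt t h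

lemma hasDerivAt_cr {f g : ℝ → ℝ × ℝ} {f' g' : ℝ × ℝ} {t : ℝ} (hf : HasDerivAt f f' t)
    (hg : HasDerivAt g g' t) :
    HasDerivAt (fun s => cr (f s) (g s)) (cr f' (g t) + cr (f t) g') t := by
  have h1 := ((hasDerivAt_fst' hf).mul (hasDerivAt_snd' hg)).sub
    ((hasDerivAt_snd' hf).mul (hasDerivAt_fst' hg))
  refine h1.congr_deriv ?_
  simp only [cr]; ring

lemma cr_smul_left (c : ℝ) (a b : ℝ × ℝ) : cr (c • a) b = c * cr a b := by
  simp only [cr, Prod.smul_fst, Prod.smul_snd, smul_eq_mul]; ring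

lemma cr_smul_right (c : ℝ) (a b : ℝ × ℝ) : cr a (c • b) = c * cr a b := by
  simp only [cr, Prod.smul_fst, Prod.smul_snd, smul_eq_mul]; ring

lemma cr_neg_left (a b : ℝ × ℝ) : cr (-a) b = - cr a b := by
  simp only [cr, Prod.fst_neg, Prod.snd_neg]; ring

lemma cr_neg_right (a b : ℝ × ℝ) : cr a (-b) = - cr a b := by
  simp only [cr, Prod.fst_neg, Prod.snd_neg]; ring

lemma cr_swap (a b : ℝ × ℝ) : cr a b = - cr b a := by
  simp only [cr]; ring

lemma cr_self (a : ℝ × ℝ) : cr a a = 0 := by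
  simp only [cr]; ring

/-- Pluecker relation. -/
lemma cr_plucker (a b z s : ℝ × ℝ) :
    cr a b * cr z s = cr z b * cr a s + cr z a * cr s b := by
  simp only [cr]; ring

/-- Data of a Radon curve `U` with conjugation `j` and a solution `P` of `P' = -2 r (P ∘ j)`. -/
structure NodalSys (U V : ℝ → ℝ × ℝ) (P Q r ρ j : ℝ → ℝ) (D : ℝ) : Prop where
  hU : ∀ t, HasDerivAt U (r t • V t) t
  hV : ∀ t, HasDerivAt V (-(ρ t) • U t) t
  hP : ∀ t, HasDerivAt P (-2 * r t * Q t) t
  hQ : ∀ t, HasDerivAt Q (2 * ρ t * P t) t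
  r_pos : ∀ t, 0 < r t
  ρ_pos : ∀ t, 0 < ρ t
  bdd : ∃ K, ∀ t, r t ≤ K ∧ ρ t ≤ K
  j_mono : StrictMono j
  jj : ∀ t, j (j t) = t + π
  j_gt : ∀ t, t < j t
  Uj : ∀ t, U (j t) = V t
  Pj : ∀ t, P (j t) = Q t
  Uπ : ∀ t, U (t + π) = - U t
  Pπ : ∀ t, P (t + π) = - P t
  D_pos : 0 < D
  crUV : ∀ t, cr (U t) (V t) = D
  crU : ∀ s t, s < t → t < s + π → 0 < cr (U s) (U t)

/-- A nodal triple: consecutive zeros `a < b` of `P` and a zero `s` of `Q` in between. -/
structure Nd (P Q : ℝ → ℝ) (a b s : ℝ) : Prop where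
  has : a < s
  hsb : s < b
  Pa : P a = 0
  Pb : P b = 0
  ne : ∀ t ∈ Ioo a b, P t ≠ 0
  Qs : Q s = 0

namespace NodalSys

variable {U V : ℝ → ℝ × ℝ} {P Q r ρ j : ℝ → ℝ} {D : ℝ}

lemma neg (h : NodalSys U V P Q r ρ j D) :
    NodalSys U V (fun t => - P t) (fun t => - Q t) r ρ j D where
  hU := h.hU
  hV := h.hV
  hP := fun t => by
    refine (h.hP t).neg.congr_deriv ?_
    ring
  hQ := fun t => by
    refine (h.hQ t).neg.congr_deriv ?_
    ring
  r_pos := h.r_pos
  ρ_pos := h.ρ_pos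
  bdd := h.bdd
  j_mono := h.j_mono
  jj := h.jj
  j_gt := h.j_gt
  Uj := h.Uj
  Pj := fun t => by simp only [h.Pj t]
  Uπ := h.Uπ
  Pπ := fun t => by simp only [h.Pπ t]
  D_pos := h.D_pos
  crUV := h.crUV
  crU := h.crU

lemma Pcont (h : NodalSys U V P Q r ρ j D) : Continuous P :=
  continuous_iff_continuousAt.2 fun t => (h.hP t).continuousAt

lemma Qcont (h : NodalSys U V P Q r ρ j D) : Continuous Q :=
  continuous_iff_continuousAt.2 fun t => (h.hQ t).continuousAt

lemma j_add (h : NodalSys U V P Q r ρ j D) (t : ℝ) : j (t + π) = j t + π := by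
  rw [← h.jj t, h.jj (j t)]

lemma j_sub (h : NodalSys U V P Q r ρ j D) (t : ℝ) : j (t - π) = j t - π := by
  have := h.j_add (t - π)
  rw [sub_add_cancel] at this
  linarith

lemma j_lt (h : NodalSys U V P Q r ρ j D) (t : ℝ) : j t < t + π := by
  rw [← h.jj t]; exact h.j_gt (j t)

lemma Pπ' (h : NodalSys U V P Q r ρ j D) (t : ℝ) : P (t - π) = - P t := by
  have := h.Pπ (t - π)
  rw [sub_add_cancel] at this
  linarith

lemma Uπ' (h : NodalSys U V P Q r ρ j D) (t : ℝ) : U (t - π) = - U t := by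
  have := h.Uπ (t - π)
  rw [sub_add_cancel] at this
  rw [this, neg_neg]

lemma Qj (h : NodalSys U V P Q r ρ j D) (t : ℝ) : Q (j t) = - P t := by
  rw [← h.Pj, h.jj, h.Pπ]

/-- Uniqueness: a common zero of `P` and `Q` forces `P = 0`. -/
lemma eq_zero (h : NodalSys U V P Q r ρ j D) {z : ℝ} (hP : P z = 0) (hQ : Q z = 0) :
    ∀ t, P t = 0 := by
  obtain ⟨K, hK⟩ := h.bdd
  set E : ℝ → ℝ := fun t => P t ^ 2 + Q t ^ 2 with hE
  have hE' : ∀ t, HasDerivAt E (4 * (ρ t - r t) * (P t * Q t)) t := by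
    intro t
    have := ((h.hP t).pow 2).add ((h.hQ t).pow 2)
    refine this.congr_deriv ?_
    simp; ring
  have hb : ∀ t, |4 * (ρ t - r t) * (P t * Q t)| ≤ 2 * K * E t := by
    intro t
    have h1 : |ρ t - r t| ≤ K := by
      rw [abs_le]; constructor
      · linarith [(hK t).1, (h.ρ_pos t)]
      · linarith [(hK t).2, (h.r_pos t)]
    have h2 : 2 * |P t * Q t| ≤ E t := by
      rw [hE]; simp only
      rw [abs_mul]
      nlinarith [sq_nonneg (|P t| - |Q t|), sq_abs (P t), sq_abs (Q t)]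
    rw [abs_mul, abs_mul, abs_of_pos (by norm_num : (0:ℝ) < 4)]
    have h3 : 0 ≤ |P t * Q t| := abs_nonneg _
    have h4 : 0 ≤ |ρ t - r t| := abs_nonneg _
    have hK0 : 0 ≤ K := le_trans h4 h1
    calc 4 * |ρ t - r t| * |P t * Q t| ≤ 4 * K * |P t * Q t| := by gcongr
      _ = 2 * K * (2 * |P t * Q t|) := by ring
      _ ≤ 2 * K * E t := by gcongr
  have hE0 : E z = 0 := by simp [hE, hP, hQ]
  have hnn : ∀ t, 0 ≤ E t := fun t => by simp only [hE]; positivity
  have hzero : ∀ t, E t = 0 := by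
    intro t
    rcases le_total t z with htz | htz
    · -- E * exp (2 K t) is monotone
      have hm : Monotone fun t => E t * Real.exp (2 * K * t) := by
        have hd : ∀ t, HasDerivAt (fun t => E t * Real.exp (2 * K * t))
            ((4 * (ρ t - r t) * (P t * Q t)) * Real.exp (2 * K * t)
              + E t * (Real.exp (2 * K * t) * (2 * K))) t := by
          intro t
          have h1 : HasDerivAt (fun t : ℝ => 2 * K * t) (2 * K) t := by
            simpa using (hasDerivAt_id t).const_mul (2 * K)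
          exact (hE' t).mul h1.exp
        apply monotone_of_deriv_nonneg (fun t => (hd t).differentiableAt)
        intro t
        rw [(hd t).deriv]
        have h1 := (abs_le.1 (hb t)).1
        have h2 := Real.exp_pos (2 * K * t)
        nlinarith
      have := hm htz
      simp only [hE0, zero_mul] at this
      have h2 := Real.exp_pos (2 * K * t)
      have h3 := hnn t
      nlinarith [mul_nonneg h3 h2.le]
    · have hm : Antitone fun t => E t * Real.exp (-(2 * K) * t) := by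
        have hd : ∀ t, HasDerivAt (fun t => E t * Real.exp (-(2 * K) * t))
            ((4 * (ρ t - r t) * (P t * Q t)) * Real.exp (-(2 * K) * t)
              + E t * (Real.exp (-(2 * K) * t) * (-(2 * K)))) t := by
          intro t
          have h1 : HasDerivAt (fun t : ℝ => -(2 * K) * t) (-(2 * K)) t := by
            simpa using (hasDerivAt_id t).const_mul (-(2 * K))
          exact (hE' t).mul h1.exp
        apply antitone_of_deriv_nonpos (fun t => (hd t).differentiableAt)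
        intro t
        rw [(hd t).deriv]
        have h1 := (abs_le.1 (hb t)).2
        have h2 := Real.exp_pos (-(2 * K) * t)
        nlinarith
      have := hm htz
      simp only [hE0, zero_mul] at this
      have h2 := Real.exp_pos (-(2 * K) * t)
      have h3 := hnn t
      nlinarith [mul_nonneg h3 h2.le]
  intro t
  have := hzero t
  simp only [hE] at this
  nlinarith [sq_nonneg (P t), sq_nonneg (Q t)]

lemma isolated (h : NodalSys U V P Q r ρ j D) (hne : ∃ t, P t ≠ 0) {z : ℝ} (hz : P z = 0) :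
    ∀ᶠ t in 𝓝[≠] z, P t ≠ 0 := by
  have hQ : Q z ≠ 0 := by
    intro hQ
    obtain ⟨t, ht⟩ := hne
    exact ht (h.eq_zero hz hQ t)
  have hd : -2 * r z * Q z ≠ 0 := by
    have := h.r_pos z
    positivity
  have := (h.hP z).eventually_ne hd (c := 0)
  simpa using this

end NodalSys

lemma exists_next {P : ℝ → ℝ} (hc : Continuous P) {z w : ℝ} (hzw : z < w) (hw : P w = 0)
    (hiso : ∀ᶠ t in 𝓝[≠] z, P t ≠ 0) :
    ∃ z', z < z' ∧ z' ≤ w ∧ P z' = 0 ∧ ∀ t ∈ Ioo z z', P t ≠ 0 := by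
  rw [eventually_nhdsWithin_iff, Metric.eventually_nhds_iff] at hiso
  obtain ⟨ε, hε, H⟩ := hiso
  have H' : ∀ t, z < t → t < z + ε → P t ≠ 0 := by
    intro t h1 h2
    apply H
    · rw [Real.dist_eq, abs_lt]; constructor <;> linarith
    · simp; exact ne_of_gt h1
  set S := Icc (z + ε / 2) w ∩ {t | P t = 0} with hS
  have hScomp : IsCompact S := isCompact_Icc.inter_right (isClosed_eq hc continuous_const)
  have hwε : z + ε ≤ w := by
    by_contra hcon
    exact H' w hzw (not_le.1 hcon) hw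
  have hne : S.Nonempty := ⟨w, ⟨by linarith, le_refl _⟩, hw⟩
  obtain ⟨z', hz', hmin⟩ := hScomp.exists_isLeast hne
  refine ⟨z', by linarith [hz'.1.1], hz'.1.2, hz'.2, ?_⟩
  intro t ht h0
  by_cases hlt : t < z + ε
  · exact H' t ht.1 hlt h0
  · have : t ∈ S := ⟨⟨by linarith, by linarith [ht.2, hz'.1.2]⟩, h0⟩
    linarith [hmin this, ht.2]

lemma exists_prev {P : ℝ → ℝ} (hc : Continuous P) {z w : ℝ} (hzw : w < z) (hw : P w = 0)
    (hiso : ∀ᶠ t in 𝓝[≠] z, P t ≠ 0) :
    ∃ z', z' < z ∧ w ≤ z' ∧ P z' = 0 ∧ ∀ t ∈ Ioo z' z, P t ≠ 0 := by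
  have hc' : Continuous fun t => P (-t) := hc.comp continuous_neg
  have hiso' : ∀ᶠ t in 𝓝[≠] (-z), (fun t => P (-t)) t ≠ 0 := by
    rw [eventually_nhdsWithin_iff, Metric.eventually_nhds_iff] at hiso ⊢
    obtain ⟨ε, hε, H⟩ := hiso
    refine ⟨ε, hε, ?_⟩
    intro y hy hne
    apply H
    · rw [Real.dist_eq] at hy ⊢
      rw [← abs_neg]; convert hy using 2; ring
    · intro h; apply hne
      simp only [mem_singleton_iff] at h ⊢
      linarith
  obtain ⟨z', h1, h2, h3, h4⟩ := exists_next (P := fun t => P (-t)) hc' (z := -z) (w := -w)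
    (by linarith) (by simpa using hw) hiso'
  refine ⟨-z', by linarith, by linarith, h3, ?_⟩
  intro t ht
  have := h4 (-t) ⟨by linarith [ht.2], by linarith [ht.1]⟩
  simpa using this

namespace NodalSys

variable {U V : ℝ → ℝ × ℝ} {P Q r ρ j : ℝ → ℝ} {D : ℝ}

lemma hasDerivAt_crU_right (h : NodalSys U V P Q r ρ j D) (S : ℝ × ℝ) (t : ℝ) :
    HasDerivAt (fun s => cr S (U s)) (r t * cr S (V t)) t := by
  have := hasDerivAt_cr (hasDerivAt_const t S) (h.hU t)
  refine this.congr_deriv ?_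
  rw [cr_smul_right]; simp [cr]

lemma hasDerivAt_crV_right (h : NodalSys U V P Q r ρ j D) (S : ℝ × ℝ) (t : ℝ) :
    HasDerivAt (fun s => cr S (V s)) (-(ρ t) * cr S (U t)) t := by
  have := hasDerivAt_cr (hasDerivAt_const t S) (h.hV t)
  refine this.congr_deriv ?_
  rw [cr_smul_right]; simp [cr]

/-- The monotone quantity. -/
lemma hasDerivAt_Phi (h : NodalSys U V P Q r ρ j D) (S : ℝ × ℝ) (t : ℝ) :
    HasDerivAt (fun s => P s * cr S (V s) - (1/2) * Q s * cr (U s) S)
      (-(3/2) * r t * Q t * cr S (V t)) t := by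
  have h1 := (h.hP t).mul (h.hasDerivAt_crV_right S t)
  have h2 := ((h.hQ t).const_mul (1/2)).mul ((h.hasDerivAt_crU_right S t).neg)
  have h3 := h1.sub h2
  have h4 : (fun s => P s * cr S (V s) - (1/2) * Q s * cr (U s) S) =
      (fun s => P s * cr S (V s)) - (fun s => (1/2) * Q s * (- cr S (U s))) := by
    funext s
    simp only [Pi.sub_apply]
    rw [cr_swap (U s) S]
  rw [h4]
  refine h3.congr_deriv ?_
  simp only [Pi.neg_apply]
  ring

lemma main_step_aux (h : NodalSys U V P Q r ρ j D) (hne : ∃ t, P t ≠ 0) {a b s : ℝ}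
    (hnd : Nd P Q a b s) (hneg : P s < 0) :
    ∃ w1 w w2 s1 s2, Nd P Q w1 w s1 ∧ Nd P Q w w2 s2 ∧
      cr (U w1) (U w) / |P s1| + cr (U w) (U w2) / |P s2| < 2 * (cr (U a) (U b) / |P s|) := by
  have hD := h.D_pos
  -- inverse images
  set w := j s - π with hw
  set s1 := j a - π with hs1
  set s2 := j b - π with hs2
  have hjw : j w = s := by rw [hw, h.j_sub, h.jj]; ring
  have hjs1 : j s1 = a := by rw [hs1, h.j_sub, h.jj]; ring
  have hjs2 : j s2 = b := by rw [hs2, h.j_sub, h.jj]; ring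
  have h1w : s1 < w := by
    have := h.j_mono hnd.has; rw [hs1, hw]; linarith
  have hw2 : w < s2 := by
    have := h.j_mono hnd.hsb; rw [hs2, hw]; linarith
  have hQs1 : Q s1 = 0 := by rw [← h.Pj, hjs1, hnd.Pa]
  have hQs2 : Q s2 = 0 := by rw [← h.Pj, hjs2, hnd.Pb]
  have hPw : P w = 0 := by
    have h1 := h.Qj w
    rw [hjw, hnd.Qs] at h1
    linarith
  have hQw : Q w = P s := by rw [← h.Pj, hjw]
  -- sign of Q on (s1, s2)
  have hQne : ∀ t ∈ Ioo s1 s2, Q t ≠ 0 := by
    intro t ht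
    rw [← h.Pj]
    apply hnd.ne
    constructor
    · rw [← hjs1]; exact h.j_mono ht.1
    · rw [← hjs2]; exact h.j_mono ht.2
  have hQneg : ∀ t ∈ Ioo s1 s2, Q t < 0 := by
    intro t ht
    by_contra hcon
    have hcon : 0 ≤ Q t := not_lt.1 hcon
    have hwm : w ∈ Ioo s1 s2 := ⟨h1w, hw2⟩
    have hQw' : Q w ≤ 0 := by rw [hQw]; exact hneg.le
    have hpre : IsPreconnected (Ioo s1 s2) := isPreconnected_Ioo
    have := hpre.intermediate_value hwm ht h.Qcont.continuousOn
    obtain ⟨y, hy, hy0⟩ := this ⟨hQw', hcon⟩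
    exact hQne y hy hy0
  -- neighbours of w
  obtain ⟨w2, hww2, hw2le, hPw2, hnw2⟩ := exists_next h.Pcont (z := w) (w := w + π)
    (by linarith [Real.pi_pos]) (by rw [h.Pπ, hPw, neg_zero]) (h.isolated hne hPw)
  obtain ⟨w1, hw1w, hlew1, hPw1, hnw1⟩ := exists_prev h.Pcont (z := w) (w := w - π)
    (by linarith [Real.pi_pos]) (by rw [h.Pπ', hPw, neg_zero]) (h.isolated hne hPw)
  -- Rolle
  have hs2w2 : s2 < w2 := by
    obtain ⟨t, ht, ht0⟩ := exists_hasDerivAt_eq_zero hww2 h.Pcont.continuousOn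
      (by rw [hPw, hPw2]) (fun t _ => h.hP t)
    have hQt : Q t = 0 := by
      have := h.r_pos t
      have h2 : r t * Q t = 0 := by linarith
      exact (mul_eq_zero.1 h2).resolve_left this.ne'
    by_contra hcon
    exact hQne t ⟨lt_trans h1w ht.1, lt_of_lt_of_le ht.2 (not_lt.1 hcon)⟩ hQt
  have hw1s1 : w1 < s1 := by
    obtain ⟨t, ht, ht0⟩ := exists_hasDerivAt_eq_zero hw1w h.Pcont.continuousOn
      (by rw [hPw, hPw1]) (fun t _ => h.hP t)
    have hQt : Q t = 0 := by
      have := h.r_pos t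
      have h2 : r t * Q t = 0 := by linarith
      exact (mul_eq_zero.1 h2).resolve_left this.ne'
    by_contra hcon
    exact hQne t ⟨lt_of_le_of_lt (not_lt.1 hcon) ht.1, lt_trans ht.2 hw2⟩ hQt
  have hnd1 : Nd P Q w1 w s1 := ⟨hw1s1, h1w, hPw1, hPw, hnw1, hQs1⟩
  have hnd2 : Nd P Q w w2 s2 := ⟨hw2, hs2w2, hPw, hPw2, hnw2, hQs2⟩
  -- P s2 > 0
  have hPs2 : 0 < P s2 := by
    have hm : StrictMonoOn P (Icc w s2) := by
      apply strictMonoOn_of_deriv_pos (convex_Icc w s2) h.Pcont.continuousOn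
      intro t ht
      rw [interior_Icc] at ht
      rw [(h.hP t).deriv]
      have h1 := hQneg t ⟨lt_trans h1w ht.1, ht.2⟩
      have h2 := h.r_pos t
      nlinarith
    have := hm (left_mem_Icc.2 hw2.le) (right_mem_Icc.2 hw2.le) hw2
    rwa [hPw] at this
  have hPs1 : P s1 < 0 := by
    have hm : StrictMonoOn P (Icc s1 w) := by
      apply strictMonoOn_of_deriv_pos (convex_Icc s1 w) h.Pcont.continuousOn
      intro t ht
      rw [interior_Icc] at ht
      rw [(h.hP t).deriv]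
      have h1 := hQneg t ⟨ht.1, lt_trans ht.2 hw2⟩
      have h2 := h.r_pos t
      nlinarith
    have := hm (left_mem_Icc.2 h1w.le) (right_mem_Icc.2 h1w.le) h1w
    rwa [hPw] at this
  have hPpos : ∀ t ∈ Ioo w w2, 0 < P t := by
    intro t ht
    by_contra hcon
    have hcon : P t ≤ 0 := not_lt.1 hcon
    have hpre : IsPreconnected (Ioo w w2) := isPreconnected_Ioo
    obtain ⟨y, hy, hy0⟩ := hpre.intermediate_value ht ⟨hw2, hs2w2⟩ h.Pcont.continuousOn
      ⟨hcon, hPs2.le⟩
    exact hnw2 y hy hy0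
  -- ordering
  have hws : w < s := by rw [← hjw]; exact h.j_gt w
  have hw2s : w2 < s := by
    by_contra hcon
    have hcon : s ≤ w2 := not_lt.1 hcon
    rcases lt_or_eq_of_le hcon with h1 | h1
    · exact absurd (hPpos s ⟨hws, h1⟩) (not_lt.2 hneg.le)
    · rw [← h1] at hPw2; exact absurd hPw2 hneg.ne
  have hw2a : w2 ≤ a := by
    by_contra hcon
    exact hnd.ne w2 ⟨not_le.1 hcon, lt_trans hw2s hnd.hsb⟩ hPw2
  have hbw : b < w + π := by
    have h1 : s2 < j w := by rw [hjw]; linarith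
    have h2 := h.j_mono h1
    rw [hjs2, h.jj] at h2
    exact h2
  have hbw1 : b - π ≤ w1 := by
    by_contra hcon
    have : P (b - π) = 0 := by rw [h.Pπ', hnd.Pb, neg_zero]
    exact hnw1 (b - π) ⟨not_le.1 hcon, by linarith⟩ this
  have hsw : s < w + π := by rw [← hjw]; exact h.j_lt w
  -- monotonicity of the cross products
  have hmon1 : cr (U w) (U w2) ≤ cr (U w) (U a) := by
    have hm : MonotoneOn (fun t => cr (U w) (U t)) (Icc w s) := by
      apply monotoneOn_of_deriv_nonneg (convex_Icc w s)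
      · exact fun t _ => (h.hasDerivAt_crU_right (U w) t).continuousAt.continuousWithinAt
      · exact fun t _ => (h.hasDerivAt_crU_right (U w) t).differentiableAt.differentiableWithinAt
      · intro t ht
        rw [interior_Icc] at ht
        rw [(h.hasDerivAt_crU_right (U w) t).deriv, ← h.Uj]
        apply mul_nonneg (h.r_pos t).le
        apply (h.crU w (j t) (lt_trans ht.1 (h.j_gt t)) ?_).le
        rw [← h.jj w, hjw]; exact h.j_mono ht.2
    exact hm ⟨hww2.le, hw2s.le⟩ ⟨by linarith, hnd.has.le⟩ hw2a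
  have hmon2 : cr (U w1) (U w) ≤ cr (U w) (U b) := by
    have hm : MonotoneOn (fun t => cr (U w) (U t)) (Icc (s - π) w) := by
      apply monotoneOn_of_deriv_nonneg (convex_Icc (s - π) w)
      · exact fun t _ => (h.hasDerivAt_crU_right (U w) t).continuousAt.continuousWithinAt
      · exact fun t _ => (h.hasDerivAt_crU_right (U w) t).differentiableAt.differentiableWithinAt
      · intro t ht
        rw [interior_Icc] at ht
        rw [(h.hasDerivAt_crU_right (U w) t).deriv, ← h.Uj]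
        apply mul_nonneg (h.r_pos t).le
        apply (h.crU w (j t) ?_ ?_).le
        · have h1 := h.j_mono ht.1
          rw [h.j_sub, ← hjw, h.jj] at h1
          linarith
        · have h1 := h.j_mono ht.2
          rw [hjw] at h1
          linarith
    have h1 := hm ⟨by linarith [hnd.hsb], by linarith⟩ ⟨by linarith [hnd.hsb], hw1w.le⟩ hbw1
    simp only at h1
    rw [h.Uπ' b, cr_neg_right, cr_swap (U w) (U w1)] at h1
    linarith
  -- the two key inequalities
  have hμpos : ∀ t, w < t → t < w + π → 0 < cr (V w) (V t) := by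
    intro t h1 h2
    rw [← h.Uj, ← h.Uj]
    apply h.crU _ _ (h.j_mono h1)
    rw [← h.j_add]; exact h.j_mono h2
  have hμneg : ∀ t, w - π < t → t < w → cr (V w) (V t) < 0 := by
    intro t h1 h2
    rw [← h.Uj, ← h.Uj, cr_swap]
    have := h.crU (j t) (j w) (h.j_mono h2) (by rw [← h.j_add]; exact h.j_mono (by linarith))
    linarith
  have hΦw : P w * cr (V w) (V w) - (1/2) * Q w * cr (U w) (V w) = -(1/2) * P s * D := by
    rw [hPw, hQw, h.crUV]; ring
  have key2 : -(1/2) * P s * D < P s2 * cr (V w) (V s2) := by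
    have hm : StrictMonoOn (fun t => P t * cr (V w) (V t) - (1/2) * Q t * cr (U t) (V w))
        (Icc w s2) := by
      apply strictMonoOn_of_deriv_pos (convex_Icc w s2)
      · exact fun t _ => (h.hasDerivAt_Phi (V w) t).continuousAt.continuousWithinAt
      · intro t ht
        rw [interior_Icc] at ht
        rw [(h.hasDerivAt_Phi (V w) t).deriv]
        have h1 := hQneg t ⟨lt_trans h1w ht.1, ht.2⟩
        have h2 := h.r_pos t
        have h3 := hμpos t ht.1 (by linarith [ht.2])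
        have h4 : 0 < r t * cr (V w) (V t) := mul_pos h2 h3
        nlinarith
    have h1 := hm (left_mem_Icc.2 hw2.le) (right_mem_Icc.2 hw2.le) hw2
    simp only at h1
    rw [hΦw, hQs2] at h1
    linarith
  have key1 : -(1/2) * P s * D < (-P s1) * cr (V s1) (V w) := by
    have hm : StrictAntiOn (fun t => P t * cr (V w) (V t) - (1/2) * Q t * cr (U t) (V w))
        (Icc s1 w) := by
      apply strictAntiOn_of_deriv_neg (convex_Icc s1 w)
      · exact fun t _ => (h.hasDerivAt_Phi (V w) t).continuousAt.continuousWithinAt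
      · intro t ht
        rw [interior_Icc] at ht
        rw [(h.hasDerivAt_Phi (V w) t).deriv]
        have h1 := hQneg t ⟨ht.1, lt_trans ht.2 hw2⟩
        have h2 := h.r_pos t
        have h3 := hμneg t (by linarith [ht.1]) ht.2
        have h4 : r t * cr (V w) (V t) < 0 := mul_neg_of_pos_of_neg h2 h3
        nlinarith
    have h1 := hm (left_mem_Icc.2 h1w.le) (right_mem_Icc.2 h1w.le) h1w
    simp only at h1
    rw [hΦw, hQs1, cr_swap (V w) (V s1)] at h1
    linarith
  -- Pluecker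
  have hA : U a = V s1 := by rw [← hjs1, h.Uj]
  have hB : U b = V s2 := by rw [← hjs2, h.Uj]
  have hS : U s = V w := by rw [← hjw, h.Uj]
  have hpl := cr_plucker (U a) (U b) (U w) (V w)
  rw [h.crUV] at hpl
  have hpos1 : 0 < cr (U w1) (U w) := h.crU _ _ hw1w (by linarith [hnd.hsb])
  have hpos2 : 0 < cr (U w) (U w2) := h.crU _ _ hww2 (by linarith [hw2s])
  rw [← hA] at key1
  rw [← hB] at key2
  refine ⟨w1, w, w2, s1, s2, hnd1, hnd2, ?_⟩
  rw [abs_of_neg hPs1, abs_of_pos hPs2, abs_of_neg hneg]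
  have hm1 : 0 < -P s1 := by linarith
  have hm : 0 < - P s := by linarith
  -- cr(Ua)(Vw) > (-P s) D / (2 (-P s1))
  have e1 : (-P s) * D / (2 * (-P s1)) < cr (U a) (V w) := by
    rw [div_lt_iff₀ (by positivity)]; nlinarith
  have e2 : (-P s) * D / (2 * P s2) < cr (V w) (U b) := by
    rw [div_lt_iff₀ (by positivity)]; nlinarith
  have e3 : cr (U w1) (U w) * ((-P s) * D / (2 * (-P s1))) < cr (U w) (U b) * cr (U a) (V w) := by
    have h5 : 0 < (-P s) * D / (2 * (-P s1)) := by positivity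
    calc cr (U w1) (U w) * ((-P s) * D / (2 * (-P s1)))
        ≤ cr (U w) (U b) * ((-P s) * D / (2 * (-P s1))) := by gcongr
      _ < cr (U w) (U b) * cr (U a) (V w) := by
          apply mul_lt_mul_of_pos_left e1; linarith
  have e4 : cr (U w) (U w2) * ((-P s) * D / (2 * P s2)) < cr (U w) (U a) * cr (V w) (U b) := by
    have h5 : 0 < (-P s) * D / (2 * P s2) := by positivity
    calc cr (U w) (U w2) * ((-P s) * D / (2 * P s2))
        ≤ cr (U w) (U a) * ((-P s) * D / (2 * P s2)) := by gcongr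
      _ < cr (U w) (U a) * cr (V w) (U b) := by
          apply mul_lt_mul_of_pos_left e2; linarith
  have e5 : cr (U w1) (U w) * ((-P s) * D / (2 * (-P s1)))
      + cr (U w) (U w2) * ((-P s) * D / (2 * P s2)) < cr (U a) (U b) * D := by
    rw [hpl]; linarith
  have e6 : cr (U w1) (U w) * ((-P s) * D / (2 * (-P s1)))
      + cr (U w) (U w2) * ((-P s) * D / (2 * P s2))
      = (cr (U w1) (U w) / (-P s1) + cr (U w) (U w2) / (P s2)) * ((-P s) * D / 2) := by
    have hz1 := hPs1.ne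
    have hz2 := hPs2.ne'
    field_simp
    try ring
  rw [e6] at e5
  have h7 : 0 < (-P s) * D / 2 := by positivity
  rw [← lt_div_iff₀ h7] at e5
  have e8 : cr (U a) (U b) * D / ((-P s) * D / 2) = 2 * (cr (U a) (U b) / (-P s)) := by
    field_simp
  rw [e8] at e5
  exact e5

lemma main_step (h : NodalSys U V P Q r ρ j D) (hne : ∃ t, P t ≠ 0) {a b s : ℝ}
    (hnd : Nd P Q a b s) :
    ∃ w1 w w2 s1 s2, Nd P Q w1 w s1 ∧ Nd P Q w w2 s2 ∧
      cr (U w1) (U w) / |P s1| + cr (U w) (U w2) / |P s2| < 2 * (cr (U a) (U b) / |P s|) := by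
  have hPs : P s ≠ 0 := hnd.ne s ⟨hnd.has, hnd.hsb⟩
  rcases lt_or_gt_of_ne hPs with hlt | hgt
  · exact h.main_step_aux hne hnd hlt
  · have hnd' : Nd (fun t => - P t) (fun t => - Q t) a b s :=
      ⟨hnd.has, hnd.hsb, by simp [hnd.Pa], by simp [hnd.Pb],
        fun t ht => by simpa using hnd.ne t ht, by simp [hnd.Qs]⟩
    obtain ⟨t0, ht0⟩ := hne
    obtain ⟨w1, w, w2, s1, s2, hn1, hn2, hlt⟩ := h.neg.main_step_aux
      ⟨t0, by simpa using ht0⟩ hnd' (by simpa using hgt)
    refine ⟨w1, w, w2, s1, s2, ?_, ?_, ?_⟩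
    · exact ⟨hn1.has, hn1.hsb, by simpa using hn1.Pa, by simpa using hn1.Pb,
        fun t ht => by simpa using hn1.ne t ht, by simpa using hn1.Qs⟩
    · exact ⟨hn2.has, hn2.hsb, by simpa using hn2.Pa, by simpa using hn2.Pb,
        fun t ht => by simpa using hn2.ne t ht, by simpa using hn2.Qs⟩
    · simpa only [abs_neg] using hlt

end NodalSys

lemma finite_zeros {f : ℝ → ℝ} (hc : Continuous f)
    (hiso : ∀ z, f z = 0 → ∀ᶠ t in 𝓝[≠] z, f t ≠ 0) (a b : ℝ) :
    {t | t ∈ Icc a b ∧ f t = 0}.Finite := by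
  by_contra hinf
  have hinf : {t | t ∈ Icc a b ∧ f t = 0}.Infinite := hinf
  obtain ⟨x, hx, hacc⟩ := hinf.exists_accPt_of_subset_isCompact isCompact_Icc
    (fun t ht => ht.1)
  rw [accPt_iff_frequently] at hacc
  have hfx : f x = 0 := by
    by_contra hne
    have h1 : ∀ᶠ y in 𝓝 x, f y ≠ 0 := hc.continuousAt.eventually_ne hne
    obtain ⟨y, hy1, hy2⟩ := (hacc.and_eventually h1).exists
    exact hy2 hy1.2.2
  have h1 := hiso x hfx
  rw [eventually_nhdsWithin_iff] at h1
  obtain ⟨y, hy1, hy2⟩ := (hacc.and_eventually h1).exists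
  exact hy2 hy1.1 hy1.2.2

namespace NodalSys

variable {U V : ℝ → ℝ × ℝ} {P Q r ρ j : ℝ → ℝ} {D : ℝ}

lemma Qπ (h : NodalSys U V P Q r ρ j D) (t : ℝ) : Q (t + π) = - Q t := by
  rw [← h.Pj, ← h.Pj, h.j_add, h.Pπ]

lemma isolatedQ (h : NodalSys U V P Q r ρ j D) (hne : ∃ t, P t ≠ 0) {z : ℝ} (hz : Q z = 0) :
    ∀ᶠ t in 𝓝[≠] z, Q t ≠ 0 := by
  have hP : P z ≠ 0 := by
    intro hP
    obtain ⟨t, ht⟩ := hne
    exact ht (h.eq_zero hP hz t)
  have hd : 2 * ρ z * P z ≠ 0 := by
    have := h.ρ_pos z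
    positivity
  have := (h.hQ z).eventually_ne hd (c := 0)
  simpa using this

lemma nd_shift (h : NodalSys U V P Q r ρ j D) {a b s : ℝ} (hnd : Nd P Q a b s) (k : ℤ) :
    Nd P Q (a + k * π) (b + k * π) (s + k * π) ∧
      cr (U (a + k * π)) (U (b + k * π)) / |P (s + k * π)| = cr (U a) (U b) / |P s| := by
  have hPp : Function.Periodic (fun t => |P t|) π := fun t => by simp only [h.Pπ, abs_neg]
  have hQp : Function.Periodic (fun t => |Q t|) π := fun t => by simp only [h.Qπ, abs_neg]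
  have hP0 : ∀ t, P (t + k * π) = 0 ↔ P t = 0 := by
    intro t
    have := hPp.int_mul k t
    rw [← abs_eq_zero, this, abs_eq_zero]
  have hQ0 : ∀ t, Q (t + k * π) = 0 ↔ Q t = 0 := by
    intro t
    have := hQp.int_mul k t
    rw [← abs_eq_zero, this, abs_eq_zero]
  constructor
  · refine ⟨by linarith [hnd.has], by linarith [hnd.hsb], (hP0 a).2 hnd.Pa, (hP0 b).2 hnd.Pb,
      ?_, (hQ0 s).2 hnd.Qs⟩
    intro t ht h0
    have h1 := (hP0 (t - k * π)).1 (by simpa using h0)
    exact hnd.ne (t - k * π) ⟨by linarith [ht.1], by linarith [ht.2]⟩ h1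
  · have hG : Function.Periodic (fun t => cr (U (a + t)) (U (b + t))) π := by
      intro t
      simp only
      rw [← add_assoc, ← add_assoc, h.Uπ, h.Uπ, cr_neg_left, cr_neg_right, neg_neg]
    have h1 := hG.int_mul k 0
    have h2 := hPp.int_mul k s
    simp only [zero_add, add_zero] at h1 h2
    rw [h1, h2]

lemma nd_normalize (h : NodalSys U V P Q r ρ j D) {a b s : ℝ} (hnd : Nd P Q a b s) :
    ∃ a' b' s', a' ∈ Icc 0 π ∧ Nd P Q a' b' s' ∧
      cr (U a') (U b') / |P s'| = cr (U a) (U b) / |P s| := by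
  have hπ := Real.pi_pos
  obtain ⟨h1, h2⟩ := h.nd_shift hnd (-⌊a / π⌋)
  refine ⟨_, _, _, ?_, h1, h2⟩
  have h3 := Int.floor_le (a / π)
  have h4 := Int.lt_floor_add_one (a / π)
  push_cast
  constructor
  · rw [le_div_iff₀ hπ] at h3; linarith
  · rw [div_lt_iff₀ hπ] at h4; linarith

/-- The main lemma: the only solution is `P = 0`. -/
theorem P_eq_zero (h : NodalSys U V P Q r ρ j D) : ∀ t, P t = 0 := by
  by_contra hcon
  push Not at hcon
  have hne : ∃ t, P t ≠ 0 := hcon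
  have hπ := Real.pi_pos
  -- the set of normalized nodal triples
  set T : Set (ℝ × ℝ × ℝ) := {q | q.1 ∈ Icc 0 π ∧ Nd P Q q.1 q.2.1 q.2.2} with hT
  have hTfin : T.Finite := by
    have hZ := finite_zeros h.Pcont (fun z hz => h.isolated hne hz) 0 (3 * π)
    have hW := finite_zeros h.Qcont (fun z hz => h.isolatedQ hne hz) 0 (3 * π)
    apply (hZ.prod (hZ.prod hW)).subset
    rintro ⟨a, b, s⟩ ⟨ha, hnd⟩
    simp only at ha hnd
    have hb : b ≤ a + π := by
      by_contra hb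
      exact hnd.ne (a + π) ⟨by linarith, not_le.1 hb⟩ (by rw [h.Pπ, hnd.Pa, neg_zero])
    have h1 := hnd.has
    have h2 := hnd.hsb
    refine ⟨⟨⟨ha.1, by linarith [ha.2]⟩, hnd.Pa⟩, ⟨⟨by linarith [ha.1], by linarith [ha.2]⟩, hnd.Pb⟩,
      ⟨⟨by linarith [ha.1], by linarith [ha.2]⟩, hnd.Qs⟩⟩
  have hTne : T.Nonempty := by
    -- a zero of P
    obtain ⟨t0, ht0⟩ := hne
    have hz : ∃ z, P z = 0 := by
      have hpre : IsPreconnected (univ : Set ℝ) := isPreconnected_univ
      rcases lt_or_gt_of_ne ht0 with hlt | hgt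
      · obtain ⟨y, -, hy⟩ := hpre.intermediate_value (mem_univ t0) (mem_univ (t0 + π))
          h.Pcont.continuousOn ⟨hlt.le, by rw [h.Pπ]; linarith⟩
        exact ⟨y, hy⟩
      · obtain ⟨y, -, hy⟩ := hpre.intermediate_value (mem_univ (t0 + π)) (mem_univ t0)
          h.Pcont.continuousOn ⟨by rw [h.Pπ]; linarith, hgt.le⟩
        exact ⟨y, hy⟩
    obtain ⟨z, hz⟩ := hz
    obtain ⟨b, hzb, -, hPb, hnb⟩ := exists_next h.Pcont (z := z) (w := z + π)
      (by linarith) (by rw [h.Pπ, hz, neg_zero]) (h.isolated ⟨t0, ht0⟩ hz)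
    obtain ⟨t, ht, ht1⟩ := exists_hasDerivAt_eq_zero hzb h.Pcont.continuousOn
      (by rw [hz, hPb]) (fun t _ => h.hP t)
    have hQt : Q t = 0 := by
      have := h.r_pos t
      have h2 : r t * Q t = 0 := by linarith
      exact (mul_eq_zero.1 h2).resolve_left this.ne'
    obtain ⟨a', b', s', ha', hnd', -⟩ := h.nd_normalize
      (⟨ht.1, ht.2, hz, hPb, hnb, hQt⟩ : Nd P Q z b t)
    exact ⟨(a', b', s'), ha', hnd'⟩
  obtain ⟨⟨a, b, s⟩, ⟨ha, hnd⟩, hmin⟩ := Set.exists_min_image T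
    (fun q => cr (U q.1) (U q.2.1) / |P q.2.2|) hTfin hTne
  simp only at ha hnd hmin
  obtain ⟨w1, w, w2, s1, s2, hn1, hn2, hlt⟩ := h.main_step hne hnd
  obtain ⟨a1, b1, c1, ha1, hd1, he1⟩ := h.nd_normalize hn1
  obtain ⟨a2, b2, c2, ha2, hd2, he2⟩ := h.nd_normalize hn2
  have m1 := hmin (a1, b1, c1) ⟨ha1, hd1⟩
  have m2 := hmin (a2, b2, c2) ⟨ha2, hd2⟩
  simp only at m1 m2
  rw [he1] at m1
  rw [he2] at m2
  linarith

end NodalSys

end Pool.Agent.H81
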