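import Pool.Agent.H81.Defs

/-!
Definitions for the case of the real projective plane `P²`, whose points are the elements of
Mathlib's `Projectivization ℝ (Fin 3 → ℝ)`.
-/

open Set Filter Topology

namespace Pool.Agent.H81

/-- The points of the real projective plane. -/
noncomputable abbrev P2 : Type := Projectivization ℝ (Fin 3 → ℝ)

/-- The point with homogeneous coordinate vector `x`. -/
noncomputable abbrev pt (x : Fin 3 → ℝ) (hx : x ≠ 0) : P2 := Projectivization.mk ℝ x hx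

/-- The projective lines. -/
def PLines : Set (Set P2) :=
  {L | ∃ W : Submodule ℝ (Fin 3 → ℝ), Module.finrank ℝ W = 2 ∧ L = {P | P.submodule ≤ W}}

/-- `(P², d)` is a projective-metric plane (of elliptic type) all whose metric circles are
strictly convex. -/
structure EllipticPlane (d : P2 → P2 → ℝ) : Prop where
  metric : CompleteMetric univ d
  /-- continuity for the quotient topology -/
  continuous : Continuous fun q : {x : Fin 3 → ℝ // x ≠ 0} × {x : Fin 3 → ℝ // x ≠ 0} =>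
    d (pt q.1.1 q.1.2) (pt q.2.1 q.2.2)
  /-- the (closed) geodesic lines, that is, the isometric images of Euclidean circles (with
  their arc length metric), are exactly the projective lines -/
  geodesic : ∀ L : Set P2, (∃ a : ℝ, 0 < a ∧ ∃ γ : AddCircle a → P2, range γ = L ∧
    ∀ s t, d (γ s) (γ t) = dist s t) ↔ L ∈ PLines
  /-- every metric disc which is not the whole plane lies in an affine chart `m ≠ 0` and is
  strictly convex in it -/
  circles : ∀ (O : P2) (r : ℝ), (∃ Q, r < d O Q) → ∃ m : (Fin 3 → ℝ) →ₗ[ℝ] ℝ,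
    (∀ x (hx : x ≠ 0), d O (pt x hx) ≤ r → m x ≠ 0) ∧
    ∀ x y (hx : x ≠ 0) (hy : y ≠ 0) (hxy : x + y ≠ 0), 0 < m x → 0 < m y → pt x hx ≠ pt y hy →
      d O (pt x hx) ≤ r → d O (pt y hy) ≤ r → d O (pt (x + y) hxy) < r

/-- `F` is a (`C²`) Finsler function on `P²` generating the metric `d`. A tangent vector of
`P²` at the point with homogeneous coordinates `X ≠ 0` is given by a vector `V` modulo `X`, the
pairs `(X, V)` and `(c X, c V + m X)` giving the same tangent vector. -/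
structure EllipticFinsler (F : (Fin 3 → ℝ) → (Fin 3 → ℝ) → ℝ) (d : P2 → P2 → ℝ) : Prop where
  inv : ∀ X V, X ≠ 0 → ∀ c m : ℝ, c ≠ 0 → F (c • X) (c • V + m • X) = F X V
  pos : ∀ X V, LinearIndependent ℝ ![X, V] → 0 < F X V
  hom : ∀ X V, X ≠ 0 → ∀ t : ℝ, F X (t • V) = |t| * F X V
  strict : ∀ X V W, LinearIndependent ℝ ![X, V, W] → F X (V + W) < F X V + F X W
  smooth : ContDiffOn ℝ 2 (fun q : (Fin 3 → ℝ) × (Fin 3 → ℝ) => F q.1 q.2)
    {q | LinearIndependent ℝ ![q.1, q.2]}
  generates : ∀ x y (hx : x ≠ 0) (hy : y ≠ 0), IsGLB {l : ℝ | ∃ γ : ℝ → Fin 3 → ℝ,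
    ContDiff ℝ 1 γ ∧ (∀ t ∈ Icc (0 : ℝ) 1, γ t ≠ 0) ∧
    (∃ a : ℝ, γ 0 = a • x) ∧ (∃ b : ℝ, γ 1 = b • y) ∧
    l = ∫ t in (0 : ℝ)..1, F (γ t) (deriv γ t)} (d (pt x hx) (pt y hy))

end Pool.Agent.H81
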