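import Pool.Agent.H81.Chart

open Set Filter Topology Real MeasureTheory

namespace Pool.Agent.H81

namespace FReg

variable {M : Set (ℝ × ℝ)} {F : ℝ × ℝ → ℝ × ℝ → ℝ}

/-- uniform comparison on a small ball -/
lemma close (h : FReg M F) {x : ℝ × ℝ} (hx : x ∈ M) (hN : ∀ x ∈ M, SCNorm (F x)) {ε : ℝ}
    (hε : 0 < ε) : ∃ R > 0, Metric.closedBall x R ⊆ M ∧ ∃ m > 0,
      (∀ y ∈ Metric.closedBall x R, ∀ w, m * ‖w‖ ≤ F y w) ∧
      ∀ y ∈ Metric.closedBall x R, ∀ w, F x w ≤ (1 + ε) * F y w := by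
  obtain ⟨R, hR, hRM, m, hm, C, hC, hb⟩ := h.local_bounds hx
  have hK : IsCompact (Metric.closedBall x R ×ˢ Metric.sphere (0 : ℝ × ℝ) 1) :=
    (isCompact_closedBall x R).prod (isCompact_sphere 0 1)
  have hc : ContinuousOn (Fu F) (Metric.closedBall x R ×ˢ Metric.sphere (0 : ℝ × ℝ) 1) :=
    h.cont.mono (fun q hq => ⟨hRM hq.1, mem_univ _⟩)
  have huc := hK.uniformContinuousOn_of_continuous hc
  rw [Metric.uniformContinuousOn_iff] at huc
  obtain ⟨δ, hδ, hδ2⟩ := huc (ε * m) (mul_pos hε hm)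
  have hsub : Metric.closedBall x (min R (δ / 2)) ⊆ Metric.closedBall x R :=
    Metric.closedBall_subset_closedBall (min_le_left _ _)
  refine ⟨min R (δ / 2), lt_min hR (by linarith), hsub.trans hRM, m, hm,
    fun y hy w => (hb y (hsub hy) w).1, ?_⟩
  intro y hy w
  have hyR : y ∈ Metric.closedBall x R := hsub hy
  by_cases hw : w = 0
  · have e1 : F y 0 = 0 := (hN y (hRM hyR)).zero
    have e2 : F x 0 = 0 := (hN x hx).zero
    rw [hw, e1, e2]; simp
  · have hwn : 0 < ‖w‖ := norm_pos_iff.2 hw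
    have hws : ‖w‖⁻¹ • w ∈ Metric.sphere (0 : ℝ × ℝ) 1 := by simp [norm_smul, hwn.ne']
    have hd : dist ((x, ‖w‖⁻¹ • w) : (ℝ × ℝ) × (ℝ × ℝ)) (y, ‖w‖⁻¹ • w) < δ := by
      rw [Prod.dist_eq, dist_self]
      have : dist x y ≤ min R (δ / 2) := by rw [dist_comm]; exact hy
      have h2 : min R (δ / 2) ≤ δ / 2 := min_le_right _ _
      apply max_lt <;> linarith
    have h3 := hδ2 _ (⟨Metric.mem_closedBall_self hR.le, hws⟩ :
      (x, ‖w‖⁻¹ • w) ∈ Metric.closedBall x R ×ˢ Metric.sphere (0 : ℝ × ℝ) 1) _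
      (⟨hyR, hws⟩ : (y, ‖w‖⁻¹ • w) ∈ Metric.closedBall x R ×ˢ Metric.sphere (0 : ℝ × ℝ) 1) hd
    rw [Real.dist_eq] at h3
    have h4 := (abs_lt.1 h3).2
    have h4' : F x (‖w‖⁻¹ • w) - F y (‖w‖⁻¹ • w) < ε * m := h4
    rw [h.hom x hx, h.hom y (hRM hyR), abs_of_pos (inv_pos.2 hwn)] at h4'
    have h5 : ‖w‖ * (‖w‖⁻¹ * F x w - ‖w‖⁻¹ * F y w) < ‖w‖ * (ε * m) := by gcongr
    have h6 : ‖w‖ * (‖w‖⁻¹ * F x w - ‖w‖⁻¹ * F y w) = F x w - F y w := by
      field_simp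
    rw [h6] at h5
    have h7 := (hb y hyR w).1
    have h8 : ε * (m * ‖w‖) ≤ ε * F y w := by gcongr
    nlinarith

lemma len_stay (h : FReg M F) {x : ℝ × ℝ} (hx : x ∈ M) (hN : SCNorm (F x)) {K : Set (ℝ × ℝ)}
    (hK : K ⊆ M) {v : ℝ × ℝ} (hv : v ≠ 0) {ε : ℝ} (hcl : ∀ y ∈ K, ∀ w, F x w ≤ (1 + ε) * F y w)
    {γ γ' : ℝ → ℝ × ℝ} (hd : ∀ τ ∈ Icc (0:ℝ) 1, HasDerivAt γ (γ' τ) τ)
    (hc : ContinuousOn γ' (Icc 0 1)) (hγK : ∀ τ ∈ Icc (0:ℝ) 1, γ τ ∈ K) {t : ℝ} (h0 : γ 0 = x)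
    (h1 : γ 1 = x + t • v) : t * F x v ≤ (1 + ε) * ∫ τ in (0:ℝ)..1, F (γ τ) (γ' τ) := by
  have hpvc : ContinuousOn (fun τ => pv F x v (γ' τ)) (Icc 0 1) :=
    (dF F (x, v)).continuous.comp_continuousOn (continuousOn_const.prodMk hc)
  have hi0 : IntervalIntegrable (fun τ => pv F x v (γ' τ)) volume 0 1 := by
    apply ContinuousOn.intervalIntegrable
    rwa [uIcc_of_le zero_le_one]
  have hγc : ContinuousOn γ (Icc 0 1) := fun τ hτ => (hd τ hτ).continuousAt.continuousWithinAt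
  have hi1 : IntervalIntegrable (fun τ => F (γ τ) (γ' τ)) volume 0 1 := by
    apply ContinuousOn.intervalIntegrable
    rw [uIcc_of_le zero_le_one]
    exact h.cont.comp (hγc.prodMk hc) (fun τ hτ => ⟨hK (hγK τ hτ), mem_univ _⟩)
  have e1 : t * F x v = ∫ τ in (0:ℝ)..1, pv F x v (γ' τ) := by
    have e2 : ∫ τ in (0:ℝ)..1, pv F x v (γ' τ) = pv F x v (γ 1) - pv F x v (γ 0) := by
      apply intervalIntegral.integral_eq_sub_of_hasDerivAt (f := fun τ => pv F x v (γ τ))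
      · intro τ hτ
        rw [uIcc_of_le zero_le_one] at hτ
        have h2 : HasDerivAt (fun s => (((0 : ℝ × ℝ), γ s) : (ℝ × ℝ) × (ℝ × ℝ)))
            (0, γ' τ) τ := (hasDerivAt_const τ (0 : ℝ × ℝ)).prodMk (hd τ hτ)
        exact (dF F (x, v)).hasFDerivAt.comp_hasDerivAt τ h2
      · exact hi0
    rw [e2, h1, h0, pv_add, pv_smul, h.pv_self hx hv]; ring
  rw [e1, ← intervalIntegral.integral_const_mul]
  apply intervalIntegral.integral_mono_on zero_le_one hi0 (hi1.const_mul _)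
  intro τ hτ
  exact (h.pv_le hx hN hv).trans (hcl _ (hγK τ hτ) _)

lemma len_leave (h : FReg M F) {K : Set (ℝ × ℝ)} (hK : K ⊆ M) {m : ℝ} (hm : 0 < m)
    (hlow : ∀ y ∈ K, ∀ w, m * ‖w‖ ≤ F y w) {γ γ' : ℝ → ℝ × ℝ} {T : ℝ} (hT : 0 ≤ T)
    (hd : ∀ τ ∈ Icc (0:ℝ) T, HasDerivAt γ (γ' τ) τ)
    (hc : ContinuousOn γ' (Icc 0 T)) (hγK : ∀ τ ∈ Icc (0:ℝ) T, γ τ ∈ K) :
    m * ‖γ T - γ 0‖ ≤ ∫ τ in (0:ℝ)..T, F (γ τ) (γ' τ) := by
  have hγc : ContinuousOn γ (Icc 0 T) := fun τ hτ => (hd τ hτ).continuousAt.continuousWithinAt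
  have hi0 : IntervalIntegrable γ' volume 0 T := by
    apply ContinuousOn.intervalIntegrable
    rwa [uIcc_of_le hT]
  have hi1 : IntervalIntegrable (fun τ => F (γ τ) (γ' τ)) volume 0 T := by
    apply ContinuousOn.intervalIntegrable
    rw [uIcc_of_le hT]
    exact h.cont.comp (hγc.prodMk hc) (fun τ hτ => ⟨hK (hγK τ hτ), mem_univ _⟩)
  have e2 : ∫ τ in (0:ℝ)..T, γ' τ = γ T - γ 0 := by
    apply intervalIntegral.integral_eq_sub_of_hasDerivAt
    · intro τ hτ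
      rw [uIcc_of_le hT] at hτ
      exact hd τ hτ
    · exact hi0
  rw [← e2]
  have h3 : ‖∫ τ in (0:ℝ)..T, γ' τ‖ ≤ ∫ τ in (0:ℝ)..T, ‖γ' τ‖ :=
    intervalIntegral.norm_integral_le_integral_norm hT
  calc m * ‖∫ τ in (0:ℝ)..T, γ' τ‖ ≤ m * ∫ τ in (0:ℝ)..T, ‖γ' τ‖ := by gcongr
    _ = ∫ τ in (0:ℝ)..T, m * ‖γ' τ‖ := by
        rw [intervalIntegral.integral_const_mul]
    _ ≤ ∫ τ in (0:ℝ)..T, F (γ τ) (γ' τ) := by
        apply intervalIntegral.integral_mono_on hT (hi0.norm.const_mul _) hi1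
        intro τ hτ
        exact hlow _ (hγK τ hτ) _

end FReg

namespace HFinsler

variable {F D : E3 → E3 → ℝ}

lemma hasDerivAt_cx (A : Cht) {c : ℝ → E3} {c' : E3} {τ : ℝ} (hc : HasDerivAt c c' τ)
    (hne : ch A (c τ) ≠ 0) : HasDerivAt (fun s => cx A (c s)) (cvv A (c τ) c') τ := by
  have h1 : HasDerivAt (fun s => A.symm (c s)) (A.symm c') τ :=
    (A.symm.hasFDerivAt (x := c τ)).comp_hasDerivAt τ hc
  have h2 : HasDerivAt (fun s => (A.symm (c s)).1) (A.symm c').1 τ :=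
    (ContinuousLinearMap.fst ℝ (ℝ × ℝ) ℝ).hasFDerivAt.comp_hasDerivAt τ h1
  have h3 : HasDerivAt (fun s => (A.symm (c s)).2) (A.symm c').2 τ :=
    (ContinuousLinearMap.snd ℝ (ℝ × ℝ) ℝ).hasFDerivAt.comp_hasDerivAt τ h1
  have hne' : (A.symm (c τ)).2 ≠ 0 := hne
  have h4 := (h3.inv hne').smul h2
  refine h4.congr_deriv ?_
  rw [cvv, cx, smul_sub, smul_smul, smul_smul]
  rw [sub_eq_add_neg, ← neg_smul]
  congr 2
  field_simp

lemma integrand_cont (h : HFinsler F D) {c : ℝ → E3} (hc : ContDiff ℝ 1 c)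
    (hne : ∀ τ ∈ Icc (0:ℝ) 1, c τ ≠ 0) :
    ContinuousOn (fun τ => F (c τ) (deriv c τ)) (Icc 0 1) := by
  have c1 : Continuous fun t => ((c t, deriv c t) : E3 × E3) :=
    hc.continuous.prodMk (hc.continuous_deriv (by norm_num))
  exact h.cont.comp c1.continuousOn (fun t ht => hne t ht)

lemma len_lower (h : HFinsler F D) (A : Cht) (x : ℝ × ℝ) {v : ℝ × ℝ} (hv : v ≠ 0) {ε : ℝ}
    (hε : 0 < ε) : ∃ t0 > 0, ∀ t, 0 < t → t < t0 → ∀ c : ℝ → E3, ContDiff ℝ 1 c →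
      (∀ τ ∈ Icc (0:ℝ) 1, c τ ≠ 0) → (∃ a : ℝ, c 0 = a • A (x, 1)) →
      (∃ b : ℝ, c 1 = b • A (x + t • v, 1)) →
      t * FA F A x v ≤ (1 + ε) * ∫ τ in (0:ℝ)..1, F (c τ) (deriv c τ) := by
  have hR := h.freg A
  obtain ⟨R, hRpos, -, m, hm, hlow, hcl⟩ := hR.close (mem_univ x) (fun x _ => h.scnorm A x) hε
  have hFv := hR.pos x (mem_univ x) v hv
  refine ⟨m * R / FA F A x v, by positivity, ?_⟩
  intro t ht htt c hc hne ⟨a, hc0⟩ ⟨b, hc1⟩
  have h0mem : (0:ℝ) ∈ Icc (0:ℝ) 1 := by simp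
  have h1mem : (1:ℝ) ∈ Icc (0:ℝ) 1 := by simp
  have ha : a ≠ 0 := by
    intro h0; apply hne 0 h0mem; rw [hc0, h0, zero_smul]
  have hb : b ≠ 0 := by
    intro h0; apply hne 1 h1mem; rw [hc1, h0, zero_smul]
  have hcd : ∀ τ, HasDerivAt c (deriv c τ) τ := fun τ =>
    ((hc.differentiable (by norm_num)) τ).hasDerivAt
  have hdc : Continuous (deriv c) := hc.continuous_deriv (by norm_num)
  have hint := h.integrand_cont hc hne
  have hnn : ∀ τ ∈ Icc (0:ℝ) 1, 0 ≤ F (c τ) (deriv c τ) := fun τ hτ => h.nonneg (hne τ hτ) _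
  have hlen0 : 0 ≤ ∫ τ in (0:ℝ)..1, F (c τ) (deriv c τ) :=
    intervalIntegral.integral_nonneg zero_le_one hnn
  have hs : Continuous A.symm := A.symm.continuous
  -- chart curve
  set γ : ℝ → ℝ × ℝ := fun s => cx A (c s) with hγ
  set γ' : ℝ → ℝ × ℝ := fun s => cvv A (c s) (deriv c s) with hγ'
  have hγd : ∀ τ, ch A (c τ) ≠ 0 → HasDerivAt γ (γ' τ) τ := fun τ hτ => hasDerivAt_cx A (hcd τ) hτ
  have hγ'c : ∀ τ, ch A (c τ) ≠ 0 → ContinuousAt γ' τ := by
    intro τ hτ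
    have k0 : ContinuousAt (fun s => (A.symm (c s)).2⁻¹) τ :=
      ((continuous_snd.comp hs).comp hc.continuous).continuousAt.inv₀ hτ
    have k1 : ContinuousAt (fun s => (A.symm (deriv c s)).1) τ :=
      ((continuous_fst.comp hs).comp hdc).continuousAt
    have k2 : ContinuousAt (fun s => (A.symm (deriv c s)).2) τ :=
      ((continuous_snd.comp hs).comp hdc).continuousAt
    have k3 : ContinuousAt γ τ := (hγd τ hτ).continuousAt
    exact k0.smul (k1.sub (k2.smul k3))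
  have hFeq : ∀ τ, ch A (c τ) ≠ 0 → F (c τ) (deriv c τ) = FA F A (γ τ) (γ' τ) :=
    fun τ hτ => h.F_eq A hτ
  have hγ0 : γ 0 = x := by
    simp only [hγ, cx, hc0, map_smul, ContinuousLinearEquiv.symm_apply_apply, Prod.smul_snd,
      Prod.smul_fst, smul_eq_mul, mul_one]
    rw [smul_smul, inv_mul_cancel₀ ha, one_smul]
  have hγ1 : γ 1 = x + t • v := by
    simp only [hγ, cx, hc1, map_smul, ContinuousLinearEquiv.symm_apply_apply, Prod.smul_snd,
      Prod.smul_fst, smul_eq_mul, mul_one]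
    rw [smul_smul, inv_mul_cancel₀ hb, one_smul]
  -- exit set
  set g : ℝ → ℝ := fun τ => R * |ch A (c τ)| - ‖(A.symm (c τ)).1 - ch A (c τ) • x‖ with hg
  have hgc : Continuous g := by
    have k1 : Continuous fun τ => ch A (c τ) := (ch_cont A).comp hc.continuous
    have k2 : Continuous fun τ => (A.symm (c τ)).1 := (continuous_fst.comp hs).comp hc.continuous
    exact (continuous_const.mul k1.abs).sub (k2.sub (k1.smul continuous_const)).norm
  have hin : ∀ τ, c τ ≠ 0 → 0 ≤ g τ → ch A (c τ) ≠ 0 ∧ γ τ ∈ Metric.closedBall x R := by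
    intro τ hcτ hgτ
    have hgτ : 0 ≤ R * |ch A (c τ)| - ‖(A.symm (c τ)).1 - ch A (c τ) • x‖ := hgτ
    have hch : ch A (c τ) ≠ 0 := by
      intro h0
      rw [h0, abs_zero, mul_zero, zero_smul, sub_zero, zero_sub] at hgτ
      have h2 : (A.symm (c τ)).1 = 0 := by
        rw [← norm_le_zero_iff]; linarith
      apply hcτ
      apply A.symm.injective
      rw [map_zero]
      exact Prod.ext h2 h0
    refine ⟨hch, ?_⟩
    rw [Metric.mem_closedBall, dist_eq_norm]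
    have e1 : γ τ - x = (ch A (c τ))⁻¹ • ((A.symm (c τ)).1 - ch A (c τ) • x) := by
      rw [smul_sub, smul_smul, inv_mul_cancel₀ hch, one_smul]; rfl
    rw [e1, norm_smul, norm_inv, Real.norm_eq_abs, inv_mul_le_iff₀ (abs_pos.2 hch)]
    linarith
  by_cases hstay : ∀ τ ∈ Icc (0:ℝ) 1, 0 ≤ g τ
  · have hh : ∀ τ ∈ Icc (0:ℝ) 1, ch A (c τ) ≠ 0 ∧ γ τ ∈ Metric.closedBall x R :=
      fun τ hτ => hin τ (hne τ hτ) (hstay τ hτ)
    have := hR.len_stay (mem_univ x) (h.scnorm A x) (subset_univ _) hv hcl (γ := γ) (γ' := γ')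
      (fun τ hτ => hγd τ (hh τ hτ).1) (fun τ hτ => (hγ'c τ (hh τ hτ).1).continuousWithinAt)
      (fun τ hτ => (hh τ hτ).2) hγ0 hγ1
    rw [intervalIntegral.integral_congr (g := fun τ => FA F A (γ τ) (γ' τ))]
    · exact this
    · intro τ hτ
      rw [uIcc_of_le zero_le_one] at hτ
      exact hFeq τ (hh τ hτ).1
  · push Not at hstay
    obtain ⟨τ1, hτ1, hout⟩ := hstay
    set S : Set ℝ := Icc (0:ℝ) 1 ∩ {τ | g τ ≤ 0} with hS
    have hScomp : IsCompact S := isCompact_Icc.inter_right (isClosed_le hgc continuous_const)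
    have hSne : S.Nonempty := ⟨τ1, hτ1, hout.le⟩
    obtain ⟨T, hT, hmin⟩ := hScomp.exists_isLeast hSne
    have hbefore : ∀ τ ∈ Ico (0:ℝ) T, 0 < g τ := by
      intro τ hτ
      by_contra hcon
      have : τ ∈ S := ⟨⟨hτ.1, hτ.2.le.trans hT.1.2⟩, not_lt.1 hcon⟩
      exact absurd (hmin this) (not_le.2 hτ.2)
    have hg0 : 0 < g 0 := by
      have e1 : (A.symm (c 0)).1 - ch A (c 0) • x = 0 := by
        rw [hc0]
        simp [ch]
      have e2 : ch A (c 0) = a := by rw [hc0]; simp [ch]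
      simp only [hg]
      rw [e1, e2, norm_zero, sub_zero]
      have := abs_pos.2 ha
      positivity
    have hTpos : 0 < T := by
      rcases hT.1.1.lt_or_eq with h1 | h1
      · exact h1
      · have : g T ≤ 0 := hT.2
        rw [← h1] at this; linarith
    have hgT : g T = 0 := by
      apply le_antisymm hT.2
      have hcw : Tendsto g (𝓝[<] T) (𝓝 (g T)) := hgc.continuousAt.mono_left nhdsWithin_le_nhds
      apply ge_of_tendsto hcw
      filter_upwards [nhdsWithin_le_nhds (lt_mem_nhds hTpos), self_mem_nhdsWithin] with s h2 h3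
      exact (hbefore s ⟨h2.le, h3⟩).le
    have hh : ∀ τ ∈ Icc (0:ℝ) T, ch A (c τ) ≠ 0 ∧ γ τ ∈ Metric.closedBall x R := by
      intro τ hτ
      apply hin τ (hne τ ⟨hτ.1, hτ.2.trans hT.1.2⟩)
      rcases hτ.2.lt_or_eq with h1 | h1
      · exact (hbefore τ ⟨hτ.1, h1⟩).le
      · rw [h1, hgT]
    have hlv := hR.len_leave (subset_univ _) hm hlow hTpos.le (γ := γ) (γ' := γ')
      (fun τ hτ => hγd τ (hh τ hτ).1) (fun τ hτ => (hγ'c τ (hh τ hτ).1).continuousWithinAt)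
      (fun τ hτ => (hh τ hτ).2)
    have hγT : ‖γ T - γ 0‖ = R := by
      have hch := (hh T ⟨hTpos.le, le_refl T⟩).1
      have e1 : γ T - γ 0 = (ch A (c T))⁻¹ • ((A.symm (c T)).1 - ch A (c T) • x) := by
        rw [hγ0, smul_sub, smul_smul, inv_mul_cancel₀ hch, one_smul]; rfl
      have e2 : ‖(A.symm (c T)).1 - ch A (c T) • x‖ = R * |ch A (c T)| := by
        have : R * |ch A (c T)| - ‖(A.symm (c T)).1 - ch A (c T) • x‖ = 0 := hgT
        linarith
      rw [e1, norm_smul, norm_inv, Real.norm_eq_abs, e2]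
      have := abs_pos.2 hch
      field_simp
    rw [hγT] at hlv
    have hii : ∀ a b, a ∈ Icc (0:ℝ) 1 → b ∈ Icc (0:ℝ) 1 →
        IntervalIntegrable (fun t => F (c t) (deriv c t)) volume a b := by
      intro a b ha hb
      apply ContinuousOn.intervalIntegrable
      apply hint.mono
      exact (convex_Icc (0:ℝ) 1).ordConnected.uIcc_subset ha hb
    have hlen1 : ∫ τ in (0:ℝ)..T, F (c τ) (deriv c τ) ≤ ∫ τ in (0:ℝ)..1, F (c τ) (deriv c τ) := by
      have := intervalIntegral.integral_add_adjacent_intervals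
        (hii 0 T h0mem hT.1) (hii T 1 hT.1 h1mem)
      rw [← this]
      have h3 : 0 ≤ ∫ τ in T..1, F (c τ) (deriv c τ) :=
        intervalIntegral.integral_nonneg hT.1.2 (fun τ hτ => hnn τ ⟨hT.1.1.trans hτ.1, hτ.2⟩)
      linarith
    have hlen2 : ∫ τ in (0:ℝ)..T, F (c τ) (deriv c τ) = ∫ τ in (0:ℝ)..T, FA F A (γ τ) (γ' τ) := by
      apply intervalIntegral.integral_congr
      intro τ hτ
      rw [uIcc_of_le hTpos.le] at hτ
      exact hFeq τ (hh τ hτ).1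
    have h5 : t * FA F A x v < m * R := by
      rw [lt_div_iff₀ hFv] at htt; exact htt
    nlinarith

/-- the metric determines the Finsler function -/
lemma lim (h : HFinsler F D) (A : Cht) (x : ℝ × ℝ) {v : ℝ × ℝ} (hv : v ≠ 0) :
    Tendsto (fun t : ℝ => DA D A x (x + t • v) / t) (𝓝[>] 0) (𝓝 (FA F A x v)) := by
  have hR := h.freg A
  have hFv := hR.pos x (mem_univ x) v hv
  rw [Metric.tendsto_nhds]
  intro ε hε
  set ε' := ε / (2 * FA F A x v) with hε'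
  have hε'pos : 0 < ε' := by positivity
  obtain ⟨t0, ht0, hlow⟩ := h.len_lower A x hv hε'pos
  have hcF : ContinuousAt (fun y => FA F A y v) x := by
    have c1 : ContinuousAt (fun y : ℝ × ℝ => ((y, v) : (ℝ × ℝ) × (ℝ × ℝ))) x :=
      (continuous_id.prodMk continuous_const).continuousAt
    exact ContinuousAt.comp (f := fun y : ℝ × ℝ => ((y, v) : (ℝ × ℝ) × (ℝ × ℝ)))
      (g := Fu (FA F A)) (hR.cda (mem_univ x) hv).continuousAt c1
  have hev : ∀ᶠ y in 𝓝 x, FA F A y v < FA F A x v + ε / 2 :=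
    hcF.eventually_lt_const (show FA F A x v < FA F A x v + ε / 2 by linarith)
  rw [Metric.eventually_nhds_iff_ball] at hev
  obtain ⟨ρ, hρ, hball⟩ := hev
  have hvn : 0 < ‖v‖ := norm_pos_iff.2 hv
  have hev2 : ∀ᶠ t in 𝓝[>] (0:ℝ), 0 < t ∧ t < t0 ∧ t * ‖v‖ < ρ := by
    have h1 : ∀ᶠ t in 𝓝[>] (0:ℝ), t < min t0 (ρ / ‖v‖) :=
      nhdsWithin_le_nhds (gt_mem_nhds (lt_min ht0 (by positivity)))
    filter_upwards [h1, self_mem_nhdsWithin] with t h1 h2
    refine ⟨h2, h1.trans_le (min_le_left _ _), ?_⟩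
    have := h1.trans_le (min_le_right _ _)
    rwa [lt_div_iff₀ hvn] at this
  filter_upwards [hev2] with t ⟨ht, htt0, htρ⟩
  have hseg : ∀ τ ∈ Icc (0:ℝ) 1, x + τ • (t • v) ∈ Metric.ball x ρ := by
    intro τ hτ
    rw [Metric.mem_ball, dist_eq_norm, add_sub_cancel_left, norm_smul, norm_smul, Real.norm_eq_abs,
      Real.norm_eq_abs, abs_of_nonneg hτ.1, abs_of_pos ht]
    calc τ * (t * ‖v‖) ≤ 1 * (t * ‖v‖) := by
          apply mul_le_mul_of_nonneg_right hτ.2; positivity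
      _ < ρ := by linarith
  -- the segment
  set c : ℝ → E3 := fun τ => A (x + τ • (t • v), 1) with hc
  have hcC : ContDiff ℝ 1 c := by
    have h1 : ContDiff ℝ 1 (fun τ : ℝ => ((x + τ • (t • v), (1:ℝ)) : (ℝ × ℝ) × ℝ)) := by
      apply ContDiff.prodMk _ contDiff_const
      fun_prop
    exact A.contDiff.comp h1
  have hcd : ∀ τ, deriv c τ = A (t • v, 0) := by
    intro τ
    have h1 : HasDerivAt (fun τ : ℝ => x + τ • (t • v)) ((1:ℝ) • (t • v)) τ :=
      ((hasDerivAt_id τ).smul_const (t • v)).const_add x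
    rw [one_smul] at h1
    have h2 : HasDerivAt (fun τ : ℝ => ((x + τ • (t • v), (1:ℝ)) : (ℝ × ℝ) × ℝ)) (t • v, 0) τ :=
      h1.prodMk (hasDerivAt_const τ (1:ℝ))
    exact ((A.hasFDerivAt (x := (x + τ • (t • v), (1:ℝ)))).comp_hasDerivAt τ h2).deriv
  have hcne : ∀ τ ∈ Icc (0:ℝ) 1, c τ ≠ 0 := fun τ _ => A_ne A _
  have hlenc : ∫ τ in (0:ℝ)..1, F (c τ) (deriv c τ) ≤ t * (FA F A x v + ε / 2) := by
    have h1 : ∫ τ in (0:ℝ)..1, F (c τ) (deriv c τ) ≤ ∫ τ in (0:ℝ)..1, t * (FA F A x v + ε / 2) := by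
      apply intervalIntegral.integral_mono_on zero_le_one
      · apply ContinuousOn.intervalIntegrable
        rw [uIcc_of_le zero_le_one]
        exact h.integrand_cont hcC hcne
      · exact intervalIntegrable_const
      · intro τ hτ
        rw [hcd]
        change FA F A (x + τ • (t • v)) (t • v) ≤ _
        rw [hR.hom _ (mem_univ _), abs_of_pos ht]
        have h3 := (hball _ (hseg τ hτ)).le
        gcongr
    simpa using h1
  have hglb := h.generates (A (x, 1)) (A (x + t • v, 1)) (A_ne A _) (A_ne A _)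
  have hup : DA D A x (x + t • v) ≤ t * (FA F A x v + ε / 2) :=
    (hglb.1 ⟨c, hcC, hcne, ⟨1, by simp [hc]⟩, ⟨1, by simp [hc]⟩, rfl⟩).trans hlenc
  have hlo : t * FA F A x v / (1 + ε') ≤ DA D A x (x + t • v) := by
    apply hglb.2
    rintro l ⟨c, hc, hcM, hc0, hc1, rfl⟩
    rw [div_le_iff₀ (by positivity)]
    have := hlow t ht htt0 c hc hcM hc0 hc1
    linarith
  rw [Real.dist_eq, abs_lt]
  constructor
  · have h1 : FA F A x v / (1 + ε') ≤ DA D A x (x + t • v) / t := by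
      rw [le_div_iff₀ ht]
      calc FA F A x v / (1 + ε') * t = t * FA F A x v / (1 + ε') := by ring
        _ ≤ _ := hlo
    have h2 : FA F A x v - ε < FA F A x v / (1 + ε') := by
      rw [lt_div_iff₀ (by positivity)]
      have h3 : FA F A x v * ε' = ε / 2 := by rw [hε']; field_simp
      nlinarith
    linarith
  · have h1 : DA D A x (x + t • v) / t ≤ FA F A x v + ε / 2 := by
      rw [div_le_iff₀ ht]; linarith
    linarith

end HFinsler

end Pool.Agent.H81
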