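import Pool.Agent.H81.Radon

open Set Filter Topology Real

namespace Pool.Agent.H81

lemma uu_add_pi_div_two_add (φ α : ℝ) :
    uu (φ + π / 2 + α) = (-(Real.sin α)) • uu φ + Real.cos α • nn φ := by
  have e : φ + π / 2 + α = (φ + α) + π / 2 := by ring
  rw [e]
  ext
  · simp only [uu, nn, Real.cos_add_pi_div_two, Real.sin_add, Prod.fst_add, Prod.smul_fst,
      smul_eq_mul]
    ring
  · simp only [uu, nn, Real.sin_add_pi_div_two, Real.cos_add, Prod.snd_add, Prod.smul_snd,
      smul_eq_mul]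
    ring

/-- bounded: continuous periodic functions are bounded above -/
lemma bdd_of_periodic {f : ℝ → ℝ} (hc : Continuous f) (hp : Function.Periodic f π) :
    ∃ K, ∀ t, f t ≤ K := by
  obtain ⟨K, hK⟩ := (isCompact_Icc (a := (0:ℝ)) (b := π)).exists_bound_of_continuousOn
    hc.continuousOn
  refine ⟨K, fun t => ?_⟩
  obtain ⟨y, hy, hyt⟩ := hp.exists_mem_Ico₀ Real.pi_pos t
  rw [hyt]
  exact (le_abs_self _).trans (hK y ⟨hy.1, hy.2.le⟩)

namespace FReg

variable {M : Set (ℝ × ℝ)} {F : ℝ × ℝ → ℝ × ℝ → ℝ}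

/-- The key pointwise identity `F_x(x,v) v = (2/3) (L v / k) F(x,v)`. -/
theorem px_self_eq (h : FReg M F) (hR : ∀ x ∈ M, RadonAt F x) {x : ℝ × ℝ} (hx : x ∈ M)
    (hH : HamelAt F x) {L : ℝ × ℝ →L[ℝ] ℝ}
    (hL : ∀ v, v ≠ 0 → ∀ y, L y = px F x (GG F x v) y + (kk F x / F x v) * px F x v y) :
    ∀ v, v ≠ 0 → px F x v v = (2/3) * (L v / kk F x) * F x v := by
  set k := kk F x with hk
  have hkpos : 0 < k := h.kk_pos hx
  have hRx := hR x hx
  -- basic angular functions
  set h0 : ℝ → ℝ := fun φ => F x (uu φ) with hh0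
  set h1 : ℝ → ℝ := fun φ => pv F x (uu φ) (nn φ) with hh1
  set h2 : ℝ → ℝ := fun φ => ddF F (x, uu φ) (0, nn φ) (0, nn φ) - h0 φ with hh2
  have h0pos : ∀ φ, 0 < h0 φ := fun φ => h.pos x hx _ (uu_ne φ)
  have dh0 : ∀ φ, HasDerivAt h0 (h1 φ) φ := fun φ =>
    h.hasDerivAt_F_curve hx (hasDerivAt_uu φ) (uu_ne φ)
  have dh1 : ∀ φ, HasDerivAt h1 (h2 φ) φ := by
    intro φ
    have hb : HasDerivAt (fun s => (((0 : ℝ × ℝ), nn s) : (ℝ × ℝ) × (ℝ × ℝ))) (0, -(uu φ)) φ :=
      (hasDerivAt_const φ (0 : ℝ × ℝ)).prodMk (hasDerivAt_nn φ)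
    have e1 := h.hasDerivAt_dF_curve hx (hasDerivAt_const φ x) (hasDerivAt_uu φ) (uu_ne φ) hb
    refine e1.congr_deriv ?_
    have e2 : dF F (x, uu φ) (0, -(uu φ)) = - h0 φ := by
      have := pv_neg (F := F) x (uu φ) (uu φ)
      rw [h.pv_self hx (uu_ne φ)] at this
      exact this
    rw [e2]; rfl
  have cuu : Continuous uu := continuous_iff_continuousAt.2 fun t => (hasDerivAt_uu t).continuousAt
  have cnn : Continuous nn := continuous_iff_continuousAt.2 fun t => (hasDerivAt_nn t).continuousAt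
  have ch0 : Continuous h0 := continuous_iff_continuousAt.2 fun t => (dh0 t).continuousAt
  have ch1 : Continuous h1 := continuous_iff_continuousAt.2 fun t => (dh1 t).continuousAt
  have ch2 : Continuous h2 := by
    have c1 : Continuous fun φ => ddF F (x, uu φ) := by
      rw [continuous_iff_continuousAt]
      intro φ
      have c2 : ContinuousAt (fun φ => ((x, uu φ) : (ℝ × ℝ) × (ℝ × ℝ))) φ :=
        (continuous_const.prodMk cuu).continuousAt
      exact ContinuousAt.comp (f := fun φ => ((x, uu φ) : (ℝ × ℝ) × (ℝ × ℝ))) (g := ddF F)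
        (h.cddF hx (uu_ne φ)) c2
    have c3 : Continuous fun φ => (((0 : ℝ × ℝ), nn φ) : (ℝ × ℝ) × (ℝ × ℝ)) :=
      continuous_const.prodMk cnn
    exact ((c1.clm_apply c3).clm_apply c3).sub ch0
  have h0per : ∀ φ, h0 (φ + π) = h0 φ := by
    intro φ
    simp only [hh0, uu_add_pi]
    have := h.hom x hx (-1) (uu φ)
    simpa using this
  have h1per : ∀ φ, h1 (φ + π) = h1 φ := by
    intro φ
    simp only [hh1, uu_add_pi, nn_add_pi]
    rw [h.pv_neg_dir hx (uu_ne φ), pv_neg, neg_neg]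
  -- the slope function
  set q : ℝ → ℝ := fun φ => h1 φ / h0 φ with hq
  have dq : ∀ φ, HasDerivAt q ((h2 φ * h0 φ - h1 φ * h1 φ) / (h0 φ) ^ 2) φ := fun φ =>
    (dh1 φ).div (dh0 φ) (h0pos φ).ne'
  set q' : ℝ → ℝ := fun φ => (h2 φ * h0 φ - h1 φ * h1 φ) / (h0 φ) ^ 2 with hq'
  have cq : Continuous q := continuous_iff_continuousAt.2 fun t => (dq t).continuousAt
  have cq' : Continuous q' := by
    apply Continuous.div₀ ((ch2.mul ch0).sub (ch1.mul ch1)) (ch0.pow 2)
    intro φ; exact pow_ne_zero 2 (h0pos φ).ne'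
  have qper : ∀ φ, q (φ + π) = q φ := by
    intro φ; simp only [hq, h0per, h1per]
  set j : ℝ → ℝ := fun φ => φ + π / 2 + Real.arctan (q φ) with hj
  set j' : ℝ → ℝ := fun φ => 1 + 1 / (1 + (q φ) ^ 2) * q' φ with hj'
  have dj : ∀ φ, HasDerivAt j (j' φ) φ := by
    intro φ
    have e1 := ((hasDerivAt_id φ).add_const (π / 2)).add ((dq φ).arctan)
    exact e1
  have cj : Continuous j := continuous_iff_continuousAt.2 fun t => (dj t).continuousAt
  have cj' : Continuous j' := by
    apply continuous_const.add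
    apply Continuous.mul _ cq'
    apply Continuous.div₀ continuous_const (continuous_const.add (cq.pow 2))
    intro φ
    have := sq_nonneg (q φ)
    have h3 : (0:ℝ) < 1 + q φ ^ 2 := by positivity
    exact h3.ne'
  have jper : ∀ φ, j (φ + π) = j φ + π := by
    intro φ; simp only [hj, qper]; ring
  have jgt : ∀ φ, φ < j φ := by
    intro φ
    have := Real.neg_pi_div_two_lt_arctan (q φ)
    simp only [hj]; linarith
  have jlt : ∀ φ, j φ < φ + π := by
    intro φ
    have := Real.arctan_lt_pi_div_two (q φ)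
    simp only [hj]; linarith
  -- G in the moving frame
  have hG : ∀ φ, GG F x (uu φ) = h0 φ • nn φ - h1 φ • uu φ := by
    intro φ
    have e1 : ((1:ℝ), (0:ℝ)) = Real.cos φ • uu φ + (-(Real.sin φ)) • nn φ := by
      have := Real.sin_sq_add_cos_sq φ
      ext
      · simp only [uu, nn, Prod.fst_add, Prod.smul_fst, smul_eq_mul]; nlinarith
      · simp only [uu, nn, Prod.snd_add, Prod.smul_snd, smul_eq_mul]; ring
    have e2 : ((0:ℝ), (1:ℝ)) = Real.sin φ • uu φ + Real.cos φ • nn φ := by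
      have := Real.sin_sq_add_cos_sq φ
      ext
      · simp only [uu, nn, Prod.fst_add, Prod.smul_fst, smul_eq_mul]; ring
      · simp only [uu, nn, Prod.snd_add, Prod.smul_snd, smul_eq_mul]; nlinarith
    have e3 : pv F x (uu φ) (1, 0) = Real.cos φ * h0 φ - Real.sin φ * h1 φ := by
      rw [e1, pv_add, pv_smul, pv_smul, h.pv_self hx (uu_ne φ)]; ring
    have e4 : pv F x (uu φ) (0, 1) = Real.sin φ * h0 φ + Real.cos φ * h1 φ := by
      rw [e2, pv_add, pv_smul, pv_smul, h.pv_self hx (uu_ne φ)]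
    rw [GG, e3, e4]
    ext
    · simp only [uu, nn, Prod.fst_sub, Prod.smul_fst, smul_eq_mul]; ring
    · simp only [uu, nn, Prod.snd_sub, Prod.smul_snd, smul_eq_mul]; ring
  have hs : ∀ φ, 0 < Real.sqrt (1 + (q φ) ^ 2) := fun φ => Real.sqrt_pos.2 (by positivity)
  have hGj : ∀ φ, GG F x (uu φ) = (h0 φ * Real.sqrt (1 + (q φ) ^ 2)) • uu (j φ) := by
    intro φ
    rw [hG, hj]
    simp only
    rw [uu_add_pi_div_two_add, Real.sin_arctan, Real.cos_arctan]
    have e1 := (hs φ).ne'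
    have e2 := (h0pos φ).ne'
    have e3 : h1 φ = h0 φ * q φ := by simp only [hq]; field_simp
    rw [e3]
    ext
    · simp only [Prod.fst_sub, Prod.fst_add, Prod.smul_fst, smul_eq_mul]; field_simp; ring
    · simp only [Prod.snd_sub, Prod.snd_add, Prod.smul_snd, smul_eq_mul]; field_simp; ring
  -- U, V
  set U : ℝ → ℝ × ℝ := fun φ => (1 / h0 φ) • uu φ with hU
  set V : ℝ → ℝ × ℝ := fun φ => (1 / k) • GG F x (uu φ) with hV
  have hUne : ∀ φ, U φ ≠ 0 := fun φ =>
    smul_ne_zero (one_div_ne_zero (h0pos φ).ne') (uu_ne φ)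
  have hFU : ∀ φ, F x (U φ) = 1 := by
    intro φ
    simp only [hU]
    rw [h.hom x hx, abs_of_pos (one_div_pos.2 (h0pos φ))]
    have := (h0pos φ).ne'
    simp only [hh0] at this ⊢
    field_simp
  have hFG : ∀ φ, F x (GG F x (uu φ)) = k := fun φ => h.F_GG hx hRx (uu_ne φ)
  have hVU : ∀ φ, V φ = U (j φ) := by
    intro φ
    have e1 := hFG φ
    rw [hGj, h.hom x hx, abs_of_pos (mul_pos (h0pos φ) (hs φ))] at e1
    simp only [hV, hU]
    rw [hGj, smul_smul]
    congr 1
    have e2 := (h0pos (j φ)).ne'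
    have e3 : F x (uu (j φ)) = h0 (j φ) := rfl
    rw [e3] at e1
    rw [← e1]
    have e4 := (h0pos φ).ne'
    have e5 := (hs φ).ne'
    field_simp
  have hGU : ∀ φ, GG F x (U φ) = GG F x (uu φ) := fun φ =>
    h.GG_pos_smul hx (uu_ne φ) (one_div_pos.2 (h0pos φ))
  have hVj : ∀ φ, V (j φ) = - U φ := by
    intro φ
    have e1 := h.GG_GG hx hRx (uu_ne φ)
    rw [hFG] at e1
    rw [hGj φ] at e1
    rw [h.GG_pos_smul hx (uu_ne (j φ)) (mul_pos (h0pos φ) (hs φ))] at e1
    simp only [hV, hU]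
    rw [e1, smul_neg, smul_smul]
    congr 2
    have e2 : F x (uu φ) = h0 φ := rfl
    rw [e2]; field_simp
  have hUj : ∀ φ, U (j φ) = V φ := fun φ => (hVU φ).symm
  -- j ∘ j = · + π
  have hjj : ∀ φ, j (j φ) = φ + π := by
    intro φ
    have e1 : U (j (j φ)) = - U φ := by rw [hUj, hVj]
    have e2 : (1 / h0 (j (j φ))) • uu (j (j φ)) = (1 / h0 φ) • uu (φ + π) := by
      rw [uu_add_pi, smul_neg]; exact e1
    have p1 : 0 < 1 / h0 (j (j φ)) := one_div_pos.2 (h0pos _)
    have p2 : 0 < 1 / h0 φ := one_div_pos.2 (h0pos _)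
    set A := 1 / h0 (j (j φ)) with hA
    set B := 1 / h0 φ with hB
    have c1 : A * Real.cos (j (j φ)) = B * Real.cos (φ + π) := congrArg Prod.fst e2
    have c2 : A * Real.sin (j (j φ)) = B * Real.sin (φ + π) := congrArg Prod.snd e2
    have s1 := Real.sin_sq_add_cos_sq (j (j φ))
    have s2 := Real.sin_sq_add_cos_sq (φ + π)
    have hAB : A = B := by
      have : A ^ 2 = B ^ 2 := by
        calc A ^ 2 = (A * Real.cos (j (j φ))) ^ 2 + (A * Real.sin (j (j φ))) ^ 2 := by
              rw [mul_pow, mul_pow]; linear_combination (-(A ^ 2)) * s1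
          _ = (B * Real.cos (φ + π)) ^ 2 + (B * Real.sin (φ + π)) ^ 2 := by rw [c1, c2]
          _ = B ^ 2 := by rw [mul_pow, mul_pow]; linear_combination (B ^ 2) * s2
      nlinarith [sq_nonneg (A - B), mul_pos p1 p2]
    rw [hAB] at c1 c2
    have d1 := mul_left_cancel₀ p2.ne' c1
    have d2 := mul_left_cancel₀ p2.ne' c2
    have hcos : Real.cos (j (j φ) - (φ + π)) = 1 := by
      rw [Real.cos_sub, d1, d2]; nlinarith
    have b1 := jgt φ
    have b2 := jgt (j φ)
    have b3 := jlt φ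
    have b4 := jlt (j φ)
    have := (Real.cos_eq_one_iff_of_lt_of_lt (by linarith) (by linarith)).1 hcos
    linarith
  have hjinj : Function.Injective j := by
    intro a b hab
    have := congrArg j hab
    rw [hjj, hjj] at this
    linarith
  have hjmono : StrictMono j := by
    rcases cj.strictMono_of_inj hjinj with hm | ha
    · exact hm
    · exfalso
      have e1 : j (max 0 (j 0)) ≤ j 0 := ha.antitone (le_max_left _ _)
      have e2 := jgt (max 0 (j 0))
      have e3 := le_max_right 0 (j 0)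
      linarith
  -- r, ρ
  set r : ℝ → ℝ := fun φ => k / (h0 φ) ^ 2 with hr
  have hrpos : ∀ φ, 0 < r φ := fun φ => div_pos hkpos (pow_pos (h0pos φ) 2)
  have hj'pos : ∀ φ, 0 < j' φ := by
    intro φ
    have e1 : 0 ≤ j' φ := by
      have := hjmono.monotone
      have h3 := (dj φ).deriv
      rw [← h3]
      exact this.deriv_nonneg
    have e2 : j' (j φ) * j' φ = 1 := by
      have h3 : HasDerivAt (fun φ => j (j φ)) (j' (j φ) * j' φ) φ := (dj (j φ)).comp φ (dj φ)
      have h4 : (fun φ => j (j φ)) = fun φ => φ + π := funext hjj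
      rw [h4] at h3
      exact h3.unique ((hasDerivAt_id φ).add_const π)
    rcases e1.lt_or_eq with h3 | h3
    · exact h3
    · rw [← h3] at e2; simp at e2
  set ρ : ℝ → ℝ := fun φ => j' φ * r (j φ) with hρ
  have hρpos : ∀ φ, 0 < ρ φ := fun φ => mul_pos (hj'pos φ) (hrpos _)
  have cr' : Continuous r := by
    apply Continuous.div₀ continuous_const (ch0.pow 2)
    intro φ; exact pow_ne_zero 2 (h0pos φ).ne'
  have rper : Function.Periodic r π := by intro φ; simp only [hr, h0per]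
  have j'per : ∀ φ, j' (φ + π) = j' φ := by
    intro φ
    have h3'' : HasDerivAt (fun t : ℝ => t + π) 1 φ := (hasDerivAt_id φ).add_const π
    have h3' : HasDerivAt (fun t => j (t + π)) (j' (φ + π) * 1) φ :=
      HasDerivAt.comp (h₂ := j) (h := fun t : ℝ => t + π) φ (dj (φ + π)) h3''
    have h3 : HasDerivAt (fun t => j (t + π)) (j' (φ + π)) φ := by
      rw [mul_one] at h3'; exact h3'
    have h4 : (fun t => j (t + π)) = fun t => j t + π := funext jper
    rw [h4] at h3
    exact h3.unique ((dj φ).add_const π)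
  have ρper : Function.Periodic ρ π := by
    intro φ; simp only [hρ]; rw [j'per, jper, rper (j φ)]
  -- derivative of U
  have dU : ∀ φ, HasDerivAt U (r φ • V φ) φ := by
    intro φ
    have e1 : HasDerivAt (fun φ => 1 / h0 φ) (-(h1 φ) / (h0 φ) ^ 2) φ := by
      have e9 : HasDerivAt (fun φ => (h0 φ)⁻¹) (-(h1 φ) / (h0 φ) ^ 2) φ :=
        (dh0 φ).inv (h0pos φ).ne'
      have e10 : (fun φ => 1 / h0 φ) = fun φ => (h0 φ)⁻¹ := funext fun φ => one_div _
      rw [e10]; exact e9
    have e2 := e1.smul (hasDerivAt_uu φ)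
    refine e2.congr_deriv ?_
    simp only [hr, hV]
    rw [hG, smul_smul]
    have e3 := (h0pos φ).ne'
    have e4 := hkpos.ne'
    ext
    · simp only [Prod.fst_sub, Prod.fst_add, Prod.smul_fst, smul_eq_mul]; field_simp; ring
    · simp only [Prod.snd_sub, Prod.snd_add, Prod.smul_snd, smul_eq_mul]; field_simp; ring
  have dV : ∀ φ, HasDerivAt V (-(ρ φ) • U φ) φ := by
    intro φ
    have e0 : V = fun φ => U (j φ) := funext hVU
    rw [e0]
    have e1 := (dU (j φ)).scomp φ (dj φ)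
    have e1' : HasDerivAt (fun φ => U (j φ)) (j' φ • r (j φ) • V (j φ)) φ := e1
    refine e1'.congr_deriv ?_
    rw [hVj, smul_smul]
    simp only [hρ]
    rw [smul_neg, neg_smul]
  -- P, Q
  set P : ℝ → ℝ := fun φ => px F x (U φ) (U φ) - (2/3) * (L (U φ) / k) with hP
  set Q : ℝ → ℝ := fun φ => P (j φ) with hQ
  have dP : ∀ φ, HasDerivAt P (-2 * r φ * Q φ) φ := by
    intro φ
    have e1 := h.hasDerivAt_px_self hx hH (dU φ) (hUne φ)
    have e2 : HasDerivAt (fun φ => L (U φ)) (L (r φ • V φ)) φ :=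
      L.hasFDerivAt.comp_hasDerivAt φ (dU φ)
    have e3 := e1.sub ((e2.div_const k).const_mul (2/3))
    refine e3.congr_deriv ?_
    have e4 := hL (U φ) (hUne φ) (V φ)
    have e5 : GG F x (U φ) = k • V φ := by
      rw [hGU]; simp only [hV]; rw [smul_smul]; field_simp; simp
    have hVne : V φ ≠ 0 := by rw [hVU]; exact hUne _
    rw [hFU, e5, h.px_smul_dir hx hVne hkpos.ne', abs_of_pos hkpos] at e4
    have e6 : Q φ = px F x (V φ) (V φ) - (2/3) * (L (V φ) / k) := by
      simp only [hQ, hP]; rw [hUj]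
    rw [e6, px_smul, map_smul, smul_eq_mul, e4]
    field_simp; ring
  have hPπ : ∀ φ, P (φ + π) = - P φ := by
    intro φ
    have e1 : U (φ + π) = - U φ := by
      simp only [hU, h0per, uu_add_pi, smul_neg]
    simp only [hP]
    rw [e1, px_neg, h.px_neg_dir hx (hUne φ), map_neg]; ring
  have dQ : ∀ φ, HasDerivAt Q (2 * ρ φ * P φ) φ := by
    intro φ
    have e1 : HasDerivAt Q (-2 * r (j φ) * Q (j φ) * j' φ) φ := (dP (j φ)).comp φ (dj φ)
    refine e1.congr_deriv ?_
    have e2 : Q (j φ) = - P φ := by simp only [hQ]; rw [hjj, hPπ]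
    rw [e2]; simp only [hρ]; ring
  obtain ⟨K1, hK1⟩ := bdd_of_periodic cr' rper
  obtain ⟨K2, hK2⟩ := bdd_of_periodic (cj'.mul (cr'.comp cj)) ρper
  have hsys : NodalSys U V P Q r ρ j (1 / k) := by
    refine ⟨dU, dV, dP, dQ, hrpos, hρpos, ⟨max K1 K2, fun t => ⟨(hK1 t).trans (le_max_left _ _),
      (hK2 t).trans (le_max_right _ _)⟩⟩, hjmono, hjj, jgt, hUj, fun t => rfl, ?_, hPπ,
      one_div_pos.2 hkpos, ?_, ?_⟩
    · intro φ; simp only [hU, h0per, uu_add_pi, smul_neg]
    · intro φ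
      simp only [hU, hV]
      rw [cr_smul_left, cr_smul_right, h.cr_GG hx (uu_ne φ)]
      have := (h0pos φ).ne'
      simp only [hh0] at this ⊢
      field_simp
    · intro s t hst hts
      simp only [hU]
      rw [cr_smul_left, cr_smul_right, cr_uu_uu]
      have e1 : 0 < Real.sin (t - s) := Real.sin_pos_of_pos_of_lt_pi (by linarith) (by linarith)
      have e2 := one_div_pos.2 (h0pos s)
      have e3 := one_div_pos.2 (h0pos t)
      positivity
  have hP0 := hsys.P_eq_zero
  -- conclude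
  intro v hv
  obtain ⟨t, ht, φ, rfl⟩ := polar v hv
  have e1 := hP0 φ
  simp only [hP, hU] at e1
  have e0 := h0pos φ
  rw [h.px_smul_dir hx (uu_ne φ) (one_div_pos.2 e0).ne', px_smul, map_smul, smul_eq_mul,
    abs_of_pos (one_div_pos.2 e0)] at e1
  rw [h.px_smul_dir hx (uu_ne φ) ht.ne', px_smul, map_smul, smul_eq_mul, h.hom x hx,
    abs_of_pos ht]
  have e2 : F x (uu φ) = h0 φ := rfl
  rw [e2]
  have e3 : px F x (uu φ) (uu φ) = (2/3) * (L (uu φ) / k) * h0 φ := by
    have e4 := e0.ne'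
    field_simp at e1 ⊢
    linarith
  rw [e3]; ring

end FReg

end Pool.Agent.H81
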