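import Pool.Agent.H81.PDefs

open Set Filter Topology

namespace Pool.Agent.H81

/-- coordinate vectors -/
abbrev E3 : Type := Fin 3 → ℝ

/-- the distance as a function of coordinate vectors -/
noncomputable def dv (d : P2 → P2 → ℝ) (X Y : E3) : ℝ :=
  if h : X ≠ 0 ∧ Y ≠ 0 then d (pt X h.1) (pt Y h.2) else 0

lemma dv_eq (d : P2 → P2 → ℝ) {X Y : E3} (hX : X ≠ 0) (hY : Y ≠ 0) :
    dv d X Y = d (pt X hX) (pt Y hY) := by
  rw [dv, dif_pos ⟨hX, hY⟩]

/-- what we use about the metric, in homogeneous coordinates -/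
structure HPlane (D : E3 → E3 → ℝ) : Prop where
  smul_right : ∀ X Y : E3, X ≠ 0 → Y ≠ 0 → ∀ b : ℝ, b ≠ 0 → D X (b • Y) = D X Y
  self : ∀ X : E3, X ≠ 0 → D X X = 0
  zero : ∀ X Y : E3, X ≠ 0 → Y ≠ 0 → D X Y = 0 → ∃ c : ℝ, Y = c • X
  symm : ∀ X Y : E3, X ≠ 0 → Y ≠ 0 → D X Y = D Y X
  tri : ∀ X Y Z : E3, X ≠ 0 → Y ≠ 0 → Z ≠ 0 → D X Z ≤ D X Y + D Y Z
  cont : ContinuousOn (fun q : E3 × E3 => D q.1 q.2) {q | q.1 ≠ 0 ∧ q.2 ≠ 0}
  line : ∀ X V : E3, LinearIndependent ℝ ![X, V] → ∃ h : ℝ, 0 < h ∧ ∃ g : ℝ → E3,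
    (∀ s, g s ≠ 0 ∧ ∃ α β : ℝ, g s = α • X + β • V) ∧
    (∀ s0 α β : ℝ, α • X + β • V ≠ 0 → ∃ s, |s - s0| ≤ h ∧ ∃ c : ℝ, α • X + β • V = c • g s) ∧
    (∀ s t, |s - t| ≤ h → D (g s) (g t) = |s - t|) ∧ ∀ s, g (s + 2 * h) = g s
  circles : ∀ (O : E3) (r : ℝ), O ≠ 0 → (∃ Q, Q ≠ 0 ∧ r < D O Q) → ∃ m : E3 →ₗ[ℝ] ℝ,
    (∀ x, x ≠ 0 → D O x ≤ r → m x ≠ 0) ∧
    ∀ x y : E3, x ≠ 0 → y ≠ 0 → x + y ≠ 0 → 0 < m x → 0 < m y → (∀ c : ℝ, y ≠ c • x) →
      D O x ≤ r → D O y ≤ r → D O (x + y) < r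
  perp : ∀ X V W : E3, LinearIndependent ℝ ![X, V, W] →
    (∀ α γ : ℝ, D (α • X + V) X ≤ D (α • X + V) (γ • X + W)) →
    ∀ α γ : ℝ, D (α • X + W) X ≤ D (α • X + W) (γ • X + V)

lemma pair_iff {X V : E3} : LinearIndependent ℝ ![X, V] ↔
    ∀ s t : ℝ, s • X + t • V = 0 → s = 0 ∧ t = 0 := LinearIndependent.pair_iff

lemma triple_iff {X V W : E3} : LinearIndependent ℝ ![X, V, W] ↔
    ∀ s t u : ℝ, s • X + t • V + u • W = 0 → s = 0 ∧ t = 0 ∧ u = 0 := by
  rw [Fintype.linearIndependent_iff]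
  constructor
  · intro h s t u hs
    have := h ![s, t, u] (by simpa [Fin.sum_univ_three] using hs)
    exact ⟨this 0, this 1, this 2⟩
  · intro h g hg
    have := h (g 0) (g 1) (g 2) (by simpa [Fin.sum_univ_three] using hg)
    intro i
    fin_cases i
    · exact this.1
    · exact this.2.1
    · exact this.2.2

lemma mem_span_iff {X V Y : E3} : Y ∈ Submodule.span ℝ {X, V} ↔
    ∃ α β : ℝ, Y = α • X + β • V := by
  rw [Submodule.mem_span_pair]
  constructor
  · rintro ⟨a, b, h⟩; exact ⟨a, b, h.symm⟩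
  · rintro ⟨a, b, h⟩; exact ⟨a, b, h.symm⟩

lemma pline_mem {X V : E3} (h : LinearIndependent ℝ ![X, V]) :
    {P : P2 | P.submodule ≤ Submodule.span ℝ {X, V}} ∈ PLines := by
  refine ⟨_, ?_, rfl⟩
  have h1 := finrank_span_eq_card h
  have h2 : range ![X, V] = {X, V} := by
    simp only [Matrix.range_cons, Matrix.range_empty, union_empty, singleton_union]
  rw [h2] at h1
  simpa using h1

lemma pt_mem {X V Y : E3} (hY : Y ≠ 0) :
    pt Y hY ∈ {P : P2 | P.submodule ≤ Submodule.span ℝ {X, V}} ↔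
      ∃ α β : ℝ, Y = α • X + β • V := by
  rw [mem_ofPred_eq, Projectivization.submodule_mk, Submodule.span_singleton_le_iff_mem,
    mem_span_iff]

lemma pt_eq_iff {X Y : E3} (hX : X ≠ 0) (hY : Y ≠ 0) :
    pt X hX = pt Y hY ↔ ∃ c : ℝ, Y = c • X := by
  rw [eq_comm, Projectivization.mk_eq_mk_iff']
  constructor
  · rintro ⟨a, h⟩; exact ⟨a, h.symm⟩
  · rintro ⟨a, h⟩; exact ⟨a, h.symm⟩

lemma exists_pt (P : P2) : ∃ (X : E3) (hX : X ≠ 0), P = pt X hX :=
  ⟨P.rep, P.rep_nonzero, P.mk_rep.symm⟩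

theorem hPlane {d : P2 → P2 → ℝ} (h : EllipticPlane d) (hS : SymPerp PLines d) :
    HPlane (dv d) where
  smul_right := by
    intro X Y hX hY b hb
    have hbY : b • Y ≠ 0 := smul_ne_zero hb hY
    rw [dv_eq d hX hbY, dv_eq d hX hY]
    congr 1
    rw [pt_eq_iff]
    exact ⟨b⁻¹, by rw [smul_smul, inv_mul_cancel₀ hb, one_smul]⟩
  self := by
    intro X hX
    rw [dv_eq d hX hX]
    exact (h.metric.eq_zero _ (mem_univ _) _ (mem_univ _)).2 rfl
  zero := by
    intro X Y hX hY h0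
    rw [dv_eq d hX hY] at h0
    have := (h.metric.eq_zero _ (mem_univ _) _ (mem_univ _)).1 h0
    exact (pt_eq_iff hX hY).1 this
  symm := by
    intro X Y hX hY
    rw [dv_eq d hX hY, dv_eq d hY hX]
    exact h.metric.symm _ (mem_univ _) _ (mem_univ _)
  tri := by
    intro X Y Z hX hY hZ
    rw [dv_eq d hX hY, dv_eq d hY hZ, dv_eq d hX hZ]
    exact h.metric.triangle _ (mem_univ _) _ (mem_univ _) _ (mem_univ _)
  cont := by
    rw [continuousOn_iff_continuous_domRestrict]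
    have h2 : Continuous fun q : {q : E3 × E3 | q.1 ≠ 0 ∧ q.2 ≠ 0} =>
        (((⟨q.1.1, q.2.1⟩ : {x : E3 // x ≠ 0}), (⟨q.1.2, q.2.2⟩ : {x : E3 // x ≠ 0})) :
          {x : E3 // x ≠ 0} × {x : E3 // x ≠ 0}) := by
      apply Continuous.prodMk
      · exact Continuous.subtype_mk (continuous_fst.comp continuous_subtype_val) _
      · exact Continuous.subtype_mk (continuous_snd.comp continuous_subtype_val) _
    refine (h.continuous.comp h2).congr ?_
    intro q
    simp only [Function.comp, domRestrict_apply]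
    rw [dv_eq d q.2.1 q.2.2]
  line := by
    intro X V hXV
    obtain ⟨a, ha, γ, hr, hiso⟩ := (h.geodesic _).2 (pline_mem hXV)
    refine ⟨a / 2, by positivity, fun s => (γ (s : AddCircle a)).rep, ?_, ?_, ?_, ?_⟩
    · intro s
      refine ⟨Projectivization.rep_nonzero _, ?_⟩
      have h1 : γ (s : AddCircle a) ∈ range γ := mem_range_self _
      rw [hr] at h1
      rw [← (γ (s : AddCircle a)).mk_rep] at h1
      exact (pt_mem _).1 h1
    · intro s0 α β hne
      have h1 : pt (α • X + β • V) hne ∈ range γ := by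
        rw [hr]; exact (pt_mem hne).2 ⟨α, β, rfl⟩
      obtain ⟨θ, hθ⟩ := h1
      obtain ⟨u, rfl⟩ := QuotientAddGroup.mk_surjective θ
      refine ⟨s0 + ((u - s0) - round (a⁻¹ * (u - s0)) * a), ?_, ?_⟩
      · rw [add_sub_cancel_left]
        have h2 := abs_sub_round (a⁻¹ * (u - s0))
        have h3 : (u - s0) - round (a⁻¹ * (u - s0)) * a
            = a * (a⁻¹ * (u - s0) - round (a⁻¹ * (u - s0))) := by
          field_simp
        rw [h3, abs_mul, abs_of_pos ha]
        nlinarith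
      · have h4 : ((s0 + ((u - s0) - round (a⁻¹ * (u - s0)) * a) : ℝ) : AddCircle a)
            = (u : AddCircle a) := by
          have h6 : (s0 + ((u - s0) - round (a⁻¹ * (u - s0)) * a) : ℝ)
              = u - (round (a⁻¹ * (u - s0))) • a := by rw [zsmul_eq_mul]; ring
          rw [h6, AddCircle.coe_sub, AddCircle.coe_zsmul, AddCircle.coe_period, smul_zero,
            sub_zero]
        change ∃ c : ℝ, α • X + β • V = c • (γ ((s0 + ((u - s0) - round (a⁻¹ * (u - s0)) * a) : ℝ)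
          : AddCircle a)).rep
        rw [h4]
        have h5 : pt (γ (u : AddCircle a)).rep (Projectivization.rep_nonzero _)
            = pt (α • X + β • V) hne := by
          rw [← hθ]; exact (γ (u : AddCircle a)).mk_rep
        exact (pt_eq_iff _ _).1 h5
    · intro s t hst
      rw [dv_eq d (Projectivization.rep_nonzero _) (Projectivization.rep_nonzero _)]
      rw [show pt (γ (s : AddCircle a)).rep (Projectivization.rep_nonzero _) = γ (s : AddCircle a)
        from (γ (s : AddCircle a)).mk_rep,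
        show pt (γ (t : AddCircle a)).rep (Projectivization.rep_nonzero _) = γ (t : AddCircle a)
        from (γ (t : AddCircle a)).mk_rep, hiso, dist_eq_norm, ← AddCircle.coe_sub,
        AddCircle.norm_coe_eq_abs_iff a ha.ne', abs_of_pos ha]
      exact hst
    · intro s
      have : ((s + 2 * (a / 2) : ℝ) : AddCircle a) = (s : AddCircle a) := by
        rw [show s + 2 * (a / 2) = s + a by ring, AddCircle.coe_add, AddCircle.coe_period, add_zero]
      simp only [this]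
  circles := by
    intro O r hO hQ
    obtain ⟨Q, hQ0, hQr⟩ := hQ
    rw [dv_eq d hO hQ0] at hQr
    obtain ⟨m, hm1, hm2⟩ := h.circles (pt O hO) r ⟨_, hQr⟩
    refine ⟨m, ?_, ?_⟩
    · intro x hx hx2
      rw [dv_eq d hO hx] at hx2
      exact hm1 x hx hx2
    · intro x y hx hy hxy h1 h2 h3 h4 h5
      rw [dv_eq d hO hx] at h4
      rw [dv_eq d hO hy] at h5
      rw [dv_eq d hO hxy]
      apply hm2 x y hx hy hxy h1 h2 _ h4 h5
      rw [Ne, pt_eq_iff]
      rintro ⟨c, hc⟩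
      exact h3 c hc
  perp := by
    intro X V W hind hfoot α γ
    rw [triple_iff] at hind
    have hXV : LinearIndependent ℝ ![X, V] := by
      rw [pair_iff]; intro s t hst
      have := hind s t 0 (by simpa using hst)
      exact ⟨this.1, this.2.1⟩
    have hXW : LinearIndependent ℝ ![X, W] := by
      rw [pair_iff]; intro s t hst
      have := hind s 0 t (by simpa using hst)
      exact ⟨this.1, this.2.2⟩
    have hX : X ≠ 0 := by
      intro h0
      have := hind 1 0 0 (by simp [h0])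
      exact one_ne_zero this.1
    have hneV : ∀ α β : ℝ, β ≠ 0 → α • X + β • V ≠ 0 := by
      intro α β hβ h0
      exact hβ (hind α β 0 (by simpa using h0)).2.1
    have hneW : ∀ α β : ℝ, β ≠ 0 → α • X + β • W ≠ 0 := by
      intro α β hβ h0
      exact hβ (hind α 0 β (by simpa using h0)).2.2
    set ℓ' : Set P2 := {P : P2 | P.submodule ≤ Submodule.span ℝ {X, V}} with hℓ'
    set ℓ : Set P2 := {P : P2 | P.submodule ≤ Submodule.span ℝ {X, W}} with hℓ
    have hXℓ' : pt X hX ∈ ℓ' := (pt_mem hX).2 ⟨1, 0, by simp⟩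
    have hXℓ : pt X hX ∈ ℓ := (pt_mem hX).2 ⟨1, 0, by simp⟩
    have hmeet : ∀ P, P ∈ ℓ' → P ∈ ℓ → P = pt X hX := by
      intro P h1 h2
      obtain ⟨Y, hY, rfl⟩ := exists_pt P
      obtain ⟨α, β, h3⟩ := (pt_mem hY).1 h1
      obtain ⟨α', β', h4⟩ := (pt_mem hY).1 h2
      have := hind (α - α') β (-β') (by
        have : α • X + β • V - (α' • X + β' • W) = 0 := by rw [← h3, ← h4, sub_self]
        rw [← this, sub_smul, neg_smul]; abel)
      rw [eq_comm, pt_eq_iff]
      refine ⟨α, ?_⟩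
      rw [h3, this.2.1, zero_smul, add_zero]
    have hne : ℓ' ≠ ℓ := by
      intro heq
      have hV : V ≠ 0 := by have := hneV 0 1 one_ne_zero; simpa using this
      have h1 : pt V hV ∈ ℓ' := (pt_mem hV).2 ⟨0, 1, by simp⟩
      have h2 := hmeet _ h1 (heq ▸ h1)
      rw [eq_comm, pt_eq_iff] at h2
      obtain ⟨c, hc⟩ := h2
      have := hind c (-1) 0 (by rw [hc]; simp)
      have h3 := this.2.1
      norm_num at h3
    have hperp : Perp d ℓ' ℓ := by
      refine ⟨hne, pt X hX, ⟨hXℓ', hXℓ⟩, ?_⟩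
      intro O hO hOX
      refine ⟨hXℓ, ?_⟩
      intro Q hQ
      obtain ⟨Y, hY, rfl⟩ := exists_pt O
      obtain ⟨Z, hZ, rfl⟩ := exists_pt Q
      obtain ⟨α, β, h3⟩ := (pt_mem hY).1 hO
      obtain ⟨α', β', h4⟩ := (pt_mem hZ).1 hQ
      have hβ : β ≠ 0 := by
        intro h0
        apply hOX
        rw [eq_comm, pt_eq_iff]
        exact ⟨α, by rw [h3, h0, zero_smul, add_zero]⟩
      have hO1 : (α / β) • X + V ≠ 0 := by have := hneV (α / β) 1 one_ne_zero; simpa using this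
      have e1 : pt Y hY = pt ((α / β) • X + V) hO1 := by
        rw [eq_comm, pt_eq_iff]
        refine ⟨β, ?_⟩
        rw [h3, smul_add, smul_smul, mul_div_cancel₀ _ hβ]
      by_cases hβ' : β' = 0
      · have e2 : pt Z hZ = pt X hX := by
          rw [eq_comm, pt_eq_iff]
          exact ⟨α', by rw [h4, hβ', zero_smul, add_zero]⟩
        rw [e2]
      · have hQ1 : (α' / β') • X + W ≠ 0 := by
          have := hneW (α' / β') 1 one_ne_zero; simpa using this
        have e2 : pt Z hZ = pt ((α' / β') • X + W) hQ1 := by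
          rw [eq_comm, pt_eq_iff]
          refine ⟨β', ?_⟩
          rw [h4, smul_add, smul_smul, mul_div_cancel₀ _ hβ']
        have := hfoot (α / β) (α' / β')
        rw [dv_eq d hO1 hX, dv_eq d hO1 hQ1] at this
        rw [e1, e2]; exact this
    obtain ⟨-, P, ⟨hP1, hP2⟩, hf⟩ := hS ℓ' (pline_mem hXV) ℓ (pline_mem hXW) hperp
    have hPX := hmeet P hP2 hP1
    subst hPX
    have hO1 : α • X + W ≠ 0 := by have := hneW α 1 one_ne_zero; simpa using this
    have hQ1 : γ • X + V ≠ 0 := by have := hneV γ 1 one_ne_zero; simpa using this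
    rw [dv_eq d hO1 hX, dv_eq d hO1 hQ1]
    refine (hf (pt (α • X + W) hO1) ((pt_mem hO1).2 ⟨α, 1, by simp⟩) ?_).2 _
      ((pt_mem hQ1).2 ⟨γ, 1, by simp⟩)
    rw [Ne, eq_comm, pt_eq_iff]
    rintro ⟨c, hc⟩
    have := hind (α - c) 0 1 (by
      rw [sub_smul, ← hc]; simp)
    exact one_ne_zero this.2.2

end Pool.Agent.H81
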