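import Pool.Agent.H81.Basic

open Set Filter Topology Real

namespace Pool.Agent.H81

/-- unit vector -/
noncomputable def uu (φ : ℝ) : ℝ × ℝ := (Real.cos φ, Real.sin φ)
/-- normal vector -/
noncomputable def nn (φ : ℝ) : ℝ × ℝ := (- Real.sin φ, Real.cos φ)

lemma uu_ne (φ : ℝ) : uu φ ≠ 0 := by
  intro h
  have h1 : Real.cos φ = 0 := congrArg Prod.fst h
  have h2 : Real.sin φ = 0 := congrArg Prod.snd h
  have := Real.sin_sq_add_cos_sq φ
  rw [h1, h2] at this; norm_num at this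

lemma hasDerivAt_uu (φ : ℝ) : HasDerivAt uu (nn φ) φ :=
  (Real.hasDerivAt_cos φ).prodMk (Real.hasDerivAt_sin φ)

lemma hasDerivAt_nn (φ : ℝ) : HasDerivAt nn (-(uu φ)) φ := by
  have := (Real.hasDerivAt_sin φ).neg.prodMk (Real.hasDerivAt_cos φ)
  exact this

lemma cr_uu_nn (φ : ℝ) : cr (uu φ) (nn φ) = 1 := by
  simp only [cr, uu, nn]
  have := Real.sin_sq_add_cos_sq φ
  nlinarith

lemma cr_uu_uu (a b : ℝ) : cr (uu a) (uu b) = Real.sin (b - a) := by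
  simp only [cr, uu]
  rw [Real.sin_sub]; ring

lemma uu_add_pi (φ : ℝ) : uu (φ + π) = - uu φ := by
  simp [uu, Real.cos_add_pi, Real.sin_add_pi]

lemma nn_add_pi (φ : ℝ) : nn (φ + π) = - nn φ := by
  simp [nn, Real.cos_add_pi, Real.sin_add_pi]

lemma polar (v : ℝ × ℝ) (hv : v ≠ 0) : ∃ r : ℝ, 0 < r ∧ ∃ φ : ℝ, v = r • uu φ := by
  set z : ℂ := ⟨v.1, v.2⟩ with hz
  have hz0 : z ≠ 0 := by
    intro h
    apply hv
    have h1 := congrArg Complex.re h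
    have h2 := congrArg Complex.im h
    simp [hz] at h1 h2
    exact Prod.ext h1 h2
  refine ⟨‖z‖, norm_pos_iff.2 hz0, Complex.arg z, ?_⟩
  have h1 := Complex.norm_mul_cos_arg z
  have h2 := Complex.norm_mul_sin_arg z
  ext
  · simp only [uu, Prod.smul_fst, smul_eq_mul, h1]; rfl
  · simp only [uu, Prod.smul_snd, smul_eq_mul, h2]; rfl

lemma eq_zero_of_cr {v w : ℝ × ℝ} (hv : v ≠ 0) (h : cr v w = 0) :
    ∃ c : ℝ, w = c • v := by
  by_cases h1 : v.1 = 0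
  · have h2 : v.2 ≠ 0 := by
      intro h2; exact hv (Prod.ext h1 h2)
    refine ⟨w.2 / v.2, ?_⟩
    simp only [cr, h1, zero_mul, zero_sub, neg_eq_zero, mul_eq_zero] at h
    ext
    · simp [h1, h.resolve_left h2]
    · simp [h2]
  · refine ⟨w.1 / v.1, ?_⟩
    simp only [cr] at h
    ext
    · simp [h1]
    · simp only [Prod.smul_snd, smul_eq_mul]; field_simp; linarith

/-- `J ∇_v F` -/
noncomputable def GG (F : ℝ × ℝ → ℝ × ℝ → ℝ) (x v : ℝ × ℝ) : ℝ × ℝ :=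
  (-(pv F x v (0, 1)), pv F x v (1, 0))

/-- Radon property of the tangent norm at `x` (infinitesimal form) -/
def RadonAt (F : ℝ × ℝ → ℝ × ℝ → ℝ) (x : ℝ × ℝ) : Prop :=
  ∀ v w : ℝ × ℝ, v ≠ 0 → w ≠ 0 → pv F x v w = 0 → pv F x w v = 0

/-- Hamel's condition at `x` -/
def HamelAt (F : ℝ × ℝ → ℝ × ℝ → ℝ) (x : ℝ × ℝ) : Prop :=
  ∀ v y w : ℝ × ℝ, v ≠ 0 → ddF F (x, v) (y, 0) (0, w) = ddF F (x, v) (w, 0) (0, y)

/-- the Radon constant -/
noncomputable def kk (F : ℝ × ℝ → ℝ × ℝ → ℝ) (x : ℝ × ℝ) : ℝ := F x (GG F x (1, 0))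

lemma pv_eq_cr (F : ℝ × ℝ → ℝ × ℝ → ℝ) (x v y : ℝ × ℝ) : pv F x v y = cr y (GG F x v) := by
  rw [FReg.pv_e x v y]; simp only [cr, GG]; ring

namespace FReg

variable {M : Set (ℝ × ℝ)} {F : ℝ × ℝ → ℝ × ℝ → ℝ}

lemma cr_GG (h : FReg M F) {x v : ℝ × ℝ} (hx : x ∈ M) (hv : v ≠ 0) : cr v (GG F x v) = F x v := by
  rw [← pv_eq_cr, h.pv_self hx hv]

lemma GG_ne (h : FReg M F) {x v : ℝ × ℝ} (hx : x ∈ M) (hv : v ≠ 0) : GG F x v ≠ 0 := by
  intro h0
  have := h.cr_GG hx hv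
  rw [h0] at this
  simp [cr] at this
  exact (h.pos x hx v hv).ne this

lemma GG_pos_smul (h : FReg M F) {x v : ℝ × ℝ} (hx : x ∈ M) (hv : v ≠ 0) {t : ℝ} (ht : 0 < t) :
    GG F x (t • v) = GG F x v := by
  simp only [GG, h.pv_pos_smul hx hv ht]

lemma GG_neg (h : FReg M F) {x v : ℝ × ℝ} (hx : x ∈ M) (hv : v ≠ 0) :
    GG F x (-v) = - GG F x v := by
  simp only [GG, h.pv_neg_dir hx hv]; rfl

lemma GG_GG (h : FReg M F) {x v : ℝ × ℝ} (hx : x ∈ M) (hR : RadonAt F x) (hv : v ≠ 0) :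
    GG F x (GG F x v) = -((F x (GG F x v) / F x v) • v) := by
  have hG := h.GG_ne hx hv
  have h1 : pv F x v (GG F x v) = 0 := by rw [pv_eq_cr, cr_self]
  have h2 := hR v (GG F x v) hv hG h1
  rw [pv_eq_cr] at h2
  obtain ⟨c, hc⟩ := eq_zero_of_cr hv h2
  have h3 := h.cr_GG hx hG
  rw [hc, cr_smul_right, cr_swap, h.cr_GG hx hv] at h3
  have hF := h.pos x hx v hv
  have h4 : c = -(F x (GG F x v) / F x v) := by
    field_simp; linarith
  rw [hc, h4, neg_smul]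

lemma hasDerivAt_GG_curve (h : FReg M F) {x : ℝ → ℝ × ℝ} {x' : ℝ × ℝ} {c : ℝ → ℝ × ℝ}
    {c' : ℝ × ℝ} {t : ℝ} (hx : x t ∈ M)
    (hxd : HasDerivAt x x' t) (hc : HasDerivAt c c' t) (hne : c t ≠ 0) :
    HasDerivAt (fun s => GG F (x s) (c s))
      (-(ddF F (x t, c t) (x', c') (0, (0, 1))), ddF F (x t, c t) (x', c') (0, (1, 0))) t := by
  have h1 := h.hasDerivAt_dF_curve hx hxd hc hne
    (hasDerivAt_const t (((0 : ℝ × ℝ), ((0:ℝ), (1:ℝ))) : (ℝ × ℝ) × (ℝ × ℝ)))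
  have h2 := h.hasDerivAt_dF_curve hx hxd hc hne
    (hasDerivAt_const t (((0 : ℝ × ℝ), ((1:ℝ), (0:ℝ))) : (ℝ × ℝ) × (ℝ × ℝ)))
  simp only [map_zero, add_zero] at h1 h2
  exact h1.neg.prodMk h2

lemma ddF_e (q a : (ℝ × ℝ) × (ℝ × ℝ)) (w : ℝ × ℝ) :
    ddF F q a (0, w) = w.1 * ddF F q a (0, (1, 0)) + w.2 * ddF F q a (0, (0, 1)) := by
  rw [← smul_eq_mul, ← smul_eq_mul, ← map_smul, ← map_smul, ← map_add]; simp

/-- constancy of the Radon constant -/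
lemma F_GG (h : FReg M F) {x : ℝ × ℝ} (hx : x ∈ M) (hR : RadonAt F x) {v : ℝ × ℝ} (hv : v ≠ 0) :
    F x (GG F x v) = kk F x := by
  have hd : ∀ φ : ℝ, HasDerivAt (fun φ => F x (GG F x (uu φ))) 0 φ := by
    intro φ
    have h1 := h.hasDerivAt_GG_curve hx (hasDerivAt_const φ x) (hasDerivAt_uu φ) (uu_ne φ)
    have h2 := h.hasDerivAt_F_curve hx h1 (h.GG_ne hx (uu_ne φ))
    refine h2.congr_deriv ?_
    rw [pv_eq_cr, h.GG_GG hx hR (uu_ne φ), cr_neg_right, cr_smul_right, cr_swap]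
    have h3 : cr (uu φ) (-(ddF F (x, uu φ) (0, nn φ) (0, (0, 1))),
        ddF F (x, uu φ) (0, nn φ) (0, (1, 0))) = 0 := by
      have e := h.ddF_v_self hx (uu_ne φ) (nn φ)
      rw [ddF_e (x, uu φ) (0, nn φ) (uu φ)] at e
      simp only [cr]; linarith
    rw [h3]; ring
  have hconst : ∀ φ, F x (GG F x (uu φ)) = F x (GG F x (uu 0)) := by
    intro φ
    exact is_const_of_deriv_eq_zero (fun t => (hd t).differentiableAt) (fun t => (hd t).deriv) φ 0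
  obtain ⟨r, hr, φ, rfl⟩ := polar v hv
  rw [h.GG_pos_smul hx (uu_ne φ) hr, hconst φ, kk]
  simp [uu]

lemma kk_pos (h : FReg M F) {x : ℝ × ℝ} (hx : x ∈ M) : 0 < kk F x := by
  have h1 : ((1:ℝ), (0:ℝ)) ≠ 0 := by
    intro h; have := congrArg Prod.fst h; simp at this
  exact h.pos x hx _ (h.GG_ne hx h1)

/-- derivative of `v ↦ F_x(x,v) v` -/
lemma hasDerivAt_px_self (h : FReg M F) {x : ℝ × ℝ} (hx : x ∈ M) (hH : HamelAt F x)
    {c : ℝ → ℝ × ℝ} {c' : ℝ × ℝ} {t : ℝ} (hc : HasDerivAt c c' t) (hne : c t ≠ 0) :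
    HasDerivAt (fun s => px F x (c s) (c s)) (2 * px F x (c t) c') t := by
  have hb : HasDerivAt (fun s => ((c s, (0 : ℝ × ℝ)) : (ℝ × ℝ) × (ℝ × ℝ))) (c', 0) t :=
    hc.prodMk (hasDerivAt_const t (0 : ℝ × ℝ))
  have h1 := h.hasDerivAt_dF_curve hx (hasDerivAt_const t x) hc hne hb
  refine h1.congr_deriv ?_
  rw [h.symm hx hne, hH (c t) (c t) c' hne, h.ddF_x_self hx hne, px]; ring

/-- `kk` is differentiable, with a formula for its derivative. -/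
lemma kk_hasFDerivAt (h : FReg M F) (hR : ∀ x ∈ M, RadonAt F x) {x : ℝ × ℝ} (hx : x ∈ M) :
    ∃ L : ℝ × ℝ →L[ℝ] ℝ, HasFDerivAt (kk F) L x ∧ ∀ v, v ≠ 0 → ∀ y,
      L y = px F x (GG F x v) y + (kk F x / F x v) * px F x v y := by
  have he1 : ((1:ℝ), (0:ℝ)) ≠ 0 := by
    intro h; have := congrArg Prod.fst h; simp at this
  -- differentiability
  have hdG : DifferentiableAt ℝ (fun y => GG F y (1, 0)) x := by
    have h1 : HasFDerivAt (fun y : ℝ × ℝ => ((y, ((1:ℝ), (0:ℝ))) : (ℝ × ℝ) × (ℝ × ℝ)))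
        ((ContinuousLinearMap.id ℝ (ℝ × ℝ)).prod 0) x :=
      (hasFDerivAt_id x).prodMk (hasFDerivAt_const _ x)
    have h2 : HasFDerivAt (fun y => dF F (y, (1, 0))) _ x := (h.hasdF hx he1).comp x h1
    have h3 : DifferentiableAt ℝ (fun y => dF F (y, (1, 0)) (0, (0, 1))) x :=
      (h2.differentiableAt).clm_apply (differentiableAt_const _)
    have h4 : DifferentiableAt ℝ (fun y => dF F (y, (1, 0)) (0, (1, 0))) x :=
      (h2.differentiableAt).clm_apply (differentiableAt_const _)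
    exact h3.neg.prodMk h4
  have hdk : DifferentiableAt ℝ (kk F) x := by
    have h1 : DifferentiableAt ℝ (fun y => ((y, GG F y (1, 0)) : (ℝ × ℝ) × (ℝ × ℝ))) x :=
      differentiableAt_id.prodMk hdG
    have h2 : DifferentiableAt ℝ (Fu F) (x, GG F x (1, 0)) :=
      (h.hasF hx (h.GG_ne hx he1)).differentiableAt
    exact DifferentiableAt.comp (g := Fu F) x h2 h1
  refine ⟨fderiv ℝ (kk F) x, hdk.hasFDerivAt, ?_⟩
  intro v hv y
  have hl : HasDerivAt (fun s : ℝ => x + s • y) y 0 := by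
    simpa using ((hasDerivAt_id (0:ℝ)).smul_const y).const_add x
  have hmem : ∀ᶠ s in 𝓝 (0:ℝ), x + s • y ∈ M := by
    apply hl.continuousAt.eventually_mem
    simpa using h.isOpen.mem_nhds hx
  have hx0 : x + (0:ℝ) • y ∈ M := by simpa using hx
  have h1 : HasDerivAt (fun s : ℝ => kk F (x + s • y)) (fderiv ℝ (kk F) x y) 0 := by
    have h2 : HasFDerivAt (kk F) (fderiv ℝ (kk F) x) (x + (0:ℝ) • y) := by
      simpa using hdk.hasFDerivAt
    exact h2.comp_hasDerivAt (0:ℝ) hl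
  have h3 := h.hasDerivAt_GG_curve (t := 0) (x := fun s => x + s • y) hx0 hl
    (hasDerivAt_const (0:ℝ) v) hv
  have h4 := h.hasDerivAt_F_curve2 (t := 0) (x := fun s => x + s • y) hx0 hl h3
    (h.GG_ne hx0 hv)
  have h5 : (fun s : ℝ => kk F (x + s • y)) =ᶠ[𝓝 0] fun s => F (x + s • y) (GG F (x + s • y) v) := by
    filter_upwards [hmem] with s hs
    rw [h.F_GG hs (hR _ hs) hv]
  have h6 := h1.unique (h4.congr_of_eventuallyEq h5)
  rw [h6]
  simp only [zero_smul, add_zero]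
  congr 1
  rw [pv_eq_cr, h.GG_GG hx (hR x hx) hv, h.F_GG hx (hR x hx) hv, cr_neg_right, cr_smul_right,
    cr_swap]
  have h7 : cr v (-(ddF F (x, v) (y, 0) (0, (0, 1))), ddF F (x, v) (y, 0) (0, (1, 0)))
      = px F x v y := by
    have e := h.ddF_x_self hx hv y
    rw [ddF_e (x, v) (y, 0) v] at e
    simp only [cr]; linarith
  rw [h7]; ring

end FReg

end Pool.Agent.H81
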