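import Pool.Agent.H81.Point

open Set Filter Topology Real

namespace Pool.Agent.H81

/-- The squared tangent norm at `x` is a quadratic form. -/
def EuclAt (F : ℝ × ℝ → ℝ × ℝ → ℝ) (x : ℝ × ℝ) : Prop :=
  ∃ a b c : ℝ, ∀ v : ℝ × ℝ, (F x v) ^ 2 = a * v.1 ^ 2 + 2 * b * v.1 * v.2 + c * v.2 ^ 2

/-- all infinitesimal assumptions on a region -/
structure RReg (M : Set (ℝ × ℝ)) (F : ℝ × ℝ → ℝ × ℝ → ℝ) : Prop extends FReg M F where
  radon : ∀ x ∈ M, RadonAt F x
  hamel : ∀ x ∈ M, HamelAt F x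

/-- the function `θ = k^{-1/3}` -/
noncomputable def th (F : ℝ × ℝ → ℝ × ℝ → ℝ) (x : ℝ × ℝ) : ℝ := Real.exp (-(1/3) * Real.log (kk F x))

/-- its derivative in coordinates -/
noncomputable def Tc (F : ℝ × ℝ → ℝ × ℝ → ℝ) (x e : ℝ × ℝ) : ℝ :=
  -(1/2) * th F x * px F x e e / F x e

/-- its derivative -/
noncomputable def Tm (F : ℝ × ℝ → ℝ × ℝ → ℝ) (x : ℝ × ℝ) : ℝ × ℝ →L[ℝ] ℝ :=
  Tc F x (1, 0) • ContinuousLinearMap.fst ℝ ℝ ℝ + Tc F x (0, 1) • ContinuousLinearMap.snd ℝ ℝ ℝ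

lemma e1_ne : ((1:ℝ), (0:ℝ)) ≠ 0 := by
  intro h; have := congrArg Prod.fst h; simp at this

lemma e2_ne : ((0:ℝ), (1:ℝ)) ≠ 0 := by
  intro h; have := congrArg Prod.snd h; simp at this

lemma clm_e (L : ℝ × ℝ →L[ℝ] ℝ) (v : ℝ × ℝ) : L v = v.1 * L (1, 0) + v.2 * L (0, 1) := by
  rw [← smul_eq_mul, ← smul_eq_mul, ← map_smul, ← map_smul, ← map_add]; simp

namespace RReg

variable {M : Set (ℝ × ℝ)} {F : ℝ × ℝ → ℝ × ℝ → ℝ}

lemma th_pos (x : ℝ × ℝ) : 0 < th F x := Real.exp_pos _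

/-- `θ` is differentiable with derivative `Tm`, and the Berwald type formula. -/
theorem th_hasFDerivAt (h : RReg M F) {x : ℝ × ℝ} (hx : x ∈ M) :
    HasFDerivAt (th F) (Tm F x) x ∧
      ∀ v, v ≠ 0 → ∀ w, th F x * px F x v w = -(Tm F x w * F x v + Tm F x v * pv F x v w) := by
  obtain ⟨L, hL, hL'⟩ := h.toFReg.kk_hasFDerivAt h.radon hx
  have hk := h.toFReg.kk_pos hx
  have hself := h.toFReg.px_self_eq h.radon hx (h.hamel x hx) hL'
  have h1 : HasFDerivAt (th F) (th F x • (-(1/3) : ℝ) • ((kk F x)⁻¹ • L)) x := by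
    have := ((hL.log hk.ne').const_mul (-(1/3) : ℝ)).exp
    exact this
  have hT : ∀ v, v ≠ 0 → (th F x • (-(1/3) : ℝ) • ((kk F x)⁻¹ • L)) v = Tc F x v := by
    intro v hv
    have hF := h.pos x hx v hv
    simp only [smul_apply, smul_eq_mul, Tc]
    rw [hself v hv]
    field_simp
  have hTm : th F x • (-(1/3) : ℝ) • ((kk F x)⁻¹ • L) = Tm F x := by
    ext
    · have := hT (1, 0) e1_ne
      simp only [ContinuousLinearMap.coe_comp, Function.comp_apply,
        ContinuousLinearMap.inl_apply]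
      rw [this]; simp [Tm]
    · have := hT (0, 1) e2_ne
      simp only [ContinuousLinearMap.coe_comp, Function.comp_apply,
        ContinuousLinearMap.inr_apply]
      rw [this]; simp [Tm]
  refine ⟨hTm ▸ h1, ?_⟩
  intro v hv w
  -- differentiate the self identity
  have hl : HasDerivAt (fun s : ℝ => v + s • w) w 0 := by
    simpa using ((hasDerivAt_id (0:ℝ)).smul_const w).const_add v
  have hv0 : v + (0:ℝ) • w ≠ 0 := by simpa using hv
  have d1 := h.toFReg.hasDerivAt_px_self hx (h.hamel x hx) hl hv0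
  have d2 : HasDerivAt (fun s : ℝ => L (v + s • w)) (L w) 0 := L.hasFDerivAt.comp_hasDerivAt 0 hl
  have d3 := h.toFReg.hasDerivAt_F_curve hx hl hv0
  have d4 := ((d2.div_const (kk F x)).const_mul (2/3)).mul d3
  have hne : ∀ᶠ s in 𝓝 (0:ℝ), v + s • w ≠ 0 := by
    apply hl.continuousAt.eventually_ne; simpa using hv
  have e1 : (fun s : ℝ => px F x (v + s • w) (v + s • w)) =ᶠ[𝓝 0]
      ((fun y => 2 / 3 * (L (v + y • w) / kk F x)) * fun s => F x (v + s • w)) := by
    filter_upwards [hne] with s hs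
    simp only [Pi.mul_apply]
    exact hself _ hs
  have e2 := d1.unique (d4.congr_of_eventuallyEq e1)
  simp only [zero_smul, add_zero] at e2
  have e3 : ∀ y, Tm F x y = -(1/3) * th F x * (L y / kk F x) := by
    intro y
    rw [← hTm]
    simp only [smul_apply, smul_eq_mul]
    field_simp
  rw [e3 w, e3 v]
  linear_combination (th F x / 2) * e2

lemma Tm_differentiableAt (h : RReg M F) {x : ℝ × ℝ} (hx : x ∈ M) :
    DifferentiableAt ℝ (Tm F) x := by
  have hc : ∀ e : ℝ × ℝ, e ≠ 0 → DifferentiableAt ℝ (fun y => Tc F y e) x := by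
    intro e he
    have h1 : HasFDerivAt (fun y : ℝ × ℝ => ((y, e) : (ℝ × ℝ) × (ℝ × ℝ)))
        ((ContinuousLinearMap.id ℝ (ℝ × ℝ)).prod 0) x :=
      (hasFDerivAt_id x).prodMk (hasFDerivAt_const _ x)
    have h2 : HasFDerivAt (fun y => dF F (y, e)) _ x := (h.toFReg.hasdF hx he).comp x h1
    have h3 : DifferentiableAt ℝ (fun y => dF F (y, e) (e, 0)) x :=
      (h2.differentiableAt).clm_apply (differentiableAt_const _)
    have h4 : DifferentiableAt ℝ (Fu F ∘ fun y : ℝ × ℝ => ((y, e) : (ℝ × ℝ) × (ℝ × ℝ))) x :=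
      ((h.toFReg.hasF hx he).comp x h1).differentiableAt
    have h5 : DifferentiableAt ℝ (fun y => F y e) x := h4
    have h6 := (h.th_hasFDerivAt hx).1.differentiableAt
    have h8 : DifferentiableAt ℝ (fun y => (F y e)⁻¹) x := h5.fun_inv (h.pos x hx e he).ne'
    have h7 := ((h6.const_mul (-(1/2))).mul h3).mul h8
    have h9 : (fun y => Tc F y e) = ((fun y => -(1 / 2) * th F y) * fun y => (dF F (y, e)) (e, 0)) *
        fun y => (F y e)⁻¹ := by
      funext y
      simp only [Tc, px, Pi.mul_apply, div_eq_mul_inv]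
    rw [h9]; exact h7
  exact ((hc _ e1_ne).smul_const _).add ((hc _ e2_ne).smul_const _)

/-- Hessian of `θ`. -/
noncomputable def Hs (F : ℝ × ℝ → ℝ × ℝ → ℝ) (x : ℝ × ℝ) : ℝ × ℝ →L[ℝ] ℝ × ℝ →L[ℝ] ℝ :=
  fderiv ℝ (Tm F) x

lemma Hs_symm (h : RReg M F) {x : ℝ × ℝ} (hx : x ∈ M) (a b : ℝ × ℝ) :
    Hs F x a b = Hs F x b a := by
  apply second_derivative_symmetric_of_eventually (𝕜 := ℝ) (f := th F) (f' := Tm F) (x := x)
  · filter_upwards [h.isOpen.mem_nhds hx] with y hy using (h.th_hasFDerivAt hy).1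
  · exact (h.Tm_differentiableAt hx).hasFDerivAt

/-- The commutator identity. -/
lemma comm (h : RReg M F) {x : ℝ × ℝ} (hx : x ∈ M) {v : ℝ × ℝ} (hv : v ≠ 0) (y z : ℝ × ℝ) :
    Hs F x z v * pv F x v y = Hs F x y v * pv F x v z := by
  -- derivative in direction z of the identity with w = y
  have key : ∀ y z : ℝ × ℝ,
      Hs F x z y * F x v + Tm F x y * px F x v z + Tm F x z * px F x v y
        + th F x * ddF F (x, v) (z, 0) (y, 0)
      = -(Hs F x z v * pv F x v y) - Tm F x v * ddF F (x, v) (z, 0) (0, y) := by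
    intro y z
    have hl : HasDerivAt (fun s : ℝ => x + s • z) z 0 := by
      simpa using ((hasDerivAt_id (0:ℝ)).smul_const z).const_add x
    have hx0 : x + (0:ℝ) • z ∈ M := by simpa using hx
    have hmem : ∀ᶠ s in 𝓝 (0:ℝ), x + s • z ∈ M := by
      apply hl.continuousAt.eventually_mem
      simpa using h.isOpen.mem_nhds hx
    have dT : HasDerivAt (fun s : ℝ => Tm F (x + s • z)) (Hs F x z) 0 := by
      have h2 : HasFDerivAt (Tm F) (Hs F x) (x + (0:ℝ) • z) := by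
        rw [zero_smul, add_zero]; exact (h.Tm_differentiableAt hx).hasFDerivAt
      exact h2.comp_hasDerivAt (0:ℝ) hl
    have dTy : ∀ y, HasDerivAt (fun s : ℝ => Tm F (x + s • z) y) (Hs F x z y) 0 := by
      intro y
      have := dT.clm_apply (hasDerivAt_const (0:ℝ) y)
      simpa using this
    have dθ : HasDerivAt (fun s : ℝ => th F (x + s • z)) (Tm F x z) 0 := by
      have h2 : HasFDerivAt (th F) (Tm F x) (x + (0:ℝ) • z) := by
        simpa using (h.th_hasFDerivAt hx).1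
      exact h2.comp_hasDerivAt (0:ℝ) hl
    have dFz := h.toFReg.hasDerivAt_F_curve2 (t := 0) (x := fun s => x + s • z) hx0 hl
      (hasDerivAt_const (0:ℝ) v) hv
    have dpx := h.toFReg.hasDerivAt_dF_curve (t := 0) (x := fun s => x + s • z) hx0 hl
      (hasDerivAt_const (0:ℝ) v) hv (hasDerivAt_const (0:ℝ) ((y, (0 : ℝ × ℝ)) : (ℝ × ℝ) × (ℝ × ℝ)))
    have dpv := h.toFReg.hasDerivAt_dF_curve (t := 0) (x := fun s => x + s • z) hx0 hl
      (hasDerivAt_const (0:ℝ) v) hv (hasDerivAt_const (0:ℝ) (((0 : ℝ × ℝ), y) : (ℝ × ℝ) × (ℝ × ℝ)))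
    have dl := ((dTy y).mul dFz).add (dθ.mul dpx)
    have dr := ((dTy v).mul dpv).neg
    have heq : ((fun s : ℝ => Tm F (x + s • z) y) * (fun s => F (x + s • z) v)
        + (fun s : ℝ => th F (x + s • z)) * (fun s => dF F (x + s • z, v) (y, 0))) =ᶠ[𝓝 0]
        -((fun s : ℝ => Tm F (x + s • z) v) * (fun s => dF F (x + s • z, v) (0, y))) := by
      filter_upwards [hmem] with s hs
      have := (h.th_hasFDerivAt hs).2 v hv y
      simp only [px, pv] at this
      simp only [Pi.add_apply, Pi.mul_apply, Pi.neg_apply]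
      linarith
    have e := dl.unique (dr.congr_of_eventuallyEq heq)
    simp only [zero_smul, add_zero, map_zero, FReg.pv_zero] at e
    simp only [px, pv] at e ⊢
    linarith
  have k1 := key y z
  have k2 := key z y
  have s1 := h.Hs_symm hx y z
  have s2 := h.toFReg.symm hx hv (z, 0) (y, 0)
  have s3 := h.hamel x hx v z y hv
  rw [s1, ← s2, ← s3] at k2
  linarith

lemma Hs_self (h : RReg M F) {x : ℝ × ℝ} (hx : x ∈ M) :
    ∃ C : ℝ, ∀ v, Hs F x v v = C * (F x v) ^ 2 := by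
  have hd : ∀ φ : ℝ, HasDerivAt (fun φ => Hs F x (uu φ) (uu φ) / (F x (uu φ)) ^ 2) 0 φ := by
    intro φ
    have d1 : HasDerivAt (fun φ => Hs F x (uu φ)) (Hs F x (nn φ)) φ :=
      (Hs F x).hasFDerivAt.comp_hasDerivAt φ (hasDerivAt_uu φ)
    have d2 := d1.clm_apply (hasDerivAt_uu φ)
    have d3 := (h.toFReg.hasDerivAt_F_curve hx (hasDerivAt_uu φ) (uu_ne φ)).pow 2
    have hF := h.pos x hx _ (uu_ne φ)
    have d4 := d2.div d3 (pow_ne_zero 2 hF.ne')
    refine d4.congr_deriv ?_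
    have e1 := h.comm hx (uu_ne φ) (nn φ) (uu φ)
    rw [h.toFReg.pv_self hx (uu_ne φ)] at e1
    have e2 := h.Hs_symm hx (uu φ) (nn φ)
    rw [div_eq_zero_iff]; left
    rw [e2]
    simp only [Pi.pow_apply]
    push_cast
    linear_combination (-2 * F x (uu φ)) * e1
  have hconst : ∀ φ, Hs F x (uu φ) (uu φ) / (F x (uu φ)) ^ 2
      = Hs F x (uu 0) (uu 0) / (F x (uu 0)) ^ 2 := fun φ =>
    is_const_of_deriv_eq_zero (fun t => (hd t).differentiableAt) (fun t => (hd t).deriv) φ 0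
  refine ⟨Hs F x (uu 0) (uu 0) / (F x (uu 0)) ^ 2, ?_⟩
  intro v
  by_cases hv : v = 0
  · subst hv
    have : F x 0 = 0 := by
      have := h.hom x hx 0 0
      simpa using this
    rw [this]; simp
  · obtain ⟨r, hr, φ, rfl⟩ := polar v hv
    have hF := (h.pos x hx _ (uu_ne φ)).ne'
    rw [← hconst φ, h.hom x hx, abs_of_pos hr]
    simp only [map_smul, smul_apply, smul_eq_mul]
    field_simp

/-- The dichotomy. -/
lemma dichotomy (h : RReg M F) {x : ℝ × ℝ} (hx : x ∈ M) : EuclAt F x ∨ Hs F x = 0 := by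
  obtain ⟨C, hC⟩ := h.Hs_self hx
  have hexp : ∀ v : ℝ × ℝ, Hs F x v v = Hs F x (1, 0) (1, 0) * v.1 ^ 2
      + 2 * Hs F x (1, 0) (0, 1) * v.1 * v.2 + Hs F x (0, 1) (0, 1) * v.2 ^ 2 := by
    intro v
    have e1 : v = v.1 • ((1:ℝ), (0:ℝ)) + v.2 • ((0:ℝ), (1:ℝ)) := by ext <;> simp
    have e2 := h.Hs_symm hx (0, 1) (1, 0)
    conv_lhs => rw [e1]
    simp only [map_add, map_smul, add_apply, smul_apply,
      smul_eq_mul]
    rw [e2]; ring
  by_cases hC0 : C = 0
  · right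
    have hz : ∀ v, Hs F x v v = 0 := by intro v; rw [hC, hC0, zero_mul]
    ext
    all_goals
      have h1 := hz (1, 0)
      have h2 := hz (0, 1)
      have h3 := hz (1, 1)
      rw [hexp (1, 1)] at h3
      have h4 := h.Hs_symm hx (0, 1) (1, 0)
      simp only [ContinuousLinearMap.coe_comp, Function.comp_apply, ContinuousLinearMap.inl_apply,
        ContinuousLinearMap.inr_apply]
      simp at h3 ⊢
      linarith
  · left
    refine ⟨Hs F x (1, 0) (1, 0) / C, Hs F x (1, 0) (0, 1) / C, Hs F x (0, 1) (0, 1) / C, ?_⟩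
    intro v
    have := hC v
    rw [hexp] at this
    field_simp
    linarith

end RReg

end Pool.Agent.H81
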