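import Pool.Agent.H81.Rigid

open Set Filter Topology Real

namespace Pool.Agent.H81

/-- clamp to `[0,1]` -/
noncomputable def clamp (s : ℝ) : ℝ := max 0 (min 1 s)

lemma clamp_cont : Continuous clamp := by
  unfold clamp; fun_prop

lemma clamp_mem (s : ℝ) : clamp s ∈ Icc (0:ℝ) 1 :=
  ⟨le_max_left _ _, max_le zero_le_one (min_le_left _ _)⟩

lemma clamp_eq {s : ℝ} (h : s ∈ Icc (0:ℝ) 1) : clamp s = s := by
  unfold clamp
  rw [min_eq_right h.2, max_eq_right h.1]

namespace RReg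

variable {M : Set (ℝ × ℝ)} {F : ℝ × ℝ → ℝ × ℝ → ℝ}

lemma seg_mem (hconv : Convex ℝ M) {x0 x1 : ℝ × ℝ} (h0 : x0 ∈ M) (h1 : x1 ∈ M) {t : ℝ}
    (ht : t ∈ Icc (0:ℝ) 1) : x0 + t • (x1 - x0) ∈ M :=
  hconv.add_smul_sub_mem h0 h1 ht

/-- Parallel transport along a segment. -/
theorem transport_formula (h : RReg M F) (hconv : Convex ℝ M) {x0 x1 : ℝ × ℝ} (h0 : x0 ∈ M)
    (h1 : x1 ∈ M) (z : ℝ × ℝ) (hz : cr (x1 - x0) z ≠ 0) :
    ∃ b : ℝ, ∀ A β : ℝ, (A ≠ 0 ∨ β ≠ 0) →
      F x1 ((th F x1 ^ 2 * (A + β * b)) • (x1 - x0) + (th F x1 * β) • z)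
        = F x0 ((th F x0 ^ 2 * A) • (x1 - x0) + (th F x0 * β) • z) := by
  set y := x1 - x0 with hy
  -- paths
  set X : ℝ → ℝ × ℝ := fun s => x0 + (clamp s) • y with hX
  have hXM : ∀ s, X s ∈ M := fun s => seg_mem hconv h0 h1 (clamp_mem s)
  have hXc : Continuous X := by
    have := clamp_cont
    simp only [hX]; fun_prop
  have cθ : ContinuousOn (th F) M := fun x hx => (h.th_hasFDerivAt hx).1.continuousAt.continuousWithinAt
  have cT : ContinuousOn (Tm F) M := fun x hx => (h.Tm_differentiableAt hx).continuousAt.continuousWithinAt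
  have cθX : Continuous fun s => th F (X s) := cθ.comp_continuous hXc hXM
  have cTX : Continuous fun s => Tm F (X s) z := (cT.comp_continuous hXc hXM).clm_apply continuous_const
  set g : ℝ → ℝ := fun s => Tm F (X s) z / (th F (X s)) ^ 2 with hg
  have cg : Continuous g := cTX.div₀ (cθX.pow 2) (fun s => pow_ne_zero 2 (th_pos _).ne')
  set I : ℝ → ℝ := fun t => ∫ s in (0:ℝ)..t, g s with hI
  have dI : ∀ t, HasDerivAt I (g t) t := fun t => (cg.integral_hasStrictDerivAt 0 t).hasDerivAt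
  refine ⟨I 1, ?_⟩
  intro A β hAβ
  set xt : ℝ → ℝ × ℝ := fun t => x0 + t • y with hxt
  set vt : ℝ → ℝ × ℝ := fun t => (th F (X t) ^ 2 * (A + β * I t)) • y + (th F (X t) * β) • z with hvt
  have hvne : ∀ t, vt t ≠ 0 := by
    intro t ht
    have e1 : cr y (vt t) = 0 := by rw [ht]; simp [cr]
    have e2 : cr (vt t) z = 0 := by rw [ht]; simp [cr]
    have e3 : cr y (vt t) = (th F (X t) * β) * cr y z := by
      simp only [hvt, cr, Prod.fst_add, Prod.snd_add, Prod.smul_fst, Prod.smul_snd, smul_eq_mul]; ring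
    have e4 : cr (vt t) z = (th F (X t) ^ 2 * (A + β * I t)) * cr y z := by
      simp only [hvt, cr, Prod.fst_add, Prod.snd_add, Prod.smul_fst, Prod.smul_snd, smul_eq_mul]; ring
    have hθ := (th_pos (F := F) (X t)).ne'
    rw [e3] at e1
    rw [e4] at e2
    have f1 : β = 0 := by
      have := (mul_eq_zero.1 e1).resolve_right hz
      exact (mul_eq_zero.1 this).resolve_left hθ
    have f2 : A = 0 := by
      have := (mul_eq_zero.1 e2).resolve_right hz
      have := (mul_eq_zero.1 this).resolve_left (pow_ne_zero 2 hθ)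
      rw [f1] at this; simpa using this
    rcases hAβ with h3 | h3
    · exact h3 f2
    · exact h3 f1
  have hvc : Continuous vt := by
    have cI : Continuous I := continuous_iff_continuousAt.2 fun t => (dI t).continuousAt
    simp only [hvt]
    exact (((cθX.pow 2).mul (continuous_const.add (continuous_const.mul cI))).smul
      continuous_const).add ((cθX.mul continuous_const).smul continuous_const)
  set Φ : ℝ → ℝ := fun t => F (X t) (vt t) with hΦ
  have hΦc : Continuous Φ := by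
    have c1 : Continuous fun t => ((X t, vt t) : (ℝ × ℝ) × (ℝ × ℝ)) := hXc.prodMk hvc
    have c2 : ContinuousOn (Fu F) (M ×ˢ {v | v ≠ 0}) := h.smooth.continuousOn
    exact c2.comp_continuous c1 (fun t => ⟨hXM t, hvne t⟩)
  have dΦ : ∀ t ∈ Ioo (0:ℝ) 1, HasDerivAt Φ 0 t := by
    intro t ht
    have hXt : X t = xt t := by simp only [hX, hxt, clamp_eq ⟨ht.1.le, ht.2.le⟩]
    have hXev : X =ᶠ[𝓝 t] xt := by
      filter_upwards [isOpen_Ioo.mem_nhds ht] with s hs
      simp only [hX, hxt, clamp_eq ⟨hs.1.le, hs.2.le⟩]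
    have dxt : HasDerivAt xt y t := by
      have e7 : HasDerivAt (fun s : ℝ => x0 + s • y) ((1:ℝ) • y) t :=
        ((hasDerivAt_id t).smul_const y).const_add x0
      rw [one_smul] at e7; exact e7
    have dX : HasDerivAt X y t := dxt.congr_of_eventuallyEq hXev
    have hXtM := hXM t
    have dθ : HasDerivAt (fun s => th F (X s)) (Tm F (X t) y) t :=
      (h.th_hasFDerivAt hXtM).1.comp_hasDerivAt t dX
    have dc1 : HasDerivAt (fun s => th F (X s) ^ 2 * (A + β * I s))
        ((2 * th F (X t) * Tm F (X t) y) * (A + β * I t) + th F (X t) ^ 2 * (β * g t)) t := by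
      have := (dθ.pow 2).mul (((dI t).const_mul β).const_add A)
      refine this.congr_deriv ?_
      simp only [Pi.pow_apply]
      push_cast; ring
    have dc2 : HasDerivAt (fun s => th F (X s) * β) (Tm F (X t) y * β) t := dθ.mul_const β
    have dv := (dc1.smul_const y).add (dc2.smul_const z)
    have dv' : HasDerivAt vt (((2 * th F (X t) * Tm F (X t) y) * (A + β * I t)
        + th F (X t) ^ 2 * (β * g t)) • y + (Tm F (X t) y * β) • z) t := dv
    have dF := h.toFReg.hasDerivAt_F_curve2 hXtM dX dv' (hvne t)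
    refine dF.congr_deriv ?_
    have hθ := (th_pos (F := F) (X t)).ne'
    have e1 := (h.th_hasFDerivAt hXtM).2 (vt t) (hvne t) y
    have e2 := h.toFReg.pv_self hXtM (hvne t)
    have e3 : pv F (X t) (vt t) (vt t) = (th F (X t) ^ 2 * (A + β * I t)) * pv F (X t) (vt t) y
        + (th F (X t) * β) * pv F (X t) (vt t) z := by
      conv_lhs => rw [show pv F (X t) (vt t) (vt t) = pv F (X t) (vt t)
        ((th F (X t) ^ 2 * (A + β * I t)) • y + (th F (X t) * β) • z) from rfl]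
      rw [FReg.pv_add, FReg.pv_smul, FReg.pv_smul]
    have e4 : Tm F (X t) (vt t) = (th F (X t) ^ 2 * (A + β * I t)) * Tm F (X t) y
        + (th F (X t) * β) * Tm F (X t) z := by
      conv_lhs => rw [show Tm F (X t) (vt t) = Tm F (X t)
        ((th F (X t) ^ 2 * (A + β * I t)) • y + (th F (X t) * β) • z) from rfl]
      rw [map_add, map_smul, map_smul, smul_eq_mul, smul_eq_mul]
    have e5 : g t * th F (X t) ^ 2 = Tm F (X t) z := by
      simp only [hg]; field_simp
    rw [FReg.pv_add, FReg.pv_smul, FReg.pv_smul]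
    apply mul_left_cancel₀ hθ
    rw [mul_add, e1, ← e2, e3, e4, ← e5]
    ring
  have hconst : Φ 1 = Φ 0 := by
    obtain ⟨c, hc, hc2⟩ := exists_hasDerivAt_eq_slope Φ (fun _ => 0) (zero_lt_one' ℝ)
      hΦc.continuousOn dΦ
    simp at hc2
    linarith
  have hX1 : X 1 = x1 := by
    simp only [hX, clamp_eq (⟨zero_le_one, le_refl _⟩ : (1:ℝ) ∈ Icc (0:ℝ) 1), hy]; simp
  have hX0 : X 0 = x0 := by
    simp only [hX, clamp_eq (⟨le_refl _, zero_le_one⟩ : (0:ℝ) ∈ Icc (0:ℝ) 1), hy]; simp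
  have hI0 : I 0 = 0 := by simp only [hI]; simp
  simp only [hΦ, hvt, hX1, hX0, hI0, mul_zero, add_zero] at hconst
  exact hconst

lemma euclAt_comp {N0 N1 : ℝ × ℝ → ℝ} {l1 l2 l3 l4 : ℝ}
    (he : ∃ a b c : ℝ, ∀ v : ℝ × ℝ, (N0 v) ^ 2 = a * v.1 ^ 2 + 2 * b * v.1 * v.2 + c * v.2 ^ 2)
    (hN : ∀ v : ℝ × ℝ, N1 v = N0 (l1 * v.1 + l2 * v.2, l3 * v.1 + l4 * v.2)) :
    ∃ a b c : ℝ, ∀ v : ℝ × ℝ, (N1 v) ^ 2 = a * v.1 ^ 2 + 2 * b * v.1 * v.2 + c * v.2 ^ 2 := by
  obtain ⟨a, b, c, habc⟩ := he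
  refine ⟨a * l1 ^ 2 + 2 * b * l1 * l3 + c * l3 ^ 2,
    a * l1 * l2 + b * (l1 * l4 + l2 * l3) + c * l3 * l4,
    a * l2 ^ 2 + 2 * b * l2 * l4 + c * l4 ^ 2, ?_⟩
  intro v
  rw [hN, habc]; ring

/-- Being Euclidean propagates. -/
theorem eucl_transport (h : RReg M F) (hconv : Convex ℝ M) {x0 x1 : ℝ × ℝ} (h0 : x0 ∈ M)
    (h1 : x1 ∈ M) (he : EuclAt F x0) : EuclAt F x1 := by
  by_cases hxx : x1 - x0 = 0
  · have : x1 = x0 := sub_eq_zero.1 hxx
    rw [this]; exact he
  set y := x1 - x0 with hy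
  set z : ℝ × ℝ := (-y.2, y.1) with hz
  have hyz : cr y z = y.1 ^ 2 + y.2 ^ 2 := by simp only [cr, hz]; ring
  have hpos : 0 < y.1 ^ 2 + y.2 ^ 2 := by
    by_contra hcon
    apply hxx
    have p1 : y.1 = 0 := by nlinarith [sq_nonneg y.1, sq_nonneg y.2]
    have p2 : y.2 = 0 := by nlinarith [sq_nonneg y.1, sq_nonneg y.2]
    exact Prod.ext p1 p2
  obtain ⟨b, hb⟩ := h.transport_formula hconv h0 h1 z (by rw [hyz]; exact hpos.ne')
  rw [← hy] at hb
  set n := y.1 ^ 2 + y.2 ^ 2 with hn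
  have t1 := th_pos (F := F) x1
  have t0 := th_pos (F := F) x0
  set θ1 := th F x1
  set θ0 := th F x0
  -- v = c y + e z, c = (v·y)/n, e = cr y v / n
  -- image: (θ0^2 (c/θ1^2 - e b/θ1)) y + (θ0/θ1 e) z
  refine euclAt_comp (N0 := F x0) (N1 := F x1)
    (l1 := (θ0 ^ 2 * ((y.1 / n) / θ1 ^ 2 - (-y.2 / n) * b / θ1)) * y.1 - (θ0 / θ1 * (-y.2 / n)) * y.2)
    (l2 := (θ0 ^ 2 * ((y.2 / n) / θ1 ^ 2 - (y.1 / n) * b / θ1)) * y.1 - (θ0 / θ1 * (y.1 / n)) * y.2)
    (l3 := (θ0 ^ 2 * ((y.1 / n) / θ1 ^ 2 - (-y.2 / n) * b / θ1)) * y.2 + (θ0 / θ1 * (-y.2 / n)) * y.1)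
    (l4 := (θ0 ^ 2 * ((y.2 / n) / θ1 ^ 2 - (y.1 / n) * b / θ1)) * y.2 + (θ0 / θ1 * (y.1 / n)) * y.1)
    he ?_
  intro v
  by_cases hv : v = 0
  · subst hv
    have f1 : F x1 0 = 0 := by have := h.hom x1 h1 0 0; simpa using this
    have f0 : F x0 0 = 0 := by have := h.hom x0 h0 0 0; simpa using this
    simp only [Prod.fst_zero, Prod.snd_zero, mul_zero, add_zero]
    rw [f1]
    exact f0.symm
  · set c := (v.1 * y.1 + v.2 * y.2) / n with hc
    set e := (y.1 * v.2 - y.2 * v.1) / n with hee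
    have hvd : v = c • y + e • z := by
      ext
      · simp only [hc, hee, hz, Prod.fst_add, Prod.smul_fst, smul_eq_mul]
        field_simp
        rw [hn]; ring
      · simp only [hc, hee, hz, Prod.snd_add, Prod.smul_snd, smul_eq_mul]
        field_simp
        rw [hn]; ring
    have hAβ : (c / θ1 ^ 2 - (e / θ1) * b ≠ 0 ∨ e / θ1 ≠ 0) := by
      by_contra hcon
      push Not at hcon
      obtain ⟨q1, q2⟩ := hcon
      rw [q2, zero_mul, sub_zero] at q1
      have r1 : c = 0 := by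
        rcases div_eq_zero_iff.1 q1 with h3 | h3
        · exact h3
        · exact absurd h3 (pow_ne_zero 2 t1.ne')
      have r2 : e = 0 := by
        rcases div_eq_zero_iff.1 q2 with h3 | h3
        · exact h3
        · exact absurd h3 t1.ne'
      apply hv
      rw [hvd, r1, r2]; simp
    have := hb (c / θ1 ^ 2 - (e / θ1) * b) (e / θ1) hAβ
    have g1 : θ1 ^ 2 * (c / θ1 ^ 2 - (e / θ1) * b + e / θ1 * b) = c := by
      have := t1.ne'
      field_simp; ring
    have g2 : θ1 * (e / θ1) = e := by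
      have := t1.ne'
      field_simp
    rw [g1, g2, ← hvd] at this
    rw [this]
    congr 1
    have hn0 := hpos.ne'
    have t1' := t1.ne'
    ext
    · simp only [hc, hee, hz, Prod.fst_add, Prod.smul_fst, smul_eq_mul]
      field_simp
      ring
    · simp only [hc, hee, hz, Prod.snd_add, Prod.smul_snd, smul_eq_mul]
      field_simp
      ring

/-- along a segment: `θ² F(·, y)` is constant. -/
theorem line_formula (h : RReg M F) (hconv : Convex ℝ M) {x0 x1 : ℝ × ℝ} (h0 : x0 ∈ M)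
    (h1 : x1 ∈ M) (hne : x1 ≠ x0) :
    th F x1 ^ 2 * F x1 (x1 - x0) = th F x0 ^ 2 * F x0 (x1 - x0) := by
  have hxx : x1 - x0 ≠ 0 := sub_ne_zero.2 hne
  set y := x1 - x0 with hy
  set z : ℝ × ℝ := (-y.2, y.1) with hz
  have hyz : cr y z = y.1 ^ 2 + y.2 ^ 2 := by simp only [cr, hz]; ring
  have hpos : 0 < y.1 ^ 2 + y.2 ^ 2 := by
    by_contra hcon
    apply hxx
    have p1 : y.1 = 0 := by nlinarith [sq_nonneg y.1, sq_nonneg y.2]
    have p2 : y.2 = 0 := by nlinarith [sq_nonneg y.1, sq_nonneg y.2]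
    exact Prod.ext p1 p2
  obtain ⟨b, hb⟩ := h.transport_formula hconv h0 h1 z (by rw [hyz]; exact hpos.ne')
  have := hb 1 0 (Or.inl one_ne_zero)
  simp only [zero_mul, add_zero, mul_one, mul_zero, zero_smul] at this
  rw [h.hom x1 h1, h.hom x0 h0, abs_of_pos (by have := th_pos (F := F) x1; positivity),
    abs_of_pos (by have := th_pos (F := F) x0; positivity)] at this
  exact this

/-- The rigidity theorem, infinitesimal form. -/
theorem rigidity (h : RReg M F) (hconv : Convex ℝ M) :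
    (∀ x ∈ M, EuclAt F x) ∨
      ∃ b : ℝ × ℝ →L[ℝ] ℝ, (∀ x ∈ M, ∀ x' ∈ M, th F x' = th F x + b (x' - x)) ∧
        ∀ x ∈ M, ∀ v, v ≠ 0 → ∀ w, th F x * px F x v w = -(b w * F x v + b v * pv F x v w) := by
  by_cases hE : ∀ x ∈ M, EuclAt F x
  · exact Or.inl hE
  · right
    push Not at hE
    obtain ⟨x0, hx0, hne⟩ := hE
    have hH : ∀ x ∈ M, Hs F x = 0 := by
      intro x hx
      rcases h.dichotomy hx with h1 | h1
      · exact absurd (h.eucl_transport hconv hx hx0 h1) hne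
      · exact h1
    have hTc : ∀ x ∈ M, Tm F x = Tm F x0 := by
      intro x hx
      apply h.isOpen.is_const_of_fderiv_eq_zero (𝕜 := ℝ) hconv.isPreconnected
        (fun y hy => (h.Tm_differentiableAt hy).differentiableWithinAt) _ hx hx0
      intro y hy
      exact hH y hy
    refine ⟨Tm F x0, ?_, ?_⟩
    · intro x hx x' hx'
      have hd : ∀ y ∈ M, HasFDerivAt (fun y => th F y - Tm F x0 y) (0 : ℝ × ℝ →L[ℝ] ℝ) y := by
        intro y hy
        have := (h.th_hasFDerivAt hy).1.sub (Tm F x0).hasFDerivAt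
        rw [hTc y hy, sub_self] at this
        exact this
      have := h.isOpen.is_const_of_fderiv_eq_zero (𝕜 := ℝ) hconv.isPreconnected
        (f := fun y => th F y - Tm F x0 y)
        (fun y hy => (hd y hy).differentiableAt.differentiableWithinAt)
        (fun y hy => (hd y hy).fderiv) hx hx'
      rw [map_sub]; linarith
    · intro x hx v hv w
      have := (h.th_hasFDerivAt hx).2 v hv w
      rw [hTc x hx] at this
      exact this

end RReg

end Pool.Agent.H81
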